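import Mathlib

/-!
Definitions for MP_6b4821_lc: weight, w-compact spaces, projectively w-compact groups,
Martin's axiom.
-/

open Set Filter Topology TopologicalSpace Cardinal

namespace Pool.Agent.Lib.MP_6b4821_lc

universe u

/-- The weight of a space: the least cardinality of a base. -/
noncomputable def weight (X : Type u) [TopologicalSpace X] : Cardinal.{u} :=
  sInf {c | ∃ B : Set (Set X), IsTopologicalBasis B ∧ #B = c}

/-- `X` is w-compact: some compact subset has the same weight as `X`. -/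
def WCompact (X : Type u) [TopologicalSpace X] : Prop :=
  ∃ C : Set X, IsCompact C ∧ weight C = weight X

/-- `D` is projectively w-compact: every Hausdorff topological group which is the image of `D`
under a continuous surjective homomorphism is w-compact. -/
def ProjWCompact (D : Type) [Group D] [TopologicalSpace D] : Prop :=
  ∀ (H : Type) [Group H] [TopologicalSpace H] [IsTopologicalGroup H] [T2Space H] (φ : D →* H),
    Continuous φ → Function.Surjective φ → WCompact H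

/-- The countable chain condition: every set of pairwise incompatible elements is countable. -/
def Ccc (P : Type) [Preorder P] : Prop :=
  ∀ A : Set P, (∀ p ∈ A, ∀ q ∈ A, p ≠ q → ¬ ∃ r, r ≤ p ∧ r ≤ q) → A.Countable

/-- Martin's Axiom: if `P` is a nonempty ccc preorder and `𝒟` is a family of fewer than continuum
many dense subsets of `P`, some filter of `P` meets every member of `𝒟`. -/
def MartinsAxiom : Prop :=
  ∀ (P : Type) [Preorder P] [Nonempty P], Ccc P →
    ∀ 𝒟 : Set (Set P), #𝒟 < 𝔠 → (∀ D ∈ 𝒟, ∀ p, ∃ q ∈ D, q ≤ p) →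
      ∃ G : Set P, G.Nonempty ∧ (∀ p ∈ G, ∀ q, p ≤ q → q ∈ G) ∧
        (∀ p ∈ G, ∀ q ∈ G, ∃ r ∈ G, r ≤ p ∧ r ≤ q) ∧ ∀ D ∈ 𝒟, (D ∩ G).Nonempty

/-- The property `p > ω₁` for families indexed by `ι`: a family of sets of natural numbers all of
whose finite intersections are infinite has an infinite pseudo-intersection. -/
def PI (ι : Type) : Prop :=
  ∀ A : ι → Set ℕ, (∀ F : Finset ι, {n | ∀ i ∈ F, n ∈ A i}.Infinite) →
    ∃ X : Set ℕ, X.Infinite ∧ ∀ i, (X \ A i).Finite

/-! ### Martin's axiom gives pseudo-intersections -/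

/-- Mathias-Prikry conditions. -/
structure Cond {ι : Type} (A : ι → Set ℕ) where
  s : Finset ℕ
  F : Finset ι

instance {ι : Type} (A : ι → Set ℕ) : Preorder (Cond A) where
  le q p := p.s ⊆ q.s ∧ p.F ⊆ q.F ∧ ∀ n ∈ q.s, n ∉ p.s → ∀ i ∈ p.F, n ∈ A i
  le_refl p := ⟨Finset.Subset.refl _, Finset.Subset.refl _, fun n h h' => absurd h h'⟩
  le_trans r q p h1 h2 := by
    refine ⟨h2.1.trans h1.1, h2.2.1.trans h1.2.1, fun n hn hn' i hi => ?_⟩
    by_cases h : n ∈ q.s
    · exact h2.2.2 n h hn' i hi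
    · exact h1.2.2 n hn h i (h2.2.1 hi)

theorem cond_le {ι : Type} {A : ι → Set ℕ} {p q : Cond A} :
    q ≤ p ↔ p.s ⊆ q.s ∧ p.F ⊆ q.F ∧ ∀ n ∈ q.s, n ∉ p.s → ∀ i ∈ p.F, n ∈ A i := Iff.rfl

theorem cond_ccc {ι : Type} (A : ι → Set ℕ) : Ccc (Cond A) := by
  classical
  intro 𝒜 h𝒜
  have hinj : Set.InjOn (fun p : Cond A => p.s) 𝒜 := by
    intro p hp q hq hpq
    by_contra hne
    refine h𝒜 p hp q hq hne ⟨⟨p.s, p.F ∪ q.F⟩, ?_, ?_⟩
    · exact ⟨Finset.Subset.refl _, Finset.subset_union_left, fun n h h' => absurd h h'⟩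
    · refine ⟨?_, Finset.subset_union_right, fun n h h' => ?_⟩
      · show q.s ⊆ p.s
        exact (show p.s = q.s from hpq) ▸ Finset.Subset.refl _
      · exact absurd ((show p.s = q.s from hpq) ▸ h) h'
  exact Set.MapsTo.countable_of_injOn (Set.mapsTo_univ _ _) hinj (Set.to_countable _)

theorem MartinsAxiom.pi (ma : MartinsAxiom) (ι : Type) (hι : #ι < 𝔠) : PI ι := by
  classical
  intro A hA
  have hne : Nonempty (Cond A) := ⟨⟨∅, ∅⟩⟩
  let E : ι ⊕ ℕ → Set (Cond A) := fun x => match x with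
    | Sum.inl i => {p | i ∈ p.F}
    | Sum.inr m => {p | ∃ n ∈ p.s, m ≤ n}
  have hcard : #(Set.range E) < 𝔠 := by
    refine (mk_range_le).trans_lt ?_
    rw [mk_sum, lift_id, lift_id]
    exact add_lt_of_lt aleph0_le_continuum hι (by rw [mk_nat]; exact aleph0_lt_continuum)
  obtain ⟨G, -, -, hG2, hG3⟩ := ma (Cond A) (cond_ccc A) (Set.range E) hcard (by
    rintro _ ⟨x, rfl⟩ p
    rcases x with i | m
    · exact ⟨⟨p.s, insert i p.F⟩, Finset.mem_insert_self _ _, Finset.Subset.refl _,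
        Finset.subset_insert _ _, fun n h h' => absurd h h'⟩
    · obtain ⟨n, hn, hmn⟩ := (hA p.F).exists_gt m
      refine ⟨⟨insert n p.s, p.F⟩, ⟨n, Finset.mem_insert_self _ _, hmn.le⟩,
        Finset.subset_insert _ _, Finset.Subset.refl _, fun k hk hk' i hi => ?_⟩
      rcases Finset.mem_insert.1 hk with rfl | hk
      · exact hn i hi
      · exact absurd hk hk')
  refine ⟨{n | ∃ p ∈ G, n ∈ p.s}, ?_, fun i => ?_⟩
  · refine Set.infinite_of_not_bddAbove ?_
    rintro ⟨m, hm⟩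
    obtain ⟨p, ⟨n, hn, hmn⟩, hp⟩ := hG3 _ ⟨Sum.inr (m + 1), rfl⟩
    have := hm (show n ∈ {n | ∃ p ∈ G, n ∈ p.s} from ⟨p, hp, hn⟩)
    omega
  · obtain ⟨p, hpi, hp⟩ := hG3 _ ⟨Sum.inl i, rfl⟩
    refine (p.s.finite_toSet).subset ?_
    rintro n ⟨⟨q, hq, hn⟩, hni⟩
    by_contra hnp
    obtain ⟨r, -, hrp, hrq⟩ := hG2 p hp q hq
    exact hni (hrp.2.2 n (hrq.1 hn) hnp i hpi)

end Pool.Agent.Lib.MP_6b4821_lc
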