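import Pool.Agent.Lib.MP_6b4821_lc.IDefs
import Pool.Agent.Lib.MP_a1c723_lc.BV.Formula
import Pool.Agent.Lib.MP_a1c723_lc.BV.Base
import Pool.Agent.Lib.MP_a1c723_lc.BV.Cof
import Pool.Agent.Lib.MP_a1c723_lc.BV.Card
import Pool.Agent.Lib.MP_a1c723_lc.BV.Model
import Pool.Agent.Lib.MP_a1c723_lc.Converse

/-!
# MP_6b4821_lc: the model with `ω₁ < 𝔭` and with codes of the pairs of finite subsets of `ω₁`
-/

set_option autoImplicit false

namespace Pool.Agent.Lib.MP_6b4821_lc

open Pool.Agent.MPa4e7db Pool.Agent.StarRoth Pool.Agent.StarRoth.BV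
open Pool.Agent.MP_5db68c_lc (Fml Sat push ModelZF IsOmega IsInductive IsPair)

namespace GoodM

/-! ## Boolean values -/

section

variable {B : Type} [CompleteBooleanAlgebra B]

/-- `f` is a functional relation. -/
def fnlB (f : BName B) : B :=
  ⨅ x : BName B, ⨅ y : BName B, ⨅ y' : BName B, relB f x y ⊓ relB f x y' ⇨ eqB y y'

/-- Every element of `κ` is countable. -/
def enumB (κ w : BName B) : B :=
  ⨅ i : BName B, memB i κ ⇨ ⨆ f : BName B, fnlB f ⊓
    ⨅ j : BName B, memB j i ⇨ ⨆ n : BName B, memB n w ⊓ relB f n j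

/-- Every functional relation is bounded on `w`. -/
def bddB (κ w : BName B) : B :=
  ⨅ f : BName B, fnlB f ⇨ ⨆ j : BName B, memB j κ ⊓
    ⨅ n : BName B, ⨅ i : BName B, memB n w ⊓ memB i κ ⊓ relB f n i ⇨ memB i j

/-- The hypothesis of `kfinB`. -/
def kcloB (s κ : BName B) : B :=
  (⨅ e : BName B, isEmptyB e ⇨ memB e s) ⊓
    ⨅ x : BName B, ⨅ i : BName B, ⨅ y : BName B,
      memB x s ⊓ memB i κ ⊓ (⨅ z : BName B, iffB (memB z y) (memB z x ⊔ eqB z i)) ⇨ memB y s

/-- `F` is a finite subset of `κ`. -/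
def kfinB (F κ : BName B) : B := ⨅ s : BName B, kcloB s κ ⇨ memB F s

/-- The finite intersections of the family `A` are infinite. -/
def sfipB (A κ w : BName B) : B :=
  ⨅ F : BName B, ⨅ m : BName B, kfinB F κ ⊓ memB m w ⇨
    ⨆ n : BName B, memB n w ⊓ memB m n ⊓ ⨅ i : BName B, memB i F ⇨ relB A i n

/-- `X` is an infinite pseudo-intersection of the family `A`. -/
def pintB (X A κ w : BName B) : B :=
  subB X w ⊓ (⨅ m : BName B, memB m w ⇨ ⨆ n : BName B, memB n X ⊓ memB m n) ⊓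
    ⨅ i : BName B, memB i κ ⇨ ⨆ m : BName B, memB m w ⊓
      ⨅ n : BName B, memB n X ⊓ memB m n ⇨ relB A i n

/-- The pseudo-intersection property. -/
def piB (κ w : BName B) : B := ⨅ A : BName B, sfipB A κ w ⇨ ⨆ X : BName B, pintB X A κ w

/-- There is a code of the pair of empty sets. -/
def code0B (κ R S : BName B) : B :=
  ⨆ j : BName B, memB j κ ⊓ ⨅ i : BName B, (relB R j i)ᶜ ⊓ (relB S j i)ᶜ

/-- The codes are closed under adding an element to the first component. -/
def codeB (κ R S : BName B) : B :=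
  ⨅ j : BName B, ⨅ i : BName B, memB j κ ⊓ memB i κ ⇨ ⨆ k : BName B, memB k κ ⊓
    ⨅ x : BName B, iffB (relB R k x) (relB R j x ⊔ eqB x i) ⊓ iffB (relB S k x) (relB S j x)

/-- The Boolean value of the existence of the data. -/
def goodB (B : Type) [CompleteBooleanAlgebra B] : B :=
  ⨆ w : BName B, ⨆ κ : BName B, ⨆ R : BName B, ⨆ S : BName B,
    isOmegaB w ⊓ isOrdB κ ⊓ enumB κ w ⊓ bddB κ w ⊓ piB κ w ⊓ code0B κ R S ⊓ codeB κ R S ⊓
      codeB κ S R

end

/-! ## Formulas -/

def fFnl (f : ℕ) : Fml :=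
  .all (.all (.all (fImp (.and (fRel (f + 1 + 1 + 1) (0 + 1 + 1) (0 + 1))
    (fRel (f + 1 + 1 + 1) (0 + 1 + 1) 0)) (.eq (0 + 1) 0))))
def fEnum (κ w : ℕ) : Fml :=
  .all (fImp (.mem 0 (κ + 1)) (fEx (.and (fFnl 0) (.all (fImp (.mem 0 (0 + 1 + 1))
    (fEx (.and (.mem 0 (w + 1 + 1 + 1 + 1)) (fRel (0 + 1 + 1) 0 (0 + 1)))))))))
def fBdd (κ w : ℕ) : Fml :=
  .all (fImp (fFnl 0) (fEx (.and (.mem 0 (κ + 1 + 1)) (.all (.all (fImp
    (.and (.and (.mem (0 + 1) (w + 1 + 1 + 1 + 1)) (.mem 0 (κ + 1 + 1 + 1 + 1)))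
      (fRel (0 + 1 + 1 + 1) (0 + 1) 0)) (.mem 0 (0 + 1 + 1))))))))
def fKclo (s κ : ℕ) : Fml :=
  .and (.all (fImp (fEmpty 0) (.mem 0 (s + 1))))
    (.all (.all (.all (fImp (.and (.and (.mem (0 + 1 + 1) (s + 1 + 1 + 1))
      (.mem (0 + 1) (κ + 1 + 1 + 1)))
      (.all (fIff (.mem 0 (0 + 1)) (fOr (.mem 0 (0 + 1 + 1 + 1)) (.eq 0 (0 + 1 + 1))))))
      (.mem 0 (s + 1 + 1 + 1))))))
def fKFin (F κ : ℕ) : Fml := .all (fImp (fKclo 0 (κ + 1)) (.mem (F + 1) 0))
def fSfip (A κ w : ℕ) : Fml :=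
  .all (.all (fImp (.and (fKFin (0 + 1) (κ + 1 + 1)) (.mem 0 (w + 1 + 1)))
    (fEx (.and (.and (.mem 0 (w + 1 + 1 + 1)) (.mem (0 + 1) 0))
      (.all (fImp (.mem 0 (0 + 1 + 1 + 1)) (fRel (A + 1 + 1 + 1 + 1) 0 (0 + 1))))))))
def fPint (X A κ w : ℕ) : Fml :=
  .and (.and (fSub X w) (.all (fImp (.mem 0 (w + 1))
    (fEx (.and (.mem 0 (X + 1 + 1)) (.mem (0 + 1) 0))))))
    (.all (fImp (.mem 0 (κ + 1)) (fEx (.and (.mem 0 (w + 1 + 1))
      (.all (fImp (.and (.mem 0 (X + 1 + 1 + 1)) (.mem (0 + 1) 0))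
        (fRel (A + 1 + 1 + 1) (0 + 1 + 1) 0)))))))
def fPi (κ w : ℕ) : Fml :=
  .all (fImp (fSfip 0 (κ + 1) (w + 1)) (fEx (fPint 0 (0 + 1) (κ + 1 + 1) (w + 1 + 1))))
def fCode0 (κ R S : ℕ) : Fml :=
  fEx (.and (.mem 0 (κ + 1)) (.all (.and (.neg (fRel (R + 1 + 1) (0 + 1) 0))
    (.neg (fRel (S + 1 + 1) (0 + 1) 0)))))
def fCode (κ R S : ℕ) : Fml :=
  .all (.all (fImp (.and (.mem (0 + 1) (κ + 1 + 1)) (.mem 0 (κ + 1 + 1)))
    (fEx (.and (.mem 0 (κ + 1 + 1 + 1)) (.all (.and
      (fIff (fRel (R + 1 + 1 + 1 + 1) (0 + 1) 0)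
        (fOr (fRel (R + 1 + 1 + 1 + 1) (0 + 1 + 1 + 1) 0) (.eq 0 (0 + 1 + 1))))
      (fIff (fRel (S + 1 + 1 + 1 + 1) (0 + 1) 0)
        (fRel (S + 1 + 1 + 1 + 1) (0 + 1 + 1 + 1) 0))))))))
def fGood : Fml :=
  fEx (fEx (fEx (fEx (.and (.and (.and (.and (.and (.and (.and (fOmega (0 + 1 + 1 + 1))
    (fOrd (0 + 1 + 1))) (fEnum (0 + 1 + 1) (0 + 1 + 1 + 1))) (fBdd (0 + 1 + 1) (0 + 1 + 1 + 1)))
    (fPi (0 + 1 + 1) (0 + 1 + 1 + 1))) (fCode0 (0 + 1 + 1) (0 + 1) 0))
    (fCode (0 + 1 + 1) (0 + 1) 0)) (fCode (0 + 1 + 1) 0 (0 + 1))))))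

section

variable {B : Type} [CompleteBooleanAlgebra B] (v : ℕ → BName B)

theorem val_fFnl (f : ℕ) : val (fFnl f) v = fnlB (v f) := by
  simp only [fFnl, val_all, val_imp, val_and, val_eq, val_fRel, push_zero, push_succ, fnlB]

theorem val_fEnum (κ w : ℕ) : val (fEnum κ w) v = enumB (v κ) (v w) := by
  simp only [fEnum, val_all, val_ex, val_imp, val_and, val_mem, val_fRel, val_fFnl, push_zero,
    push_succ, enumB]

theorem val_fBdd (κ w : ℕ) : val (fBdd κ w) v = bddB (v κ) (v w) := by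
  simp only [fBdd, val_all, val_ex, val_imp, val_and, val_mem, val_fRel, val_fFnl, push_zero,
    push_succ, bddB]

theorem val_fKclo (s κ : ℕ) : val (fKclo s κ) v = kcloB (v s) (v κ) := by
  simp only [fKclo, val_all, val_imp, val_and, val_or, val_iff, val_mem, val_eq, val_fEmpty,
    push_zero, push_succ, kcloB]

theorem val_fKFin (F κ : ℕ) : val (fKFin F κ) v = kfinB (v F) (v κ) := by
  simp only [fKFin, val_all, val_imp, val_mem, val_fKclo, push_zero, push_succ, kfinB]

theorem val_fSfip (A κ w : ℕ) : val (fSfip A κ w) v = sfipB (v A) (v κ) (v w) := by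
  simp only [fSfip, val_all, val_ex, val_imp, val_and, val_mem, val_fRel, val_fKFin,
    push_zero, push_succ, sfipB]

theorem val_fPint (X A κ w : ℕ) : val (fPint X A κ w) v = pintB (v X) (v A) (v κ) (v w) := by
  simp only [fPint, val_all, val_ex, val_imp, val_and, val_mem, val_fRel, val_fSub,
    push_zero, push_succ, pintB]

theorem val_fPi (κ w : ℕ) : val (fPi κ w) v = piB (v κ) (v w) := by
  simp only [fPi, val_all, val_ex, val_imp, val_fSfip, val_fPint, push_zero, push_succ, piB]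

theorem val_fCode0 (κ R S : ℕ) : val (fCode0 κ R S) v = code0B (v κ) (v R) (v S) := by
  simp only [fCode0, val_all, val_ex, val_and, val_neg, val_mem, val_fRel, push_zero, push_succ,
    code0B]

theorem val_fCode (κ R S : ℕ) : val (fCode κ R S) v = codeB (v κ) (v R) (v S) := by
  simp only [fCode, val_all, val_ex, val_imp, val_and, val_or, val_iff, val_mem, val_eq, val_fRel,
    push_zero, push_succ, codeB]

theorem val_fGood : val fGood v = goodB B := by
  simp only [fGood, val_ex, val_and, val_fOmega, val_fOrd, val_fEnum, val_fBdd, val_fPi,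
    val_fCode0, val_fCode, push_zero, push_succ, goodB]

end

/-! ## Satisfaction -/

section

variable {M : Type} [Membership M M]

theorem sat_fFnl (v : ℕ → M) (f : ℕ) : Sat (fFnl f) v ↔
    ∀ x y y' : M, StarRoth.BV.RelIn (v f) x y ∧ StarRoth.BV.RelIn (v f) x y' → y = y' := by
  simp only [fFnl, sat_all, sat_imp, sat_and, sat_eq, sat_fRel, push_zero, push_succ]

theorem isPair_iff (hM : ModelZF M) (z x y : M) : IsOPairIn z x y ↔ IsPair z x y := by
  obtain ⟨a, ha⟩ := hM.pairing x x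
  obtain ⟨b, hb⟩ := hM.pairing x y
  constructor
  · rintro ⟨a', b', h1, h2, h3⟩ t
    rw [h3]
    refine or_congr ⟨fun h => ?_, fun h => ?_⟩ ⟨fun h => ?_, fun h => ?_⟩
    · subst h
      intro w
      rw [h1, or_self_iff]
    · exact hM.extensionality _ _ fun w => by rw [h, h1, or_self_iff]
    · subst h
      exact h2
    · exact hM.extensionality _ _ fun w => by rw [h, h2]
  · intro h
    refine ⟨a, b, ha, hb, fun t => ?_⟩
    rw [h]
    refine or_congr ⟨fun h => ?_, fun h => ?_⟩ ⟨fun h => ?_, fun h => ?_⟩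
    · exact hM.extensionality _ _ fun w => by rw [h, ha, or_self_iff]
    · subst h
      intro w
      rw [ha, or_self_iff]
    · exact hM.extensionality _ _ fun w => by rw [h, hb]
    · subst h
      exact hb

theorem rel_iff (hM : ModelZF M) (f x y : M) : StarRoth.BV.RelIn f x y ↔ PairIn f x y := by
  simp only [StarRoth.BV.RelIn, PairIn, isPair_iff hM, and_comm]

theorem isOmega_of (w : M) (h : IsOmegaIn w) : IsOmega w := by
  have h1 : ∀ v : M, IsInductiveIn v ↔ IsInductive v := by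
    intro v
    refine and_congr ?_ ?_
    · exact exists_congr fun e => and_comm
    · exact forall_congr' fun n => imp_congr_right fun _ => exists_congr fun s => and_comm
  exact ⟨(h1 w).1 h.1, fun w' hw' n hn => h.2 w' ((h1 w').2 hw') n hn⟩

theorem good_of_sat (hM : ModelZF M) (v : ℕ → M) (h : Sat fGood v) :
    ∃ w κ R₀ R₁ : M, Good w κ R₀ R₁ := by
  simp only [fGood, fEnum, fBdd, fPi, fSfip, fPint, fKFin, fKclo, fCode0, fCode, sat_ex, sat_all,
    sat_imp, sat_or, sat_iff, sat_and, sat_neg, sat_mem, sat_eq, sat_fOmega, sat_fOrd, sat_fEmpty,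
    sat_fSub, sat_fRel, sat_fFnl, push_zero, push_succ, rel_iff hM] at h
  obtain ⟨w, κ, R, S, ⟨⟨⟨⟨⟨⟨⟨h1, h2⟩, h3⟩, h4⟩, h5⟩, h6⟩, h7⟩, h8⟩⟩ := h
  refine ⟨w, κ, R, S, ?_, ?_, ?_, ?_, ?_, ?_, ?_, ?_, ?_⟩
  · exact isOmega_of w h1
  · exact fun x y hx hy => h2.1 x hx y hy
  · exact fun x y z hx hy hz => h2.2 x hx y hy z hz
  · intro i hi
    obtain ⟨f, hf, hf2⟩ := h3 i hi
    exact ⟨f, fun x y y' a b => hf x y y' ⟨a, b⟩, hf2⟩
  · intro f hf
    obtain ⟨j, hj, hj2⟩ := h4 f fun x y y' h => hf x y y' h.1 h.2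
    exact ⟨j, hj, fun n i hn hi h => hj2 n i ⟨⟨hn, hi⟩, h⟩⟩
  · intro A hA
    obtain ⟨X, ⟨⟨hX1, hX2⟩, hX3⟩⟩ := h5 A fun F m h => by
      obtain ⟨n, hn1, hn2, hn3⟩ := hA F m (fun s h1 h2 => h.1 s
        ⟨h1, fun x i y h => h2 x i y h.1.1 h.1.2 h.2⟩) h.2
      exact ⟨n, ⟨⟨hn1, hn2⟩, hn3⟩⟩
    refine ⟨X, hX1, hX2, fun i hi => ?_⟩
    obtain ⟨m, hm1, hm2⟩ := hX3 i hi
    exact ⟨m, hm1, fun n h1 h2 => hm2 n ⟨h1, h2⟩⟩
  · exact h6
  · exact fun j i hj hi => h7 j i ⟨hj, hi⟩
  · intro j i hj hi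
    obtain ⟨k, hk, hk2⟩ := h8 j i ⟨hj, hi⟩
    exact ⟨k, hk, fun x => ⟨(hk2 x).2, (hk2 x).1⟩⟩

end

/-! ## Calculation of the Boolean values -/

section

variable {B : Type} [CompleteBooleanAlgebra B] {W : Type} [LinearOrder W] [WellFoundedLT W]

theorem fnl_unique {p : B} {f x y y' : BName B} (h : p ≤ fnlB f) (h1 : p ≤ relB f x y)
    (h2 : p ≤ relB f x y') : p ≤ eqB y y' :=
  himp_mp (iInf_mp (iInf_mp (iInf_mp h x) y) y') (le_inf h1 h2)

theorem memB_natN_not {m k : ℕ} (h : ¬ m < k) : memB (natN m : BName B) (natN k) = ⊥ := by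
  rw [memB_natN, eq_bot_iff]
  refine iSup_le fun i => ?_
  rw [eqB_natN_ne]
  rintro rfl
  exact h i.2

theorem enumB_top (hW : ∀ w : W, (Set.Iio w).Countable) : enumB (kapN B W) omegaN = ⊤ := by
  rw [eq_top_iff, enumB]
  refine le_iInf fun i => himp_intro fun p _ hp => ?_
  rw [memB_kapN] at hp
  refine iSup_elim hp fun v q hq hv => ?_
  have : Countable {u : W // u < v} := (hW v).to_subtype
  obtain ⟨e, he⟩ := exists_injective_nat {u : W // u < v}
  refine iSup_intro (graphN (fun u : {u : W // u < v} => natN (e u)) (fun u => ordN B u.1)) ?_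
  refine le_inf ?_ ?_
  · rw [fnlB]
    refine le_iInf fun x => le_iInf fun y => le_iInf fun y' => himp_intro fun r _ hr => ?_
    have h1 := hr.trans inf_le_left
    have h2 := hr.trans inf_le_right
    rw [relB_graphN] at h1 h2
    refine iSup_elim h1 fun a s hs ha => iSup_elim (hs.trans h2) fun b t ht hb => ?_
    by_cases hab : a = b
    · subst hab
      exact eqB.trans ((ht.trans ha).trans inf_le_right) (eqB.symm (hb.trans inf_le_right))
    · have h3 : t ≤ eqB (natN (e a)) (natN (e b)) :=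
        eqB.trans (eqB.symm ((ht.trans ha).trans inf_le_left)) (hb.trans inf_le_left)
      rw [eqB_natN_ne fun h => hab (he h)] at h3
      exact h3.trans bot_le
  · refine le_iInf fun j => himp_intro fun r hr hj => ?_
    have h1 := memB_congr_right (hr.trans hv) hj
    rw [memB_ordN] at h1
    refine iSup_elim h1 fun u s hs hu => ?_
    refine iSup_intro (natN (e u)) (le_inf ?_ ?_)
    · rw [natN_mem_omegaN]
      exact le_top
    · rw [relB_graphN]
      exact iSup_intro u (le_inf (le_eqB_refl _ _) hu)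

theorem bddB_top [Uncountable W] (hW : ∀ w : W, (Set.Iio w).Countable)
    (hF : ∀ (ι : Type) (f : ι → B), (∀ i j, i ≠ j → f i ⊓ f j = ⊥) → {i | f i ≠ ⊥}.Countable) :
    bddB (kapN B W) omegaN = ⊤ := by
  rw [eq_top_iff, bddB]
  refine le_iInf fun f => himp_intro fun p _ hp => ?_
  have h1 : ∀ n : ℕ, {a : W | p ⊓ relB f (natN n) (ordN B a) ≠ ⊥}.Countable := by
    intro n
    refine hF W _ fun a b hab => ?_
    rw [eq_bot_iff, ← eqB_ordN_ne (B := B) hab]
    exact fnl_unique ((inf_le_left.trans inf_le_left).trans hp) (inf_le_left.trans inf_le_right)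
      (inf_le_right.trans inf_le_right)
  obtain ⟨g, hg⟩ := Cof.exists_bound hW (Set.countable_iUnion h1)
  refine iSup_intro (ordN B g) (le_inf ?_ ?_)
  · rw [ordN_mem_kapN]
    exact le_top
  refine le_iInf fun n => le_iInf fun i => himp_intro fun q hq hz => ?_
  have h2 : q ≤ memB n omegaN := hz.trans (inf_le_left.trans inf_le_left)
  rw [memB_omegaN] at h2
  refine iSup_elim h2 fun m r hr hm => ?_
  have h3 : r ≤ memB i (kapN B W) := hr.trans (hz.trans (inf_le_left.trans inf_le_right))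
  rw [memB_kapN] at h3
  refine iSup_elim h3 fun a s hs ha => ?_
  by_cases hag : a < g
  · refine memB_congr_left (eqB.symm ha) ?_
    rw [ordN_mem_ordN hag]
    exact le_top
  · have h4 : p ⊓ relB f (natN m) (ordN B a) = ⊥ := by
      by_contra hc
      exact hag (hg a (Set.mem_iUnion.2 ⟨m, hc⟩))
    have h5 : s ≤ p ⊓ relB f (natN m) (ordN B a) :=
      le_inf ((hs.trans hr).trans hq)
        (relB_congr (hs.trans hm) ha ((hs.trans hr).trans (hz.trans inf_le_right)))
    rw [h4] at h5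
    exact h5.trans bot_le

/-! ### Finite sets -/

/-- The name of a finite subset of `W`. -/
noncomputable def finN (B : Type) [CompleteBooleanAlgebra B] {W : Type} [LinearOrder W]
    [WellFoundedLT W] (F : Finset W) : BName B :=
  BName.mk {i : W // i ∈ F} (fun i => ordN B i.1) (fun _ => ⊤)

theorem memB_finN (t : BName B) (F : Finset W) :
    memB t (finN B F) = ⨆ i : {i : W // i ∈ F}, eqB t (ordN B i.1) := by
  rw [finN, memB_mk]
  exact iSup_congr fun n => top_inf_eq _

theorem memB_finN_insert (t : BName B) (i : W) (F : Finset W) :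
    memB t (finN B (insert i F)) = memB t (finN B F) ⊔ eqB t (ordN B i) := by
  rw [memB_finN, memB_finN]
  apply le_antisymm
  · refine iSup_le fun j => ?_
    rcases Finset.mem_insert.1 j.2 with h | h
    · rw [h]
      exact le_sup_right
    · exact le_sup_of_le_left (le_iSup_of_le (⟨j.1, h⟩ : {i : W // i ∈ F}) le_rfl)
  · refine sup_le (iSup_le fun j => ?_) ?_
    · exact le_iSup_of_le (⟨j.1, Finset.mem_insert_of_mem j.2⟩ : {j : W // j ∈ insert i F}) le_rfl
    · exact le_iSup_of_le (⟨i, Finset.mem_insert_self i F⟩ : {j : W // j ∈ insert i F}) le_rfl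

theorem memB_finN_empty (t : BName B) : memB t (finN B (∅ : Finset W)) = ⊥ := by
  rw [memB_finN, eq_bot_iff]
  exact iSup_le fun j => absurd j.2 (Finset.notMem_empty _)

theorem kfinB_finN (F : Finset W) : kfinB (finN B F) (kapN B W) = ⊤ := by
  rw [eq_top_iff, kfinB]
  refine le_iInf fun s => himp_intro fun p _ hp => ?_
  have h1 := hp.trans inf_le_left
  have h2 := hp.trans inf_le_right
  induction F using Finset.induction_on with
  | empty =>
    refine himp_mp (iInf_mp h1 _) ?_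
    refine le_iInf fun z => compl_intro fun q _ hz => ?_
    rwa [memB_finN_empty, le_bot_iff] at hz
  | insert i F _ ih =>
    refine himp_mp (iInf_mp (iInf_mp (iInf_mp h2 (finN B F)) (ordN B i))
      (finN B (insert i F))) ?_
    refine le_inf (le_inf ih ?_) ?_
    · rw [ordN_mem_kapN]
      exact le_top
    · refine le_iInf fun z => ?_
      rw [iffB_eq_top (memB_finN_insert z i F)]
      exact le_top

/-! ### Pseudo-intersections -/

theorem piB_top (hPI : ∀ a : W → ℕ → B,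
      (∀ (F : Finset W) (m : ℕ), ⨆ n : ℕ, ⨆ (_ : m < n), ⨅ i : W, ⨅ (_ : i ∈ F), a i n = ⊤) →
      ∃ x : ℕ → B, (∀ m : ℕ, ⨆ n : ℕ, ⨆ (_ : m < n), x n = ⊤) ∧
        ∀ i : W, ⨆ m : ℕ, ⨅ n : ℕ, ⨅ (_ : m < n), (x n ⇨ a i n) = ⊤) :
    piB (kapN B W) omegaN = ⊤ := by
  rw [eq_top_iff, piB]
  refine le_iInf fun A => ?_
  set b : B := sfipB A (kapN B W) omegaN with hb
  have h1 : ∀ (F : Finset W) (m : ℕ),
      b ≤ ⨆ n : ℕ, ⨆ (_ : m < n), ⨅ i : W, ⨅ (_ : i ∈ F), relB A (ordN B i) (natN n) := by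
    intro F m
    have h2 : b ≤ ⨆ n : BName B, memB n omegaN ⊓ memB (natN m) n ⊓
        ⨅ i : BName B, memB i (finN B F) ⇨ relB A i n := by
      refine himp_mp (iInf_mp (iInf_mp hb.le (finN B F)) (natN m)) (le_inf ?_ ?_)
      · rw [kfinB_finN]
        exact le_top
      · rw [natN_mem_omegaN]
        exact le_top
    refine iSup_elim h2 fun n q _ hn => ?_
    have h3 : q ≤ memB n omegaN := hn.trans (inf_le_left.trans inf_le_left)
    rw [memB_omegaN] at h3
    refine iSup_elim h3 fun k r hr hk => ?_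
    have h4 : r ≤ memB (natN m) (natN k) :=
      memB_congr_right hk (hr.trans (hn.trans (inf_le_left.trans inf_le_right)))
    by_cases hmk : m < k
    · refine iSup_intro k (iSup_intro hmk (le_iInf fun i => le_iInf fun hi => ?_))
      have h5 : r ≤ memB (ordN B i) (finN B F) := by
        rw [memB_finN]
        exact iSup_intro (⟨i, hi⟩ : {i : W // i ∈ F}) (le_eqB_refl _ _)
      exact relB_congr (le_eqB_refl _ _) hk
        (himp_mp (iInf_mp (hr.trans (hn.trans inf_le_right)) (ordN B i)) h5)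
    · rw [memB_natN_not hmk] at h4
      exact h4.trans bot_le
  obtain ⟨x, hx1, hx2⟩ := hPI (fun i n => relB A (ordN B i) (natN n) ⊔ bᶜ) (by
    intro F m
    rw [eq_top_iff, ← sup_compl_eq_top (x := b)]
    refine sup_le ((h1 F m).trans ?_) ?_
    · exact iSup_mono fun n => iSup_mono fun _ => iInf_mono fun i => iInf_mono fun _ =>
        le_sup_left
    · exact iSup_intro (m + 1) (iSup_intro (Nat.lt_succ_self m)
        (le_iInf fun i => le_iInf fun _ => le_sup_right)))
  refine himp_intro fun p _ hp => ?_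
  refine iSup_intro (setN x) (le_inf (le_inf (subB_setN_omegaN _ _) ?_) ?_)
  · refine le_iInf fun m => himp_intro fun q _ hm => ?_
    rw [memB_omegaN] at hm
    refine iSup_elim hm fun k r _ hk => ?_
    have h2 : r ≤ ⨆ n : ℕ, ⨆ (_ : k < n), x n := by
      rw [hx1]
      exact le_top
    refine iSup_elim h2 fun n s hs hn => iSup_elim hn fun hkn t ht hxn => ?_
    refine iSup_intro (natN n) (le_inf ?_ ?_)
    · rw [memB_natN_setN]
      exact hxn
    · refine memB_congr_left (eqB.symm ((ht.trans hs).trans hk)) ?_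
      rw [memB_natN_lt hkn]
      exact le_top
  · refine le_iInf fun i => himp_intro fun q hq hi => ?_
    rw [memB_kapN] at hi
    refine iSup_elim hi fun v r hr hv => ?_
    have h2 : r ≤ ⨆ m : ℕ, ⨅ n : ℕ, ⨅ (_ : m < n),
        (x n ⇨ (relB A (ordN B v) (natN n) ⊔ bᶜ)) := by
      rw [hx2]
      exact le_top
    refine iSup_elim h2 fun m s hs hm => ?_
    refine iSup_intro (natN m) (le_inf ?_ ?_)
    · rw [natN_mem_omegaN]
      exact le_top
    refine le_iInf fun n => himp_intro fun t ht hn => ?_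
    have h3 : t ≤ memB n (setN x) := hn.trans inf_le_left
    rw [memB_setN] at h3
    refine iSup_elim h3 fun k u hu hk => ?_
    have h4 : u ≤ memB (natN m) (natN k) :=
      memB_congr_right (hk.trans inf_le_right) (hu.trans (hn.trans inf_le_right))
    by_cases hmk : m < k
    · have h5 : u ≤ relB A (ordN B v) (natN k) ⊔ bᶜ :=
        himp_mp (((hu.trans ht).trans hm).trans ((iInf_le _ k).trans (iInf_le _ hmk)))
          (hk.trans inf_le_left)
      have hub : u ≤ b := ((((hu.trans ht).trans hs).trans hr).trans hq).trans hp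
      have h6 : u ≤ relB A (ordN B v) (natN k) :=
        sup_elim h5 (fun _ _ h => h) fun c hc h => compl_mp h (hc.trans hub)
      exact relB_congr (eqB.symm (((hu.trans ht).trans hs).trans hv))
        (eqB.symm (hk.trans inf_le_right)) h6
    · rw [memB_natN_not hmk] at h4
      exact h4.trans bot_le

/-! ### Codes -/

/-- The relation with the sections `c j`. -/
noncomputable def secN (B : Type) [CompleteBooleanAlgebra B] {W : Type} [LinearOrder W]
    [WellFoundedLT W] (c : W → Finset W) : BName B :=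
  graphN (fun p : {p : W × W // p.2 ∈ c p.1} => ordN B p.1.1) (fun p => ordN B p.1.2)

theorem relB_secN (c : W → Finset W) (j : W) (x : BName B) :
    relB (secN B c) (ordN B j) x = memB x (finN B (c j)) := by
  rw [secN, relB_graphN, memB_finN]
  apply le_antisymm
  · refine iSup_le fun p => ?_
    by_cases h : j = p.1.1
    · subst h
      exact inf_le_right.trans
        (le_iSup_of_le (⟨p.1.2, p.2⟩ : {i : W // i ∈ c p.1.1}) le_rfl)
    · rw [eqB_ordN_ne h, bot_inf_eq]
      exact bot_le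
  · refine iSup_le fun i => ?_
    exact iSup_intro (⟨(j, i.1), i.2⟩ : {p : W × W // p.2 ∈ c p.1})
      (le_inf (le_eqB_refl _ _) le_rfl)

theorem code0B_top {c d : W → Finset W} {j : W} (hc : c j = ∅) (hd : d j = ∅) :
    code0B (kapN B W) (secN B c) (secN B d) = ⊤ := by
  rw [eq_top_iff, code0B]
  refine iSup_intro (ordN B j) (le_inf ?_ (le_iInf fun i => le_inf ?_ ?_))
  · rw [ordN_mem_kapN]
  · rw [relB_secN, hc, memB_finN_empty, compl_bot]
  · rw [relB_secN, hd, memB_finN_empty, compl_bot]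

theorem codeB_top {c d : W → Finset W}
    (h : ∀ j i, ∃ k, c k = insert i (c j) ∧ d k = d j) :
    codeB (kapN B W) (secN B c) (secN B d) = ⊤ := by
  rw [eq_top_iff, codeB]
  refine le_iInf fun j => le_iInf fun i => himp_intro fun p _ hp => ?_
  have h1 := hp.trans inf_le_left
  have h2 := hp.trans inf_le_right
  rw [memB_kapN] at h1 h2
  refine iSup_elim h1 fun v q hq hv => iSup_elim (hq.trans h2) fun u r hr hu => ?_
  obtain ⟨k, hk1, hk2⟩ := h v u
  refine iSup_intro (ordN B k) (le_inf ?_ (le_iInf fun x => ?_))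
  · rw [ordN_mem_kapN]
    exact le_top
  rw [relB_secN, relB_secN, hk1, hk2, memB_finN_insert]
  have hj : ∀ (e : W → Finset W) (s : B), s ≤ r →
      (s ≤ relB (secN B e) j x ↔ s ≤ memB x (finN B (e v))) := by
    intro e s hs
    rw [← relB_secN]
    exact ⟨relB_congr ((hs.trans hr).trans hv) (le_eqB_refl _ _),
      relB_congr (eqB.symm ((hs.trans hr).trans hv)) (le_eqB_refl _ _)⟩
  refine le_inf (iffB_intro (fun s hs h => ?_) (fun s hs h => ?_))
    (iffB_intro (fun s hs h => (hj d s hs).2 h) (fun s hs h => (hj d s hs).1 h))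
  · refine sup_elim h (fun t ht h => ?_) (fun t ht h => ?_)
    · exact ((hj c t (ht.trans hs)).2 h).trans le_sup_left
    · exact (eqB.trans h (eqB.symm ((ht.trans hs).trans hu))).trans le_sup_right
  · refine sup_elim h (fun t ht h => ?_) (fun t ht h => ?_)
    · exact ((hj c t (ht.trans hs)).1 h).trans le_sup_left
    · exact (eqB.trans h ((ht.trans hs).trans hu)).trans le_sup_right

end

end GoodM

open GoodM in
theorem goodStmt : GoodStmt := by
  classical
  intro hPI
  obtain ⟨B, _, hB, hccc, hpi⟩ := hPI W1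
  obtain ⟨M, _, hM, hval⟩ := modelStmt B hB
  refine ⟨M, _, hM, ?_⟩
  obtain ⟨e, -⟩ := hM.infinity
  refine good_of_sat hM.toModelZF (fun _ => e) (hval fGood (fun v => ?_) _)
  obtain ⟨c⟩ : Nonempty (W1 ≃ Finset W1 × Finset W1) := by
    have h1 : Infinite W1 := inferInstance
    rw [← Cardinal.eq, Cardinal.mk_prod, Cardinal.mk_finset_of_infinite]
    simp
  rw [val_fGood, eq_top_iff, goodB]
  refine iSup_intro omegaN (iSup_intro (kapN B W1) (iSup_intro (secN B fun j => (c j).1)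
    (iSup_intro (secN B fun j => (c j).2) ?_)))
  refine le_inf (le_inf (le_inf (le_inf (le_inf (le_inf (le_inf ?_ ?_) ?_) ?_) ?_) ?_) ?_) ?_
  · rw [isOmegaB_eq]
    exact le_eqB_refl _ _
  · exact Card.isOrdB_kapN _
  · rw [enumB_top W1_Iio]
  · rw [bddB_top W1_Iio hccc]
  · rw [piB_top hpi]
  · rw [code0B_top (j := c.symm (∅, ∅))]
    · rw [c.apply_symm_apply]
    · rw [c.apply_symm_apply]
  · rw [codeB_top fun j i => ⟨c.symm (insert i (c j).1, (c j).2), ?_, ?_⟩]
    · rw [c.apply_symm_apply]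
    · rw [c.apply_symm_apply]
  · rw [codeB_top fun j i => ⟨c.symm ((c j).1, insert i (c j).2), ?_, ?_⟩]
    · rw [c.apply_symm_apply]
    · rw [c.apply_symm_apply]

end Pool.Agent.Lib.MP_6b4821_lc
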