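import Pool.Agent.Lib.MP_6b4821_lc.PiForce

/-!
# The algebra: countable chain condition and pseudo-intersections
-/

set_option autoImplicit false

namespace Pool.Agent.Lib.MP_6b4821_lc

open Pool.Agent.Lib.SymModel

namespace PF

/-! ### countable chain condition -/

theorem countable_conflict {I V T : Type} [Countable V] (n : ℕ) :
    ∀ (A : Set T) (dom : T → Set I) (val : T → I → V),
      (∀ t ∈ A, (dom t).Finite ∧ (dom t).ncard ≤ n) →
      (∀ t ∈ A, ∀ t' ∈ A, t ≠ t' → ∃ i, i ∈ dom t ∧ i ∈ dom t' ∧ val t i ≠ val t' i) →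
      A.Countable := by
  classical
  induction n with
  | zero =>
    intro A dom val h1 h2
    refine Set.Subsingleton.countable fun t ht t' ht' => ?_
    by_contra hne
    obtain ⟨i, hi, -, -⟩ := h2 t ht t' ht' hne
    have h3 := (h1 t ht).2
    have h4 : (dom t).ncard = 0 := by omega
    rw [Set.ncard_eq_zero (h1 t ht).1] at h4
    rw [h4] at hi
    exact hi
  | succ n ih =>
    intro A dom val h1 h2
    rcases A.eq_empty_or_nonempty with rfl | ⟨t₀, ht₀⟩
    · exact Set.countable_empty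
    have hsub : A ⊆ {t₀} ∪ ⋃ i ∈ dom t₀, ⋃ v : V, {t | t ∈ A ∧ i ∈ dom t ∧ val t i = v} := by
      intro t ht
      by_cases hne : t = t₀
      · exact Or.inl hne
      · obtain ⟨i, hi, hi', -⟩ := h2 t₀ ht₀ t ht (Ne.symm hne)
        exact Or.inr (Set.mem_iUnion₂.2 ⟨i, hi, Set.mem_iUnion.2 ⟨val t i, ht, hi', rfl⟩⟩)
    refine Set.Countable.mono hsub ?_
    refine (Set.countable_singleton _).union ?_
    refine Set.Countable.biUnion (h1 t₀ ht₀).1.countable fun i _ => ?_
    refine Set.countable_iUnion fun v => ?_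
    refine ih _ (fun t => dom t \ {i}) val ?_ ?_
    · rintro t ⟨ht, hit, -⟩
      refine ⟨(h1 t ht).1.subset Set.sdiff_subset, ?_⟩
      have := Set.ncard_sdiff_singleton_lt_of_mem hit (h1 t ht).1
      have := (h1 t ht).2
      omega
    · rintro t ⟨ht, hit, hv⟩ t' ⟨ht', hit', hv'⟩ hne
      obtain ⟨j, hj, hj', hval⟩ := h2 t ht t' ht' hne
      have hji : j ≠ i := by
        rintro rfl
        exact hval (hv.trans hv'.symm)
      exact ⟨j, ⟨hj, hji⟩, ⟨hj', hji⟩, hval⟩

variable {W : Type}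

/-- The support. -/
def supp (p : Cd W) : Set (Ix W) := {i | p.s i ≠ ∅ ∨ p.F i ≠ ∅}

open Classical in
/-- The union of two conditions. -/
noncomputable def join (p q : Cd W) : Cd W where
  s i := p.s i ∪ q.s i
  F i := p.F i ∪ q.F i
  fin := by
    refine (p.fin.union q.fin).subset ?_
    intro i hi
    by_contra hcon
    simp only [Set.mem_union, Set.mem_ofPred_eq, not_or, not_not] at hcon
    obtain ⟨⟨h1, h2⟩, h3, h4⟩ := hcon
    simp [h1, h2, h3, h4] at hi

theorem join_le {p q : Cd W} (h : ∀ i, i ∈ supp p → i ∈ supp q → p.s i = q.s i) :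
    join p q ≤ p ∧ join p q ≤ q := by
  classical
  have key : ∀ i, i ∉ supp p → p.s i = ∅ ∧ p.F i = ∅ := by
    intro i hi
    simpa [supp, not_or] using hi
  have key' : ∀ i, i ∉ supp q → q.s i = ∅ ∧ q.F i = ∅ := by
    intro i hi
    simpa [supp, not_or] using hi
  constructor
  · rw [le_iff]
    intro i
    refine ⟨Finset.subset_union_left, Finset.subset_union_left, ?_⟩
    intro n hn hnp ξ hξ
    exfalso
    by_cases h1 : i ∈ supp p
    · by_cases h2 : i ∈ supp q
      · have : n ∈ p.s i ∪ q.s i := hn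
        rw [← h i h1 h2, Finset.union_self] at this
        exact hnp this
      · have : n ∈ p.s i ∪ q.s i := hn
        rw [(key' i h2).1, Finset.union_empty] at this
        exact hnp this
    · rw [(key i h1).2] at hξ
      exact Finset.notMem_empty _ hξ
  · rw [le_iff]
    intro i
    refine ⟨Finset.subset_union_right, Finset.subset_union_right, ?_⟩
    intro n hn hnp ξ hξ
    exfalso
    by_cases h1 : i ∈ supp q
    · by_cases h2 : i ∈ supp p
      · have : n ∈ p.s i ∪ q.s i := hn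
        rw [h i h2 h1, Finset.union_self] at this
        exact hnp this
      · have : n ∈ p.s i ∪ q.s i := hn
        rw [(key i h2).1, Finset.empty_union] at this
        exact hnp this
    · rw [(key' i h1).2] at hξ
      exact Finset.notMem_empty _ hξ

theorem ccc_antichain (A : Set (Cd W))
    (hA : ∀ p ∈ A, ∀ q ∈ A, p ≠ q → ¬ ∃ r, r ≤ p ∧ r ≤ q) : A.Countable := by
  have hsub : A ⊆ ⋃ n : ℕ, {p | p ∈ A ∧ (supp p).ncard ≤ n} := fun p hp =>
    Set.mem_iUnion.2 ⟨_, hp, le_rfl⟩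
  refine Set.Countable.mono hsub (Set.countable_iUnion fun n => ?_)
  refine countable_conflict n _ supp (fun p => p.s) (fun p hp => ⟨p.fin, hp.2⟩) ?_
  rintro p ⟨hp, -⟩ q ⟨hq, -⟩ hne
  by_contra hcon
  push Not at hcon
  exact hA p hp q hq hne ⟨_, join_le hcon⟩

theorem ccc_ro (ι : Type) (f : ι → RO (Cd W)) (hf : ∀ i j, i ≠ j → f i ⊓ f j = ⊥) :
    {i | f i ≠ ⊥}.Countable := by
  classical
  have h1 : ∀ i : {i | f i ≠ ⊥}, ∃ p, p ∈ f i := fun i => RO.ne_bot_iff.1 i.2
  choose g hg using h1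
  have hinj : Function.Injective g := by
    intro i j hij
    by_contra hne
    have hne' : (i : ι) ≠ j := fun h => hne (Subtype.ext h)
    have : g i ∈ f i ⊓ f j := RO.mem_inf.2 ⟨hg i, hij ▸ hg j⟩
    rw [hf _ _ hne'] at this
    exact RO.notMem_bot _ this
  have h2 : (Set.range g).Countable := by
    refine ccc_antichain _ ?_
    rintro _ ⟨i, rfl⟩ _ ⟨j, rfl⟩ hne ⟨r, hri, hrj⟩
    have hne' : (i : ι) ≠ j := fun h => hne (by rw [Subtype.ext h])
    have : r ∈ f i ⊓ f j := RO.mem_inf.2 ⟨(f i).down (hg i) hri, (f j).down (hg j) hrj⟩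
    rw [hf _ _ hne'] at this
    exact RO.notMem_bot _ this
  have h3 : Countable {i | f i ≠ ⊥} := by
    have := h2.to_subtype
    exact (Set.rangeFactorization_injective.2 hinj).countable
  exact Set.countable_coe_iff.1 h3

/-! ### countable names -/

theorem exists_countable_dense (U : RO (Cd W)) :
    ∃ C : Set (Cd W), C.Countable ∧ ∀ p, p ∈ U ↔ ∀ q ≤ p, ∃ r ≤ q, ∃ c ∈ C, r ≤ c := by
  obtain ⟨C, hC⟩ := zorn_subset
    {A : Set (Cd W) | (∀ p ∈ A, p ∈ U) ∧ ∀ p ∈ A, ∀ q ∈ A, p ≠ q → ¬ ∃ r, r ≤ p ∧ r ≤ q} (by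
      intro c hc hchain
      refine ⟨⋃₀ c, ⟨?_, ?_⟩, fun s hs => Set.subset_sUnion_of_mem hs⟩
      · rintro p ⟨s, hs, hp⟩
        exact (hc hs).1 p hp
      · rintro p ⟨s, hs, hp⟩ q ⟨s', hs', hq⟩ hne
        rcases hchain.total hs hs' with h | h
        · exact (hc hs').2 p (h hp) q hq hne
        · exact (hc hs).2 p hp q (h hq) hne)
  refine ⟨C, ccc_antichain C hC.prop.2, fun p => ⟨fun hp q hq => ?_, fun h => ?_⟩⟩
  · have hqU : q ∈ U := U.down hp hq
    by_contra hcon
    push Not at hcon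
    have hmem : q ∈ C := by
      have hle := hC.le_of_ge (y := insert q C) ⟨?_, ?_⟩ (Set.subset_insert _ _)
      · exact hle (Set.mem_insert _ _)
      · rintro r (rfl | hr)
        · exact hqU
        · exact hC.prop.1 r hr
      · rintro r (rfl | hr) r' (rfl | hr') hne
        · exact absurd rfl hne
        · rintro ⟨t, h1, h2⟩
          exact hcon t h1 r' hr' h2
        · rintro ⟨t, h1, h2⟩
          exact hcon t h2 r hr h1
        · exact hC.prop.2 r hr r' hr' hne
    exact hcon q le_rfl q hmem le_rfl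
  · refine U.mem_of_dense fun q hq => ?_
    obtain ⟨r, hr, c, hc, hrc⟩ := h q hq
    exact ⟨r, hr, U.down (hC.prop.1 c hc) hrc⟩

/-- Every condition is coded by a list. -/
theorem exists_cdOf (p : Cd W) : ∃ (l : ℕ) (d : ℕ → Finset ℕ × Finset W) (c : ℕ → Ix W),
    ∀ j, (cdOf (l + 1) d c).s j = p.s j ∧ (cdOf (l + 1) d c).F j = p.F j := by
  classical
  let L := p.fin.toFinset.toList
  have hmem : ∀ x, x ∈ L ↔ x ∈ supp p := by
    intro x
    rw [Finset.mem_toList, Set.Finite.mem_toFinset]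
    rfl
  refine ⟨L.length, fun j => (p.s (L.getD j .base), p.F (L.getD j .base)),
    fun j => L.getD j .base, fun x => ⟨?_, ?_⟩⟩
  · ext n
    simp only [cdOf, Finset.mem_biUnion, Finset.mem_filter, Finset.mem_range]
    constructor
    · rintro ⟨j, ⟨-, rfl⟩, hn⟩
      exact hn
    · intro hn
      have hx : x ∈ L := (hmem x).2 (Or.inl fun h => by rw [h] at hn; exact Finset.notMem_empty _ hn)
      obtain ⟨j, hj, rfl⟩ := List.getElem_of_mem hx
      refine ⟨j, ⟨by omega, ?_⟩, ?_⟩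
      · rw [List.getD_eq_getElem _ _ hj]
      · rwa [List.getD_eq_getElem _ _ hj]
  · ext n
    simp only [cdOf, Finset.mem_biUnion, Finset.mem_filter, Finset.mem_range]
    constructor
    · rintro ⟨j, ⟨-, rfl⟩, hn⟩
      exact hn
    · intro hn
      have hx : x ∈ L := (hmem x).2 (Or.inr fun h => by rw [h] at hn; exact Finset.notMem_empty _ hn)
      obtain ⟨j, hj, rfl⟩ := List.getElem_of_mem hx
      refine ⟨j, ⟨by omega, ?_⟩, ?_⟩
      · rw [List.getD_eq_getElem _ _ hj]
      · rwa [List.getD_eq_getElem _ _ hj]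

theorem le_congr {r c c' : Cd W} (h : ∀ j, c'.s j = c.s j ∧ c'.F j = c.F j) (hr : r ≤ c) :
    r ≤ c' := by
  rw [le_iff] at hr ⊢
  intro j
  exact cl_congr (hr j) ⟨rfl, rfl⟩ (h j) fun _ _ h => h

/-- Every family has an index. -/
theorem exists_index (a : W → ℕ → RO (Cd W)) :
    ∃ i : Ix W, ∀ (p : Cd W) (n : ℕ) (ξ : W), Ok i p n ξ ↔ p ∈ a ξ n := by
  classical
  have h1 : ∀ (ξ : W) (n : ℕ), ∃ (len : ℕ → ℕ) (dat : ℕ → ℕ → Finset ℕ × Finset W)
      (ch : ℕ → ℕ → Ix W), ∀ p, p ∈ a ξ n ↔ ∀ q ≤ p, ∃ k, 0 < len k ∧ ∃ r ≤ q,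
        r ≤ cdOf (len k) (dat k) (ch k) := by
    intro ξ n
    obtain ⟨C, hC, hCU⟩ := exists_countable_dense (a ξ n)
    rcases C.eq_empty_or_nonempty with rfl | hne
    · refine ⟨fun _ => 0, fun _ _ => (∅, ∅), fun _ _ => .base, fun p => ?_⟩
      rw [hCU]
      constructor
      · intro h q hq
        obtain ⟨r, -, c, hc, -⟩ := h q hq
        exact hc.elim
      · intro h q hq
        obtain ⟨k, hk, -⟩ := h q hq
        exact absurd hk (lt_irrefl _)
    · obtain ⟨c, rfl⟩ := hC.exists_eq_range hne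
      choose l d ch h using fun k => exists_cdOf (c k)
      refine ⟨fun k => l k + 1, d, ch, fun p => ?_⟩
      rw [hCU]
      refine forall₂_congr fun q hq => ?_
      constructor
      · rintro ⟨r, hr, _, ⟨k, rfl⟩, hrc⟩
        exact ⟨k, Nat.succ_pos _, r, hr, le_congr (h k) hrc⟩
      · rintro ⟨k, -, r, hr, hrc⟩
        exact ⟨r, hr, c k, ⟨k, rfl⟩, le_congr (fun j => ⟨(h k j).1.symm, (h k j).2.symm⟩) hrc⟩
  choose len dat ch h using h1
  refine ⟨.mk len dat ch, fun p n ξ => ?_⟩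
  rw [ok_iff', h]
  rfl

/-! ### the pseudo-intersection -/

open Classical in
/-- `q` below the rank of `i`, `n` added to the finite set at `i`, `p` elsewhere. -/
noncomputable def addN (i : Ix W) (q p : Cd W) (n : ℕ) : Cd W where
  s j := if Low j i then q.s j else if j = i then insert n (p.s j) else p.s j
  F j := if Low j i then q.F j else p.F j
  fin := by
    refine ((q.fin.union p.fin).union (Set.finite_singleton i)).subset ?_
    intro j hj
    by_cases h : Low j i
    · simp only [Set.mem_ofPred_eq, if_pos h] at hj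
      exact Or.inl (Or.inl hj)
    · by_cases h' : j = i
      · exact Or.inr h'
      · simp only [Set.mem_ofPred_eq, if_neg h, if_neg h'] at hj
        exact Or.inl (Or.inr hj)

theorem addN_le {i : Ix W} {q p : Cd W} {n : ℕ} (h : q ≤ p) (hn : ∀ ξ ∈ p.F i, Ok i q n ξ) :
    addN i q p n ≤ p := by
  classical
  rw [le_iff] at h ⊢
  have hlow : ∀ {j : Ix W}, Low j i → (addN i q p n).s j = q.s j ∧ (addN i q p n).F j = q.F j := by
    intro j hj
    simp [addN, hj]
  intro j
  by_cases hj : Low j i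
  · exact cl_congr (h j) (hlow hj) ⟨rfl, rfl⟩ fun m ξ h' =>
      (ok_congr fun k hk => hlow (hk.trans hj)).2 h'
  · by_cases hji : j = i
    · subst hji
      have e1 : (addN j q p n).s j = insert n (p.s j) := by simp [addN, hj]
      have e2 : (addN j q p n).F j = p.F j := by simp [addN, hj]
      refine ⟨?_, ?_, ?_⟩
      · rw [e1]; exact Finset.subset_insert _ _
      · rw [e2]
      · intro m hm hm' ξ hξ
        rw [e1, Finset.mem_insert] at hm
        rcases hm with rfl | hm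
        · exact (ok_congr fun k hk => hlow hk).2 (hn ξ hξ)
        · exact absurd hm hm'
    · have e1 : (addN i q p n).s j = p.s j := by simp [addN, hj, hji]
      have e2 : (addN i q p n).F j = p.F j := by simp [addN, hj]
      refine ⟨?_, ?_, ?_⟩
      · rw [e1]
      · rw [e2]
      · intro m hm hm'
        rw [e1] at hm
        exact absurd hm hm'

open Classical in
/-- Add `ξ` to the promise at `i`. -/
noncomputable def addF (i : Ix W) (p : Cd W) (ξ : W) : Cd W where
  s j := p.s j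
  F j := if j = i then insert ξ (p.F j) else p.F j
  fin := by
    refine (p.fin.union (Set.finite_singleton i)).subset ?_
    intro j hj
    by_cases h' : j = i
    · exact Or.inr h'
    · simp only [Set.mem_ofPred_eq, if_neg h'] at hj
      exact Or.inl hj

theorem addF_le (i : Ix W) (p : Cd W) (ξ : W) : addF i p ξ ≤ p := by
  classical
  rw [le_iff]
  intro j
  refine ⟨Finset.Subset.refl _, ?_, fun m hm hm' => absurd hm hm'⟩
  by_cases h : j = i
  · show p.F j ⊆ if j = i then insert ξ (p.F j) else p.F j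
    rw [if_pos h]; exact Finset.subset_insert _ _
  · show p.F j ⊆ if j = i then insert ξ (p.F j) else p.F j
    rw [if_neg h]

theorem mem_addF (i : Ix W) (p : Cd W) (ξ : W) : ξ ∈ (addF i p ξ).F i := by
  classical
  show ξ ∈ if i = i then insert ξ (p.F i) else p.F i
  rw [if_pos rfl]; exact Finset.mem_insert_self _ _

/-- The Boolean value of `n ∈ X_i`. -/
def gen (i : Ix W) (n : ℕ) : RO (Cd W) :=
  RO.mkOf {p | n ∈ p.s i} fun _ hp _ hq => (le_iff.1 hq i).1 hp

theorem eq_top_iff' {U : RO (Cd W)} : U = ⊤ ↔ ∀ p, p ∈ U :=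
  ⟨fun h p => h ▸ RO.mem_top p, fun h => le_antisymm le_top fun p _ => h p⟩

theorem exists_pseudo (a : W → ℕ → RO (Cd W))
    (ha : ∀ (F : Finset W) (m : ℕ), ⨆ n : ℕ, ⨆ (_ : m < n), ⨅ i : W, ⨅ (_ : i ∈ F), a i n = ⊤) :
    ∃ x : ℕ → RO (Cd W), (∀ m : ℕ, ⨆ n : ℕ, ⨆ (_ : m < n), x n = ⊤) ∧
      ∀ i : W, ⨆ m : ℕ, ⨅ n : ℕ, ⨅ (_ : m < n), (x n ⇨ a i n) = ⊤ := by
  classical
  obtain ⟨i, hi⟩ := exists_index a
  refine ⟨gen i, fun m => ?_, fun ξ => ?_⟩
  · rw [eq_top_iff']
    intro p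
    rw [RO.mem_iSup]
    intro p' _
    have h1 : p' ∈ ⨆ n : ℕ, ⨆ (_ : max m ((p'.s i).sup id) < n),
        ⨅ j : W, ⨅ (_ : j ∈ p'.F i), a j n := (eq_top_iff'.1 (ha _ _)) p'
    rw [RO.mem_iSup] at h1
    obtain ⟨q, hq, n, h2⟩ := h1 p' le_rfl
    rw [RO.mem_iSup] at h2
    obtain ⟨q', hq', hn, h3⟩ := h2 q le_rfl
    have h4 : ∀ ξ ∈ p'.F i, Ok i q' n ξ := fun ξ hξ => by
      rw [hi]
      exact RO.mem_iInf.1 (RO.mem_iInf.1 h3 ξ) hξ
    refine ⟨addN i q' p' n, addN_le (hq'.trans hq) h4, n, ?_⟩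
    rw [RO.mem_iSup]
    intro r hr
    refine ⟨r, le_rfl, lt_of_le_of_lt (le_max_left _ _) hn, ?_⟩
    refine (gen i n).down ?_ hr
    refine RO.mem_mkOf.2 fun r' hr' => ⟨r', le_rfl, ?_⟩
    refine (le_iff.1 hr' i).1 ?_
    show n ∈ if Low i i then q'.s i else if i = i then insert n (p'.s i) else p'.s i
    rw [if_neg (not_low_self i), if_pos rfl]
    exact Finset.mem_insert_self _ _
  · rw [eq_top_iff']
    intro p
    rw [RO.mem_iSup]
    intro p' _
    refine ⟨addF i p' ξ, addF_le _ _ _, (p'.s i).sup id, ?_⟩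
    rw [RO.mem_iInf]
    intro n
    rw [RO.mem_iInf]
    intro hn
    rw [RO.mem_himp]
    intro q hq hqx
    refine (a ξ n).mem_of_dense fun q' hq' => ?_
    obtain ⟨r, hr, hnr⟩ := RO.mem_mkOf.1 hqx q' hq'
    refine ⟨r, hr, ?_⟩
    rw [← hi]
    refine (le_iff.1 ((hr.trans hq').trans hq) i).2.2 n hnr ?_ ξ (mem_addF _ _ _)
    intro hmem
    have : n ≤ (p'.s i).sup id := Finset.le_sup (f := id) (show n ∈ p'.s i from hmem)
    omega

end PF

theorem piAlg : PIAlg := fun W =>
  ⟨RO (Cd W), inferInstance, by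
    intro h
    have hp : (⟨fun _ => ∅, fun _ => ∅, by simp⟩ : Cd W) ∈ (⊤ : RO (Cd W)) := RO.mem_top _
    rw [← h] at hp
    exact RO.notMem_bot _ hp, PF.ccc_ro, PF.exists_pseudo⟩

end Pool.Agent.Lib.MP_6b4821_lc
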