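import Pool.Agent.Lib.MP_6b4821_lc.IAsm
import Pool.Agent.Lib.MP_6b4821_lc.PiAlg
import Pool.Agent.Lib.MP_6b4821_lc.GoodM

/-!
# MP_6b4821_lc: the negated form of the question holds in a model of ZFC
-/

set_option autoImplicit false

namespace Pool.Agent.Lib.MP_6b4821_lc

open Pool.Agent.MP_5db68c_lc Pool.Agent.StarRoth.BV

theorem negation_consistent : ∃ (M : Type) (_ : Membership M M), ModelZFC M ∧
    ∃ G : TopGroupIn M, (∀ x y : El G.carrier, x * y = y * x) ∧ IsCompactIn G.carrier G.top ∧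
      ¬ Metrizable G.carrier G.top ∧ (∀ b : M, IsBaseIn G.top b → ¬ CountableIn b) ∧
      ∀ D : TopGroupIn M, IsSubgroupIn G D → IsCtblyCompactIn D.carrier D.top →
        ProjWCompactIn D := by
  obtain ⟨M, _, hM, w, κ, R₀, R₁, hg⟩ := goodStmt piAlg
  have : IsZFC M := ⟨hM⟩
  exact ⟨M, _, hM, internal_main hg⟩

end Pool.Agent.Lib.MP_6b4821_lc
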