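import Pool.Agent.Lib.MP_6b4821_lc.ISetup

/-!
# MP_6b4821_lc: choice functions for definable relations
-/

set_option autoImplicit false
set_option synthInstance.maxSize 100000
set_option synthInstance.maxHeartbeats 400000

namespace Pool.Agent.Lib.MP_6b4821_lc

open Pool.Agent.MP_5db68c_lc Pool.Agent.StarRoth.BV
open Pool.Agent.Lib.MP_5ed4ef_gt (IsSubspace)

variable {M : Type} [Membership M M] [hM : IsZFC M]

theorem exists_choice {Γ Δ : Type} [Coded M Γ] [SetCoded M Γ] [Coded M Δ] [SetCoded M Δ]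
    (R : Γ → Δ → Prop) (hR : DP M (fun p : Γ × Δ => R p.1 p.2)) (h : ∀ x, ∃ y, R x y) :
    ∃ f : Γ → Δ, DF M f ∧ ∀ x, R x (f x) := by
  have hR' := @DP.lift₂ _ _ _ _ _ _ _ R hR
  obtain ⟨S0, hS0⟩ := exists_subset (M := M) (Γ := Γ × Δ) (fun _ => True) inferInstance
  obtain ⟨Q, hQ⟩ := (IsZF.zf (M := M)).powerset S0
  obtain ⟨S, hS⟩ := exists_el_subset (a := Q) (fun V : El Q => ∃ x : Γ, ∀ p : M, p ∈ V.1 ↔
    ∃ y : Δ, p = (Coded.code (x, y) : M) ∧ R x y) inferInstance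
  obtain ⟨c, hc⟩ := hM.zfc.choice S (by
    intro V hV
    obtain ⟨_, x, hx⟩ := (hS V).1 hV
    obtain ⟨y, hy⟩ := h x
    exact ⟨_, (hx _).2 ⟨y, rfl, hy⟩⟩) (by
    rintro V V' hV hV' ⟨z, hz, hz'⟩
    obtain ⟨_, x, hx⟩ := (hS V).1 hV
    obtain ⟨_, x', hx'⟩ := (hS V').1 hV'
    obtain ⟨y, hy, _⟩ := (hx z).1 hz
    obtain ⟨y', hy', _⟩ := (hx' z).1 hz'
    have h1 : (x, y) = (x', y') := Coded.inj (M := M) (hy.symm.trans hy')
    have h2 : x = x' := congrArg Prod.fst h1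
    subst h2
    exact ext' fun p => (hx p).trans (hx' p).symm)
  have key : ∀ x : Γ, ∃! y : Δ, R x y ∧ (Coded.code (x, y) : M) ∈ c := by
    intro x
    obtain ⟨V, hV⟩ := exists_subset (M := M) (Γ := Γ × Δ) (fun p => p.1 = x ∧ R p.1 p.2)
      inferInstance
    have hV' : ∀ p : M, p ∈ V ↔ ∃ y : Δ, p = (Coded.code (x, y) : M) ∧ R x y := by
      intro p
      rw [hV]
      constructor
      · rintro ⟨⟨x', y⟩, h1, h2, h3⟩
        simp only at h2 h3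
        subst h2
        exact ⟨y, h1.symm, h3⟩
      · rintro ⟨y, h1, h2⟩
        exact ⟨(x, y), h1.symm, rfl, h2⟩
    have hVS : V ∈ S := by
      refine (hS V).2 ⟨(hQ V).2 fun p hp => ?_, x, hV'⟩
      obtain ⟨y, hy, _⟩ := (hV' p).1 hp
      exact (hS0 p).2 ⟨(x, y), hy.symm, trivial⟩
    obtain ⟨p, ⟨hp1, hp2⟩, hp3⟩ := hc V hVS
    obtain ⟨y, hy, hRy⟩ := (hV' p).1 hp2
    refine ⟨y, ⟨hRy, by rw [← hy]; exact hp1⟩, ?_⟩
    rintro y' ⟨h1, h2⟩
    have h3 := hp3 (Coded.code (x, y') : M) ⟨h2, (hV' _).2 ⟨y', rfl, h1⟩⟩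
    have h4 : (x, y') = (x, y) := Coded.inj (M := M) (h3.trans hy)
    exact congrArg Prod.snd h4
  choose f hf hu using key
  refine ⟨f, DF.of_rel (M := M) (R := fun x y => R x y ∧ (Coded.code (x, y) : M) ∈ c)
    inferInstance hf ?_, fun x => (hf x).1⟩
  intro x y y' h1 h2
  rw [hu x y h1, hu x y' h2]

end Pool.Agent.Lib.MP_6b4821_lc
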