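import Pool.Agent.Lib.MP_6b4821_lc.IFin

/-!
# MP_6b4821_lc: countable sets
-/

set_option autoImplicit false
set_option synthInstance.maxSize 100000
set_option synthInstance.maxHeartbeats 400000

namespace Pool.Agent.Lib.MP_6b4821_lc

open Pool.Agent.MP_5db68c_lc Pool.Agent.StarRoth.BV
open Pool.Agent.Lib.MP_5ed4ef_gt (IsSubspace)

variable {M : Type} [Membership M M] [hM : IsZF M]

variable {κ R₀ R₁ a b : M}

theorem Enu.countable (h : Enu a) : CountableIn a := by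
  obtain ⟨R, hR, hfun, hs⟩ := h
  have hR' := @DP.lift₂ _ _ _ _ _ _ _ R hR
  have hex : ∀ x : El a, ∃ n : N M, R n x ∧ ∀ m : N M, R m x → n = m ∨ n.1 ∈ m.1 := by
    intro x
    exact ordl_om.exists_least (fun n : N M => R n x) inferInstance (hs x)
  choose f hf using hex
  have hu : ∀ (x : El a) (n m : N M), (R n x ∧ ∀ k : N M, R k x → n = k ∨ n.1 ∈ k.1) →
      (R m x ∧ ∀ k : N M, R k x → m = k ∨ m.1 ∈ k.1) → n = m := by
    intro x n m hn hm
    rcases hn.2 m hm.1 with h | h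
    · exact h
    · rcases hm.2 n hn.1 with h' | h'
      · exact h'.symm
      · exact (N.no_cycle _ _ h h').elim
  have hDF : DF M f := by
    refine DF.of_rel (M := M)
      (R := fun (x : El a) (n : N M) => R n x ∧ ∀ k : N M, R k x → n = k ∨ n.1 ∈ k.1)
      inferInstance hf hu
  obtain ⟨s, hsx⟩ := exists_el_subset (a := om M)
    (fun n : N M => ∃ x : El a, R n x ∧ ∀ k : N M, R k x → n = k ∨ n.1 ∈ k.1) inferInstance
  refine ⟨om M, isOmega_om, s, fun n hn => ((hsx n).1 hn).1,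
    fun x => ⟨(f x).1, (hsx _).2 ⟨(f x).2, x, hf x⟩⟩, ?_, ?_, ?_⟩
  · have h0 : FunIn (fun x => (f x).1) := FunIn.of_DF hDF
    exact h0
  · intro x y hxy
    have h0 : (f x).1 = (f y).1 := congrArg (fun z : El s => z.1) hxy
    have h1 : f x = f y := Subtype.ext h0
    have h2 := (hf x).1
    rw [h1] at h2
    exact hfun _ _ _ h2 (hf y).1
  · rintro ⟨n, hn⟩
    obtain ⟨hn', x, hx⟩ := (hsx n).1 hn
    have h0 : (f x).1 = n := congrArg (fun z : N M => z.1) (hu x _ _ (hf x) hx)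
    exact ⟨x, Subtype.ext h0⟩

theorem Enu.image (h : Enu a) (R : El a → El b → Prop) (hR : DP M (fun p : El a × El b => R p.1 p.2))
    (hfun : ∀ x y y', R x y → R x y' → y = y') (hs : ∀ y, ∃ x, R x y) : Enu b := by
  obtain ⟨S, hS, hSfun, hSs⟩ := h
  have hR' := @DP.lift₂ _ _ _ _ _ _ _ R hR
  have hS' := @DP.lift₂ _ _ _ _ _ _ _ S hS
  refine ⟨fun n y => ∃ x : El a, S n x ∧ R x y, inferInstance, ?_, ?_⟩
  · rintro n y y' ⟨x, h1, h2⟩ ⟨x', h3, h4⟩
    have := hSfun n x x' h1 h3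
    subst this
    exact hfun x y y' h2 h4
  · intro y
    obtain ⟨x, hx⟩ := hs y
    obtain ⟨n, hn⟩ := hSs x
    exact ⟨n, x, hn, hx⟩

theorem Good.enu {i : M} (hg : Good (om M) κ R₀ R₁) (hi : i ∈ κ) : Enu i := by
  obtain ⟨f, hf, hs⟩ := hg.enum i hi
  have hp : ∀ x y : M, (Coded.code (x, y) : M) ∈ f ↔ PairIn f x y := by
    intro x y
    constructor
    · intro h
      exact ⟨_, h, isPair_pr x y⟩
    · rintro ⟨p, hp, h⟩
      rw [isPair_iff] at h
      subst h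
      exact hp
  refine ⟨fun n x => (Coded.code (n.1, x.1) : M) ∈ f, inferInstance, ?_, ?_⟩
  · intro n x y hx hy
    exact Subtype.ext (hf n.1 x.1 y.1 ((hp _ _).1 hx) ((hp _ _).1 hy))
  · intro x
    obtain ⟨n, hn, h⟩ := hs x.1 x.2
    exact ⟨⟨n, hn⟩, (hp _ _).2 h⟩

/-- images of countable sets in `κ` are bounded -/
theorem Good.bound_enu (hg : Good (om M) κ R₀ R₁) (ha : Enu a) (R : El a → El κ → Prop)
    (hR : DP M (fun p : El a × El κ => R p.1 p.2)) (hfun : ∀ n x y, R n x → R n y → x = y) :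
    ∃ j : El κ, ∀ n i, R n i → i.1 ∈ j.1 := by
  obtain ⟨S, hS, hSfun, hSs⟩ := ha
  have hR' := @DP.lift₂ _ _ _ _ _ _ _ R hR
  have hS' := @DP.lift₂ _ _ _ _ _ _ _ S hS
  obtain ⟨j, hj⟩ := hg.bound_seq (fun n y => ∃ x : El a, S n x ∧ R x y) inferInstance (by
    rintro n y y' ⟨x, h1, h2⟩ ⟨x', h3, h4⟩
    have := hSfun n x x' h1 h3
    subst this
    exact hfun x y y' h2 h4)
  refine ⟨j, fun x i hx => ?_⟩
  obtain ⟨n, hn⟩ := hSs x
  exact hj n i ⟨x, hn, hx⟩

end Pool.Agent.Lib.MP_6b4821_lc
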