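import Pool.Agent.Lib.MP_6b4821_lc.IRec
import Pool.Agent.Lib.MP_6b4821_lc.ICtb
import Pool.Agent.Lib.MP_6b4821_lc.IChoice

/-!
# MP_6b4821_lc: uncountable sets
-/

set_option autoImplicit false
set_option synthInstance.maxSize 100000
set_option synthInstance.maxHeartbeats 400000

namespace Pool.Agent.Lib.MP_6b4821_lc

open Pool.Agent.MP_5db68c_lc Pool.Agent.StarRoth.BV
open Pool.Agent.Lib.MP_5ed4ef_gt (IsSubspace)

variable {M : Type} [Membership M M] [hM : IsZFC M]

variable {κ R₀ R₁ b : M}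

theorem aleph (hg : Good (om M) κ R₀ R₁) (hb : ¬ Enu b) : CardLE κ b := by
  classical
  have hκ : Ordl κ := ⟨hg.trans, hg.trans'⟩
  -- the nonempty subsets of `b` and a choice function
  obtain ⟨pb, hpb⟩ := hM.zfc.toModelZF.powerset b
  obtain ⟨P, hP⟩ := exists_el_subset (a := pb) (fun V => ∃ x : M, x ∈ V.1) inferInstance
  obtain ⟨ch, hch, hchV⟩ := exists_choice (M := M) (Γ := El P) (Δ := El b) (fun V u => u.1 ∈ V.1)
    inferInstance (by
      intro V
      obtain ⟨h1, x, hx⟩ := (hP V.1).1 V.2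
      exact ⟨⟨x, (hpb V.1).1 h1 x hx⟩, hx⟩)
  have hch' := @hch.lift₁
  have hPb : ∀ (V : El P) (x : M), x ∈ V.1 → x ∈ b := fun V x hx =>
    (hpb V.1).1 ((hP V.1).1 V.2).1 x hx
  -- recursion
  obtain ⟨x, -, hx⟩ := exists_rec_pred (M := M) hκ (Γ := El κ × El b) (fun s => s.1) inferInstance
    (fun s y => ∃ V : El P, (∀ v : El b, v.1 ∈ V.1 ↔
      ¬ ∃ j : El κ, (Coded.code ((j, v) : El κ × El b) : M) ∈ y) ∧ ch V = s.2) inferInstance
  let T : El κ → El b → Prop := fun i v => (Coded.code ((i, v) : El κ × El b) : M) ∈ x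
  have hT : DP M (fun p : El κ × El b => T p.1 p.2) := by
    show DP M (fun p : El κ × El b => (Coded.code ((p.1, p.2) : El κ × El b) : M) ∈ x)
    infer_instance
  have hT' := @DP.lift₂ _ _ _ _ _ _ _ T hT
  have key : ∀ (i : El κ) (u : El b), T i u ↔ ∃ V : El P, (∀ v : El b, v.1 ∈ V.1 ↔
      ¬ ∃ j : El κ, j.1 ∈ i.1 ∧ T j v) ∧ ch V = u := by
    intro i u
    obtain ⟨y, hy⟩ := exists_subset (M := M) (Γ := El κ × El b)
      (fun p => T p.1 p.2 ∧ p.1.1 ∈ i.1) inferInstance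
    have hy' : ∀ (j : El κ) (v : El b), (Coded.code ((j, v) : El κ × El b) : M) ∈ y ↔
        T j v ∧ j.1 ∈ i.1 := by
      intro j v
      rw [hy]
      constructor
      · rintro ⟨γ, h1, h2⟩
        have := Coded.inj h1
        subst this
        exact h2
      · intro h
        exact ⟨(j, v), rfl, h⟩
    have := hx (i, u) y (by
      intro z
      rw [hy]
      constructor
      · rintro ⟨γ, rfl, h1, h2⟩
        exact ⟨h1, γ, rfl, h2⟩
      · rintro ⟨h1, γ, rfl, h2⟩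
        exact ⟨γ, rfl, h1, h2⟩)
    refine this.trans ?_
    constructor
    · rintro ⟨V, h1, h2⟩
      refine ⟨V, fun v => ?_, h2⟩
      rw [h1 v]
      simp only [hy', and_comm]
    · rintro ⟨V, h1, h2⟩
      refine ⟨V, fun v => ?_, h2⟩
      rw [h1 v]
      simp only [hy', and_comm]
  -- the relation is functional
  have hfun : ∀ i u u', T i u → T i u' → u = u' := by
    intro i u u' h h'
    obtain ⟨V, h1, h2⟩ := (key i u).1 h
    obtain ⟨V', h1', h2'⟩ := (key i u').1 h'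
    have hVV : V = V' := by
      apply Subtype.ext
      apply ext'
      intro z
      constructor
      · intro hz
        exact (h1' ⟨z, hPb V z hz⟩).2 ((h1 ⟨z, hPb V z hz⟩).1 hz)
      · intro hz
        exact (h1 ⟨z, hPb V' z hz⟩).2 ((h1' ⟨z, hPb V' z hz⟩).1 hz)
    rw [← h2, ← h2', hVV]
  -- and total
  have htot : ∀ i, ∃ u, T i u := by
    intro i
    have hne : ∃ v : El b, ¬ ∃ j : El κ, j.1 ∈ i.1 ∧ T j v := by
      by_contra hcon
      push Not at hcon
      apply hb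
      refine Enu.image (hg.enu i.2) (fun (j : El i.1) (v : El b) =>
        ∃ j' : El κ, j'.1 = j.1 ∧ T j' v) inferInstance ?_ ?_
      · rintro j v v' ⟨j1, h1, h2⟩ ⟨j2, h3, h4⟩
        have : j1 = j2 := Subtype.ext (h1.trans h3.symm)
        subst this
        exact hfun _ _ _ h2 h4
      · intro v
        obtain ⟨j, h1, h2⟩ := hcon v
        exact ⟨⟨j.1, h1⟩, j, rfl, h2⟩
    obtain ⟨V, hV⟩ := exists_el_subset (a := b) (fun v => ¬ ∃ j : El κ, j.1 ∈ i.1 ∧ T j v)
      inferInstance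
    have hVP : V ∈ P := by
      rw [hP]
      refine ⟨(hpb V).2 fun z hz => ((hV z).1 hz).1, ?_⟩
      obtain ⟨v, hv⟩ := hne
      exact ⟨v.1, (hV v.1).2 ⟨v.2, hv⟩⟩
    refine ⟨ch ⟨V, hVP⟩, (key i _).2 ⟨⟨V, hVP⟩, fun v => ?_, rfl⟩⟩
    show v.1 ∈ V ↔ _
    rw [hV]
    exact ⟨fun h => h.2, fun h => ⟨v.2, h⟩⟩
  -- and injective
  have hinj0 : ∀ i j u, T i u → T j u → j.1 ∉ i.1 := by
    intro i j u h h' hji
    obtain ⟨V, h1, h2⟩ := (key i u).1 h
    have hu : u.1 ∈ V.1 := by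
      rw [← h2]
      exact hchV V
    exact (h1 u).1 hu ⟨j, hji, h'⟩
  choose f hf using htot
  refine ⟨f, FunIn.of_DF (DF.of_rel (M := M) (R := T) hT hf hfun), ?_⟩
  intro i j hij
  have h1 := hf i
  have h2 := hf j
  rw [← hij] at h2
  rcases hκ.tri i j with h | h | h
  · exact (hinj0 j i _ h2 h1 h).elim
  · exact h
  · exact (hinj0 i j _ h1 h2 h).elim

end Pool.Agent.Lib.MP_6b4821_lc
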