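import Pool.Agent.Lib.MP_6b4821_lc.ICtb

/-!
# MP_6b4821_lc: the power set has no countable base
-/

set_option autoImplicit false
set_option synthInstance.maxSize 100000
set_option synthInstance.maxHeartbeats 400000

namespace Pool.Agent.Lib.MP_6b4821_lc

open Pool.Agent.MP_5db68c_lc Pool.Agent.StarRoth.BV
open Pool.Agent.Lib.MP_5ed4ef_gt (finite_sing)

variable {M : Type} [Membership M M] [hM : IsZF M]

variable {κ R₀ R₁ : M} {G : TopGroupIn M}

theorem Enu.of_countable {a : M} (h : CountableIn a) : Enu a := by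
  obtain ⟨w, hw, s, hs, f, hf, hbij⟩ := h
  have hwo : w = om M := hw.unique isOmega_om
  subst hwo
  have hf0 : DF M f := FunIn.DF hf
  have hf' := @hf0.lift₁
  refine ⟨fun n x => (f x).1 = n.1, inferInstance, ?_, ?_⟩
  · intro n x y hx hy
    exact hbij.1 (Subtype.ext (hx.trans hy.symm))
  · intro x
    exact ⟨⟨(f x).1, hs _ (f x).2⟩, rfl⟩

theorem IsPow.no_countable_base (hg : Good (om M) κ R₀ R₁) (hG : IsPow κ G) (b : M)
    (hb : IsBaseIn G.top b) : ¬ CountableIn b := by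
  intro hc
  have henu := Enu.of_countable hc
  obtain ⟨o, ho'⟩ := exists_el_subset (a := κ) (fun _ => False) inferInstance
  have ho : ∀ z : M, z ∉ o := fun z hz => ((ho' z).1 hz).2
  have hoG : o ∈ G.carrier := (hG.mem o).2 fun i hi => (ho i hi).elim
  let P : El b → El κ → Prop := fun U j =>
    ∀ y : M, y ∈ G.carrier → (∀ i : M, i ∈ y → i ∉ j.1) → y ∈ U.1
  have hP : DP M (fun p : El b × El κ => P p.1 p.2) := by
    show DP M (fun p : El b × El κ =>
      ∀ y : M, y ∈ G.carrier → (∀ i : M, i ∈ y → i ∉ p.2.1) → y ∈ p.1.1)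
    infer_instance
  have hP' := @DP.lift₂ _ _ _ _ _ _ _ P hP
  have hex : ∀ U : El b, o ∈ U.1 → ∃ j, P U j := by
    intro U hU
    obtain ⟨F, hF, h⟩ := ((hG.top U.1).1 (hb.1 _ U.2)).2 o hU
    obtain ⟨j, hj, hjF⟩ := hg.bound hF
    exact ⟨⟨j, hj⟩, fun y hy hdis => h y hy fun i hi =>
      ⟨fun h' => (ho i h').elim, fun h' => (hdis i h' (hjF i hi)).elim⟩⟩
  obtain ⟨g, hgb⟩ := hg.bound_enu henu
    (fun U j => o ∈ U.1 ∧ P U j ∧ ∀ k : El κ, P U k → j = k ∨ j.1 ∈ k.1) inferInstance (by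
      rintro U x y ⟨_, h1, h2⟩ ⟨_, h3, h4⟩
      rcases h2 y h3 with h5 | h5
      · exact h5
      · rcases h4 x h1 with h6 | h6
        · exact h6.symm
        · exact (N.no_cycle _ _ h5 h6).elim)
  obtain ⟨y, hy⟩ := exists_sing g.1
  have hyG : y ∈ G.carrier := (hG.mem y).2 fun i hi => by rw [(hy i).1 hi]; exact g.2
  obtain ⟨V, hV⟩ := exists_el_subset (a := G.carrier) (fun x => g.1 ∉ x.1) inferInstance
  have hVt : V ∈ G.top := by
    refine (hG.top V).2 ⟨fun x hx => ((hV x).1 hx).1, fun x hx => ?_⟩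
    refine ⟨y, ⟨(hG.mem y).1 hyG, finite_sing hy⟩, fun z hz hag => ?_⟩
    refine (hV z).2 ⟨hz, fun h => ?_⟩
    exact ((hV x).1 hx).2 ((hag g.1 ((hy _).2 rfl)).2 h)
  obtain ⟨U, hU, hoU, hUV⟩ := hb.2 V o hVt ((hV o).2 ⟨hoG, fun h => ho _ h⟩)
  obtain ⟨j, hPj, hmin⟩ := hg.ordl.exists_least (P ⟨U, hU⟩) inferInstance (hex ⟨U, hU⟩ hoU)
  have hjg := hgb ⟨U, hU⟩ j ⟨hoU, hPj, hmin⟩
  have h1 : y ∈ U := hPj y hyG (fun i hi hij => by
    rw [(hy i).1 hi] at hij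
    exact N.no_cycle _ _ hjg hij)
  exact ((hV y).1 (hUV y h1)).2 ((hy _).2 rfl)

end Pool.Agent.Lib.MP_6b4821_lc
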