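import Pool.Agent.Lib.MP_6b4821_lc.IOrd

/-!
# MP_6b4821_lc: finite subsets and bounds
-/

set_option autoImplicit false
set_option synthInstance.maxSize 100000
set_option synthInstance.maxHeartbeats 400000

namespace Pool.Agent.Lib.MP_6b4821_lc

open Pool.Agent.MP_5db68c_lc Pool.Agent.StarRoth.BV
open Pool.Agent.Lib.MP_5ed4ef_gt (IsSubspace finiteIn_iff finite_empty finite_insert finite_union
  exists_insert)

variable {M : Type} [Membership M M] [hM : IsZF M]

variable {κ R₀ R₁ F F' F'' : M}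

theorem finS_empty {e : M} (he : ∀ z : M, z ∉ e) : FinS κ e :=
  ⟨fun i hi => (he i hi).elim, finite_empty he⟩

theorem FinS.insert {i : M} (h : FinS κ F) (hi : i ∈ κ) (hu : ∀ z : M, z ∈ F'' ↔ z ∈ F ∨ z = i) :
    FinS κ F'' := by
  refine ⟨fun j hj => ?_, finite_insert h.2 hu⟩
  rcases (hu j).1 hj with h' | h'
  · exact h.1 j h'
  · rw [h']; exact hi

theorem FinS.union (h : FinS κ F) (h' : FinS κ F') (hu : ∀ z : M, z ∈ F'' ↔ z ∈ F ∨ z ∈ F') :
    FinS κ F'' := by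
  refine ⟨fun j hj => ?_, finite_union h.2 h'.2 hu⟩
  rcases (hu j).1 hj with h1 | h1
  · exact h.1 j h1
  · exact h'.1 j h1

theorem kfin_iff : KFin F κ ↔ FinS κ F := by
  constructor
  · intro h
    obtain ⟨P, hP⟩ := hM.zf.powerset κ
    obtain ⟨s, hs⟩ := exists_el_subset (a := P) (fun x => FiniteIn x.1) inferInstance
    have := h s ?_ ?_
    · obtain ⟨h1, h2⟩ := (hs F).1 this
      exact ⟨(hP F).1 h1, h2⟩
    · intro e he
      exact (hs e).2 ⟨(hP e).2 fun y hy => (he y hy).elim, finite_empty he⟩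
    · intro x i y hx hi hy
      obtain ⟨h1, h2⟩ := (hs x).1 hx
      refine (hs y).2 ⟨(hP y).2 fun z hz => ?_, finite_insert h2 hy⟩
      rcases (hy z).1 hz with h' | h'
      · exact (hP x).1 h1 z h'
      · rw [h']; exact hi
  · rintro ⟨hF, hfin⟩ s h0 h1
    obtain ⟨n, g, g1, g2, g3, g4⟩ := finiteIn_iff.1 hfin
    have key : ∀ k : N M, ∃ t : M, (∀ y : M, y ∈ t ↔ y ∈ F ∧ ∃ i : M, i ∈ n.1 ∧ i ∈ k.1 ∧
        (Coded.code (i, y) : M) ∈ g) ∧ t ∈ s := by
      refine N.induction (M := M) _ inferInstance ?_ ?_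
      · obtain ⟨e, he⟩ := exists_el_subset (a := F) (fun _ => False) inferInstance
        have he' : ∀ z : M, z ∉ e := fun z hz => ((he z).1 hz).2
        refine ⟨e, fun y => ⟨fun hy => (he' y hy).elim, ?_⟩, h0 e he'⟩
        rintro ⟨_, i, _, hi, _⟩
        exact (N.not_mem_zero _ hi).elim
      · rintro k ⟨t, ht, hts⟩
        by_cases hk : k.1 ∈ n.1
        · obtain ⟨x, hx, hg⟩ := g1 k.1 hk
          obtain ⟨t', ht'⟩ := exists_insert t x
          refine ⟨t', fun y => ?_, h1 t x t' hts (hF x hx) ht'⟩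
          rw [ht', ht]
          constructor
          · rintro (⟨hy, i, hi, hik, hgi⟩ | rfl)
            · exact ⟨hy, i, hi, (N.mem_succ _ _).2 (Or.inl hik), hgi⟩
            · exact ⟨hx, k.1, hk, (N.mem_succ _ _).2 (Or.inr rfl), hg⟩
          · rintro ⟨hy, i, hi, hik, hgi⟩
            rcases (N.mem_succ _ _).1 hik with hik | rfl
            · exact Or.inl ⟨hy, i, hi, hik, hgi⟩
            · exact Or.inr (g2 _ _ _ hgi hg)
        · refine ⟨t, fun y => ?_, hts⟩
          rw [ht]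
          constructor
          · rintro ⟨hy, i, hi, hik, hgi⟩
            exact ⟨hy, i, hi, (N.mem_succ _ _).2 (Or.inl hik), hgi⟩
          · rintro ⟨hy, i, hi, hik, hgi⟩
            rcases (N.mem_succ _ _).1 hik with hik | rfl
            · exact ⟨hy, i, hi, hik, hgi⟩
            · exact (hk hi).elim
    obtain ⟨t, ht, hts⟩ := key n
    have : F = t := ext' fun y => by
      rw [ht]
      constructor
      · intro hy
        obtain ⟨i, hi, hg⟩ := g4 y hy
        exact ⟨hy, i, hi, hi, hg⟩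
      · exact fun h => h.1
    rw [this]; exact hts

theorem FinS.induction (P : M → Prop) (hP : DP M P) (h0 : ∀ e : M, (∀ z : M, z ∉ e) → P e)
    (hs : ∀ F i F' : M, FinS κ F → P F → i ∈ κ → (∀ z : M, z ∈ F' ↔ z ∈ F ∨ z = i) → P F') :
    ∀ F : M, FinS κ F → P F := by
  intro F hF
  have hP' := @hP.lift₁
  obtain ⟨Q, hQ⟩ := hM.zf.powerset κ
  obtain ⟨s, hs'⟩ := exists_el_subset (a := Q) (fun x => FinS κ x.1 ∧ P x.1) inferInstance
  have := kfin_iff.2 hF s ?_ ?_
  · exact ((hs' F).1 this).2.2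
  · intro e he
    exact (hs' e).2 ⟨(hQ e).2 fun y hy => (he y hy).elim, finS_empty he, h0 e he⟩
  · intro x i y hx hi hy
    obtain ⟨_, h2, h3⟩ := (hs' x).1 hx
    have h4 := h2.insert hi hy
    exact (hs' y).2 ⟨(hQ y).2 h4.1, h4, hs x i y h2 h3 hi hy⟩

theorem finite_image (n : N M) (R : N M → M → Prop) (hR : DP M (fun p : N M × M => R p.1 p.2))
    (hfun : ∀ m x y, R m x → R m y → x = y) :
    ∃ F : M, FiniteIn F ∧ ∀ x : M, x ∈ F ↔ ∃ m : N M, m.1 ∈ n.1 ∧ R m x := by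
  have hR' := @DP.lift₂ _ _ _ _ _ _ _ R hR
  revert n
  refine N.induction (M := M) _ inferInstance ?_ ?_
  · obtain ⟨e, he⟩ := exists_el_subset (a := om M) (fun _ => False) inferInstance
    have he' : ∀ z : M, z ∉ e := fun z hz => ((he z).1 hz).2
    refine ⟨e, finite_empty he', fun x => ⟨fun hx => (he' x hx).elim, ?_⟩⟩
    rintro ⟨m, hm, _⟩
    exact (N.not_mem_zero _ hm).elim
  · rintro n ⟨F, hF, h⟩
    by_cases hn : ∃ x, R n x
    · obtain ⟨x, hx⟩ := hn
      obtain ⟨F', hF'⟩ := exists_insert F x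
      refine ⟨F', finite_insert hF hF', fun y => ?_⟩
      rw [hF', h]
      constructor
      · rintro (⟨m, hm, hR⟩ | rfl)
        · exact ⟨m, (N.mem_succ _ _).2 (Or.inl hm), hR⟩
        · exact ⟨n, (N.mem_succ _ _).2 (Or.inr rfl), hx⟩
      · rintro ⟨m, hm, hR⟩
        rcases (N.mem_succ _ _).1 hm with hm | hm
        · exact Or.inl ⟨m, hm, hR⟩
        · have : m = n := Subtype.ext hm
          subst this
          exact Or.inr (hfun _ _ _ hR hx)
    · refine ⟨F, hF, fun y => ?_⟩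
      rw [h]
      constructor
      · rintro ⟨m, hm, hR⟩
        exact ⟨m, (N.mem_succ _ _).2 (Or.inl hm), hR⟩
      · rintro ⟨m, hm, hR⟩
        rcases (N.mem_succ _ _).1 hm with hm | hm
        · exact ⟨m, hm, hR⟩
        · have : m = n := Subtype.ext hm
          subst this
          exact (hn ⟨_, hR⟩).elim

theorem FinS.exists_max (hκ : Ordl κ) (hF : FinS κ F) (hne : ∃ i : M, i ∈ F) :
    ∃ j : M, j ∈ F ∧ ∀ i : M, i ∈ F → i ∈ j ∨ i = j := by
  revert hne
  refine FinS.induction (κ := κ) (fun F : M => (∃ i : M, i ∈ F) →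
    ∃ j : M, j ∈ F ∧ ∀ i : M, i ∈ F → i ∈ j ∨ i = j) inferInstance ?_ ?_ F hF
  · rintro e he ⟨i, hi⟩
    exact (he i hi).elim
  · intro F i F' hF ih hi hu _
    by_cases hne : ∃ i : M, i ∈ F
    · obtain ⟨j, hj, hmax⟩ := ih hne
      have hjκ := hF.1 j hj
      rcases hκ.tri ⟨i, hi⟩ ⟨j, hjκ⟩ with h | h | h
      · refine ⟨j, (hu j).2 (Or.inl hj), fun k hk => ?_⟩
        rcases (hu k).1 hk with h' | h'
        · exact hmax k h'
        · rw [h']; exact Or.inl h
      · have h1 : i = j := congrArg Subtype.val h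
        refine ⟨j, (hu j).2 (Or.inl hj), fun k hk => ?_⟩
        rcases (hu k).1 hk with h' | h'
        · exact hmax k h'
        · rw [h']; exact Or.inr h1
      · refine ⟨i, (hu i).2 (Or.inr rfl), fun k hk => ?_⟩
        rcases (hu k).1 hk with h' | h'
        · left
          rcases hmax k h' with h2 | h2
          · exact hκ.trans' _ _ _ hi h h2
          · rw [h2]; exact h
        · right; exact h'
    · refine ⟨i, (hu i).2 (Or.inr rfl), fun k hk => ?_⟩
      rcases (hu k).1 hk with h' | h'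
      · exact (hne ⟨k, h'⟩).elim
      · right; exact h'

omit hM in
theorem Good.ordl {w : M} (hg : Good w κ R₀ R₁) : Ordl κ := ⟨hg.trans, hg.trans'⟩

theorem pairIn_iff {f x y : M} : PairIn f x y ↔ pr x y ∈ f := by
  unfold PairIn
  simp only [isPair_iff]
  constructor
  · rintro ⟨p, hp, rfl⟩; exact hp
  · intro h; exact ⟨_, h, rfl⟩

theorem Good.bound_seq (hg : Good (om M) κ R₀ R₁) (R : N M → El κ → Prop)
    (hR : DP M (fun p : N M × El κ => R p.1 p.2)) (hfun : ∀ n x y, R n x → R n y → x = y) :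
    ∃ j : El κ, ∀ n i, R n i → i.1 ∈ j.1 := by
  obtain ⟨f, hf⟩ := exists_subset (M := M) (fun p : N M × El κ => R p.1 p.2) hR
  have hf' : ∀ x y : M, PairIn f x y ↔ ∃ (n : N M) (i : El κ), n.1 = x ∧ i.1 = y ∧ R n i := by
    intro x y
    rw [pairIn_iff, hf]
    constructor
    · rintro ⟨⟨n, i⟩, h1, h2⟩
      have := pr_inj.1 h1
      exact ⟨n, i, this.1, this.2, h2⟩
    · rintro ⟨n, i, rfl, rfl, h⟩
      exact ⟨(n, i), rfl, h⟩
  obtain ⟨j, hj, h⟩ := hg.bdd f (by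
    intro x y y' h1 h2
    obtain ⟨n, i, rfl, rfl, h3⟩ := (hf' _ _).1 h1
    obtain ⟨n', i', h4, rfl, h5⟩ := (hf' _ _).1 h2
    have : n' = n := Subtype.ext h4
    subst this
    rw [hfun _ _ _ h3 h5])
  exact ⟨⟨j, hj⟩, fun n i hR => h n.1 i.1 n.2 i.2 ((hf' _ _).2 ⟨n, i, rfl, rfl, hR⟩)⟩

theorem Good.bound (hg : Good (om M) κ R₀ R₁) (hF : FinS κ F) :
    ∃ j : M, j ∈ κ ∧ ∀ i : M, i ∈ F → i ∈ j := by
  refine FinS.induction (κ := κ) (fun F : M => ∃ j : M, j ∈ κ ∧ ∀ i : M, i ∈ F → i ∈ j)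
    inferInstance ?_ ?_ F hF
  · intro e he
    obtain ⟨j, _⟩ := hg.bound_seq (fun _ _ => False) inferInstance (fun _ _ _ h => h.elim)
    exact ⟨j.1, j.2, fun i hi => (he i hi).elim⟩
  · rintro F i F' hF ⟨j, hj, h⟩ hi hu
    obtain ⟨k, hk⟩ := hg.bound_seq (fun n y => (n = N.zero ∧ y = ⟨i, hi⟩) ∨
      (n = N.succ N.zero ∧ y = ⟨j, hj⟩)) inferInstance (by
        rintro n x y (⟨h1, rfl⟩ | ⟨h1, rfl⟩) (⟨h2, rfl⟩ | ⟨h2, rfl⟩)
        · rfl
        · exact (N.succ_ne_zero _ (h2.symm.trans h1)).elim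
        · exact (N.succ_ne_zero _ (h1.symm.trans h2)).elim
        · rfl)
    refine ⟨k.1, k.2, fun z hz => ?_⟩
    rcases (hu z).1 hz with h' | h'
    · exact hg.trans' _ _ _ k.2 (hk (N.succ N.zero) ⟨j, hj⟩ (Or.inr ⟨rfl, rfl⟩)) (h z h')
    · rw [h']; exact hk N.zero ⟨i, hi⟩ (Or.inl ⟨rfl, rfl⟩)

end Pool.Agent.Lib.MP_6b4821_lc
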