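import Pool.Agent.Lib.MP_6b4821_lc.IRec
import Pool.Agent.Lib.MP_6b4821_lc.IFin

/-!
# MP_6b4821_lc: compactness of the power set, ideal form
-/

set_option autoImplicit false
set_option synthInstance.maxSize 100000
set_option synthInstance.maxHeartbeats 400000

namespace Pool.Agent.Lib.MP_6b4821_lc

open Pool.Agent.MP_5db68c_lc Pool.Agent.StarRoth.BV
open Pool.Agent.Lib.MP_5ed4ef_gt (IsSubspace)

variable {M : Type} [Membership M M] [hM : IsZF M]

variable {κ R₀ R₁ : M}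

/-- A subset of a finite subset of `κ` is finite. -/
theorem FinS.subset' {F F' : M} (hF : FinS κ F) (h : ∀ z : M, z ∈ F' → z ∈ F) : FinS κ F' := by
  refine FinS.induction (κ := κ) (fun F => ∀ G : M, (∀ z : M, z ∈ G → z ∈ F) → FinS κ G)
    inferInstance ?_ ?_ F hF F' h
  · intro e he G hG
    exact finS_empty fun z hz => he z (hG z hz)
  · intro F i F' _ ih hi hF' G hG
    by_cases hiG : i ∈ G
    · obtain ⟨G', hG'⟩ := exists_el_subset (a := G) (fun z => z.1 ≠ i) inferInstance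
      have h1 : FinS κ G' := by
        refine ih G' fun z hz => ?_
        obtain ⟨hzG, hzi⟩ := (hG' z).1 hz
        rcases (hF' z).1 (hG z hzG) with hz' | hz'
        · exact hz'
        · exact absurd hz' hzi
      refine h1.insert hi fun z => ?_
      rw [hG']
      constructor
      · intro hz
        by_cases hzi : z = i
        · exact Or.inr hzi
        · exact Or.inl ⟨hz, hzi⟩
      · rintro (⟨hz, _⟩ | rfl)
        · exact hz
        · exact hiG
    · refine ih G fun z hz => ?_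
      rcases (hF' z).1 (hG z hz) with hz' | hz'
      · exact hz'
      · exact absurd (hz' ▸ hz) hiG

theorem pow_ideal (hg : Good (om M) κ R₀ R₁) {X : M} (hX : ∀ x : M, x ∈ X ↔ ∀ i : M, i ∈ x → i ∈ κ)
    (J : M → Prop) (hJ : DP M J) (h0 : ∀ e : M, (∀ z : M, z ∉ e) → J e)
    (h2 : ∀ V V' V'' : M, J V → J V' → (∀ z : M, z ∈ V'' → z ∈ V ∨ z ∈ V') → J V'')
    (h3 : ∀ x : M, x ∈ X → ∃ F V : M, FinS κ F ∧ (∀ y : M, y ∈ V ↔ y ∈ X ∧ Agr x y F) ∧ J V) :
    J X := by
  by_contra hJX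
  have hJ' := @hJ.lift₁
  have hκ : Ordl κ := hg.ordl
  obtain ⟨x, hx1, hx2⟩ := exists_rec_pred (Γ := El κ) hκ (fun i => i) inferInstance
    (fun i z => ∃ F V : M, FinS κ F ∧ (∀ j : M, j ∈ F → j ∈ i.1) ∧
      (∀ y : M, y ∈ V ↔ y ∈ X ∧ Agr z y F ∧ i.1 ∉ y) ∧ J V) inferInstance
  have hxκ : ∀ z : M, z ∈ x → z ∈ κ := by
    intro z hz
    obtain ⟨s, rfl⟩ := hx1 z hz
    exact s.2
  have claim : ∀ i : El κ, ¬ ∃ F V : M, FinS κ F ∧ (∀ j : M, j ∈ F → j ∈ i.1) ∧
      (∀ y : M, y ∈ V ↔ y ∈ X ∧ Agr x y F) ∧ J V := by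
    refine Ordl.induction hκ _ inferInstance ?_
    rintro i ih ⟨F, V, hF, hFi, hV, hJV⟩
    by_cases hne : ∃ j : M, j ∈ F
    · obtain ⟨j, hjF, hmax⟩ := hF.exists_max hκ hne
      have hjκ : j ∈ κ := hF.1 j hjF
      -- `x ∩ j`
      obtain ⟨xj, hxj⟩ := exists_el_subset (a := x) (fun z => z.1 ∈ j) inferInstance
      have hxj' : ∀ z : M, z ∈ xj ↔ z ∈ x ∧ ∃ s' : El κ, (Coded.code s' : M) = z ∧ s'.1 ∈ j := by
        intro z
        rw [hxj]
        constructor
        · rintro ⟨h1, h2⟩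
          exact ⟨h1, ⟨z, hxκ z h1⟩, rfl, h2⟩
        · rintro ⟨h1, s', rfl, h2⟩
          exact ⟨h1, h2⟩
      have hagr : ∀ y G : M, (∀ z : M, z ∈ G → z ∈ j) → (Agr xj y G ↔ Agr x y G) := by
        intro y G hG
        constructor
        · intro h k hk
          rw [← h k hk, hxj]
          exact ⟨fun h' => ⟨h', hG k hk⟩, fun h' => h'.1⟩
        · intro h k hk
          rw [← h k hk, hxj]
          exact ⟨fun h' => h'.1, fun h' => ⟨h', hG k hk⟩⟩
      have hkey := hx2 ⟨j, hjκ⟩ xj hxj'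
      -- `F' = F ∩ j`
      obtain ⟨F', hF'⟩ := exists_el_subset (a := F) (fun z => z.1 ∈ j) inferInstance
      have hF'S : FinS κ F' := hF.subset' fun z hz => ((hF' z).1 hz).1
      have hF'j : ∀ z : M, z ∈ F' → z ∈ j := fun z hz => ((hF' z).1 hz).2
      have hFF' : ∀ z : M, z ∈ F → z ∈ F' ∨ z = j := by
        intro z hz
        rcases hmax z hz with h | h
        · exact Or.inl ((hF' z).2 ⟨hz, h⟩)
        · exact Or.inr h
      have hagrF : ∀ y : M, Agr x y F ↔ Agr x y F' ∧ (j ∈ x ↔ j ∈ y) := by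
        intro y
        constructor
        · intro h
          exact ⟨fun k hk => h k ((hF' k).1 hk).1, h j hjF⟩
        · rintro ⟨h, h'⟩ k hk
          rcases hFF' k hk with hk' | rfl
          · exact h k hk'
          · exact h'
      by_cases hjx : j ∈ x
      · obtain ⟨F₀, V₀, hF₀, hF₀j, hV₀, hJV₀⟩ := hkey.1 hjx
        obtain ⟨F₁, hF₁⟩ := Pool.Agent.Lib.MP_5ed4ef_gt.exists_union₂ F' F₀
        obtain ⟨V₁, hV₁⟩ := exists_el_subset (a := X) (fun y => Agr x y.1 F₁) inferInstance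
        have hF₁j : ∀ z : M, z ∈ F₁ → z ∈ j := by
          intro z hz
          rcases (hF₁ z).1 hz with h | h
          · exact hF'j z h
          · exact hF₀j z h
        refine ih ⟨j, hjκ⟩ (hFi j hjF) ⟨F₁, V₁, hF'S.union hF₀ hF₁, hF₁j, fun y => ?_, ?_⟩
        · rw [hV₁]
          exact ⟨fun h => ⟨h.1, h.2⟩, fun h => ⟨h.1, h.2⟩⟩
        · refine h2 V V₀ V₁ hJV hJV₀ fun y hy => ?_
          obtain ⟨hyX, hyA⟩ := (hV₁ y).1 hy
          by_cases hjy : j ∈ y
          · left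
            rw [hV, hagrF]
            exact ⟨hyX, fun k hk => hyA k ((hF₁ k).2 (Or.inl hk)), ⟨fun _ => hjy, fun _ => hjx⟩⟩
          · right
            rw [hV₀, hagr y F₀ hF₀j]
            exact ⟨hyX, fun k hk => hyA k ((hF₁ k).2 (Or.inr hk)), hjy⟩
      · refine hjx (hkey.2 ⟨F', V, hF'S, hF'j, fun y => ?_, hJV⟩)
        rw [hV, hagrF, hagr y F' hF'j]
        constructor
        · rintro ⟨h1, h2, h3⟩
          exact ⟨h1, h2, fun h => hjx (h3.2 h)⟩
        · rintro ⟨h1, h2, h3⟩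
          exact ⟨h1, h2, ⟨fun h => absurd h hjx, fun h => absurd h h3⟩⟩
    · apply hJX
      have : V = X := ext' fun y => by
        rw [hV]
        exact ⟨fun h => h.1, fun h => ⟨h, fun k hk => absurd ⟨k, hk⟩ hne⟩⟩
      rw [← this]
      exact hJV
  obtain ⟨F, V, hF, hV, hJV⟩ := h3 x ((hX x).2 hxκ)
  obtain ⟨j, hj, hFj⟩ := hg.bound hF
  exact claim ⟨j, hj⟩ ⟨F, V, hF, hFj, hV, hJV⟩

end Pool.Agent.Lib.MP_6b4821_lc
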