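import Pool.Agent.Lib.MP_6b4821_lc.ISetup

/-!
# MP_6b4821_lc: the situation of the proof
-/

set_option autoImplicit false
set_option synthInstance.maxSize 100000
set_option synthInstance.maxHeartbeats 400000

namespace Pool.Agent.Lib.MP_6b4821_lc

open Pool.Agent.MP_5db68c_lc Pool.Agent.StarRoth.BV
open Pool.Agent.Lib.MP_5ed4ef_gt (IsSubspace)

variable {M : Type} [Membership M M] [hM : IsZF M]

variable {κ : M} {G D H : TopGroupIn M}

theorem Sub.of (hG : IsPow κ G) (hD : IsSubgroupIn G D)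
    (hcc : IsCtblyCompactIn D.carrier D.top) : Sub κ D := by
  refine ⟨fun x hx => (hG.mem x).1 (hD.subspace.subset x hx), fun U => ?_, fun x y i => ?_, hcc⟩
  · rw [hD.subspace.topology]
    constructor
    · rintro ⟨U', hU', h⟩
      refine ⟨fun x hx => ((h x).1 hx).2, fun x hx => ?_⟩
      obtain ⟨F, hF, hF'⟩ := ((hG.top U').1 hU').2 x ((h x).1 hx).1
      exact ⟨F, hF, fun y hy hy' => (h y).2 ⟨hF' y (hD.subspace.subset y hy) hy', hy⟩⟩
    · rintro ⟨h1, h2⟩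
      obtain ⟨U', hU'⟩ := exists_el_subset (a := G.carrier)
        (fun y => ∃ F : M, FinS κ F ∧ ∃ x : M, x ∈ U ∧ Agr x y.1 F ∧
          ∀ z : M, z ∈ D.carrier → Agr x z F → z ∈ U) inferInstance
      refine ⟨U', ?_, fun x => ?_⟩
      · rw [hG.top]
        refine ⟨fun x hx => ((hU' x).1 hx).1, fun y hy => ?_⟩
        obtain ⟨hyG, F, hF, x, hx, hxy, hz⟩ := (hU' y).1 hy
        exact ⟨F, hF, fun z hzG hz' => (hU' z).2 ⟨hzG, F, hF, x, hx,
          fun i hi => (hxy i hi).trans (hz' i hi), hz⟩⟩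
      · constructor
        · intro hx
          obtain ⟨F, hF, hF'⟩ := h2 x hx
          exact ⟨(hU' x).2 ⟨hD.subspace.subset x (h1 x hx), F, hF, x, hx,
            fun i _ => Iff.rfl, hF'⟩, h1 x hx⟩
        · rintro ⟨hx, hxD⟩
          obtain ⟨_, F, _, y, _, hyx, hz⟩ := (hU' x).1 hx
          exact hz x hxD hyx
  · rw [hD.mul x y ⟨x.1, hD.subspace.subset _ x.2⟩ ⟨y.1, hD.subspace.subset _ y.2⟩ rfl rfl, hG.mul]

theorem Sub.not_mem_one (hD : Sub κ D) (i : M) : i ∉ (1 : El D.carrier).1 := by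
  have h := hD.mul 1 1 i
  rw [mul_one] at h
  intro hi
  exact h.1 hi Iff.rfl

theorem Sub.mul_self (hD : Sub κ D) (x : El D.carrier) : x * x = 1 := by
  refine Subtype.ext (ext' fun i => ?_)
  rw [hD.mul]
  exact ⟨fun h => absurd Iff.rfl h, fun h => absurd h (hD.not_mem_one i)⟩

theorem Sit.of {φ : El D.carrier → El H.carrier} (hD : Sub κ D) (hφ : IsContSurjHomIn D H φ) :
    Sit κ D H (MonoidHom.mk' φ hφ.map_mul) := by
  refine ⟨hD, FunIn.DF hφ.fun_in, hφ.surjective, fun x W hW hx => ?_⟩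
  obtain ⟨U, hU, hxU, h⟩ := hφ.continuous x W hW hx
  obtain ⟨F, hF, hF'⟩ := ((hD.top U).1 hU).2 x.1 hxU
  exact ⟨F, hF, fun y hy => h y (hF' y.1 y.2 hy)⟩

end Pool.Agent.Lib.MP_6b4821_lc
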