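import Pool.Agent.Lib.MP_6b4821_lc.ICC
import Pool.Agent.Lib.MP_6b4821_lc.IIdeal
import Pool.Agent.Lib.MP_6b4821_lc.ISit

/-!
# MP_6b4821_lc: the first case: the image is compact
-/

set_option autoImplicit false
set_option synthInstance.maxSize 100000
set_option synthInstance.maxHeartbeats 400000

namespace Pool.Agent.Lib.MP_6b4821_lc

open Pool.Agent.MP_5db68c_lc Pool.Agent.StarRoth.BV
open Pool.Agent.Lib.MP_5ed4ef_gt (IsSubspace)

variable {M : Type} [Membership M M] [hM : IsZFC M]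

variable {κ R₀ R₁ : M} {D H : TopGroupIn M} {φ : El D.carrier →* El H.carrier}

/-- if the kernel contains all members of `D` that do not meet `α`, then `φ` depends on `α` only -/
theorem Sit.eq_of_agr (h : Sit κ D H φ) (α : M)
    (hker : ∀ d : El D.carrier, (∀ i : M, i ∈ α → i ∉ d.1) → φ d = 1)
    (d d' : El D.carrier) (hd : Agr d.1 d'.1 α) : φ d = φ d' := by
  have h1 : φ (d * d') = 1 := by
    refine hker _ fun i hi hmem => ?_
    rw [h.sub.mul] at hmem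
    exact hmem (hd i hi)
  have h2 : φ (d' * d') = 1 := by rw [h.sub.mul_self, map_one]
  rw [map_mul] at h1 h2
  exact mul_right_cancel (h1.trans h2.symm)

/-- an open property of the members of `D` that agree with `x` on a countable set `α` holds for all
members of `D` that agree with `x` on some finite set -/
theorem Sub.claim (hg : Good (om M) κ R₀ R₁) (hD : Sub κ D) (α : M) (hα : α ∈ κ) (x : M)
    (W : El D.carrier → Prop) (hW : DP M W)
    (hop : ∀ d, W d → ∃ F : M, FinS κ F ∧ ∀ d' : El D.carrier, Agr d.1 d'.1 F → W d')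
    (hx : ∀ d : El D.carrier, Agr x d.1 α → W d) :
    ∃ F : M, FinS κ F ∧ ∀ d : El D.carrier, Agr x d.1 F → W d := by
  obtain ⟨R, hR, hfun, hs⟩ := hg.enu hα
  have hR' := @DP.lift₂ _ _ _ _ _ _ _ R hR
  have hW' := @hW.lift₁
  have hακ : ∀ i : M, i ∈ α → i ∈ κ := fun i hi => hg.ordl.trans α i hα hi
  obtain ⟨n, hn⟩ := hD.cc_incr
    (fun n d => W d ∨ ∃ m : N M, m.1 ∈ n.1 ∧ ∃ a : El α, R m a ∧ ¬ (a.1 ∈ x ↔ a.1 ∈ d.1))
    inferInstance
    (by
      rintro n d (hd | ⟨m, hm, a, ha, hne⟩)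
      · obtain ⟨F, hF, h⟩ := hop d hd
        exact ⟨F, hF, fun d' hd' => Or.inl (h d' hd')⟩
      · obtain ⟨e, he⟩ := exists_el_subset (a := κ) (fun _ => False) inferInstance
        have he' : ∀ z : M, z ∉ e := fun z hz => ((he z).1 hz).2
        obtain ⟨F, hF⟩ := exists_sing a.1
        refine ⟨F, (finS_empty he').insert (hακ a.1 a.2) (fun z => ?_), fun d' hd' => ?_⟩
        · rw [hF]
          exact ⟨Or.inr, fun h => h.elim (fun h' => (he' z h').elim) id⟩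
        · refine Or.inr ⟨m, hm, a, ha, fun h => hne ?_⟩
          rw [h]
          exact (hd' a.1 ((hF _).2 rfl)).symm)
    (by
      rintro n d (hd | ⟨m, hm, a, ha, hne⟩)
      · exact Or.inl hd
      · exact Or.inr ⟨m, (N.mem_succ _ _).2 (Or.inl hm), a, ha, hne⟩)
    (by
      intro d
      by_cases hd : Agr x d.1 α
      · exact ⟨N.zero, Or.inl (hx d hd)⟩
      · unfold Agr at hd
        push Not at hd
        obtain ⟨i, hi, hne⟩ := hd
        obtain ⟨m, hm⟩ := hs ⟨i, hi⟩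
        refine ⟨N.succ m, Or.inr ⟨m, (N.mem_succ _ _).2 (Or.inr rfl), ⟨i, hi⟩, hm, ?_⟩⟩
        simp only
        tauto)
  obtain ⟨F, hF, hFx⟩ := finite_image n (fun m y => ∃ a : El α, R m a ∧ a.1 = y) inferInstance (by
    rintro m y y' ⟨a, ha, rfl⟩ ⟨a', ha', rfl⟩
    rw [hfun m a a' ha ha'])
  refine ⟨F, ⟨fun i hi => ?_, hF⟩, fun d hd => ?_⟩
  · obtain ⟨m, _, a, _, rfl⟩ := (hFx i).1 hi
    exact hακ a.1 a.2
  · rcases hn d with h | ⟨m, hm, a, ha, hne⟩
    · exact h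
    · exact (hne (hd a.1 ((hFx _).2 ⟨m, hm, a, ha, rfl⟩))).elim

theorem Sit.caseA (hg : Good (om M) κ R₀ R₁) (h : Sit κ D H φ) (α : M) (hα : α ∈ κ)
    (hker : ∀ d : El D.carrier, (∀ i : M, i ∈ α → i ∉ d.1) → φ d = 1) :
    IsCompactIn H.carrier H.top := by
  intro c hc hcov
  have hφ := h.df
  have hφ' := @hφ.lift₁
  obtain ⟨X, hX⟩ := (IsZF.zf (M := M)).powerset κ
  have hemp : ∃ e : M, ∀ z : M, z ∉ e := by
    obtain ⟨e, he⟩ := exists_el_subset (a := κ) (fun _ => False) inferInstance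
    exact ⟨e, fun z hz => ((he z).1 hz).2⟩
  have key := pow_ideal hg (X := X) hX
    (fun V => ∃ c' : M, (∀ U : M, U ∈ c' → U ∈ c) ∧ FiniteIn c' ∧
      ∀ d : El D.carrier, d.1 ∈ V → ∃ U : M, U ∈ c' ∧ (φ d).1 ∈ U) inferInstance
    (by
      intro e he
      exact ⟨e, fun U hU => (he U hU).elim, Pool.Agent.Lib.MP_5ed4ef_gt.finite_empty he,
        fun d hd => (he _ hd).elim⟩)
    (by
      rintro V V' V'' ⟨c₁, h1, h2, h3⟩ ⟨c₂, h4, h5, h6⟩ hV
      obtain ⟨c₃, hc₃⟩ := Pool.Agent.Lib.MP_5ed4ef_gt.exists_union₂ c₁ c₂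
      refine ⟨c₃, fun U hU => ((hc₃ U).1 hU).elim (h1 U) (h4 U),
        Pool.Agent.Lib.MP_5ed4ef_gt.finite_union h2 h5 hc₃, fun d hd => ?_⟩
      rcases hV _ hd with hd | hd
      · obtain ⟨U, hU, hm⟩ := h3 d hd
        exact ⟨U, (hc₃ U).2 (Or.inl hU), hm⟩
      · obtain ⟨U, hU, hm⟩ := h6 d hd
        exact ⟨U, (hc₃ U).2 (Or.inr hU), hm⟩)
    (by
      intro x _
      by_cases hx : ∃ d₀ : El D.carrier, Agr x d₀.1 α
      · obtain ⟨d₀, hd₀⟩ := hx
        obtain ⟨U, hU, hmem⟩ := hcov (φ d₀).1 (φ d₀).2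
        obtain ⟨F, hF, hFd⟩ := Sub.claim hg h.sub α hα x (fun d => (φ d).1 ∈ U) inferInstance
          (fun d hd => h.cont d U (hc U hU) hd)
          (fun d hd => by
            have h0 : φ d = φ d₀ := h.eq_of_agr α hker d d₀
              (fun i hi => (hd i hi).symm.trans (hd₀ i hi))
            rw [h0]
            exact hmem)
        obtain ⟨V, hV⟩ := exists_el_subset (a := X) (fun y => Agr x y.1 F) inferInstance
        obtain ⟨c', hc'⟩ := exists_sing U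
        refine ⟨F, V, hF, fun y => (hV y).trans ⟨fun ⟨h1, h2⟩ => ⟨h1, h2⟩, fun ⟨h1, h2⟩ => ⟨h1, h2⟩⟩,
          c', fun U' hU' => by rw [(hc' U').1 hU']; exact hU,
          Pool.Agent.Lib.MP_5ed4ef_gt.finite_sing hc', fun d hd => ?_⟩
        exact ⟨U, (hc' U).2 rfl, hFd d ((hV _).1 hd).2⟩
      · obtain ⟨F, hF, hFd⟩ := Sub.claim hg h.sub α hα x (fun _ => False) inferInstance
          (fun d hd => hd.elim) (fun d hd => hx ⟨d, hd⟩)
        obtain ⟨V, hV⟩ := exists_el_subset (a := X) (fun y => Agr x y.1 F) inferInstance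
        obtain ⟨e, he⟩ := hemp
        refine ⟨F, V, hF, fun y => (hV y).trans ⟨fun ⟨h1, h2⟩ => ⟨h1, h2⟩, fun ⟨h1, h2⟩ => ⟨h1, h2⟩⟩,
          e, fun U' hU' => (he _ hU').elim, Pool.Agent.Lib.MP_5ed4ef_gt.finite_empty he,
          fun d hd => ?_⟩
        exact (hFd d ((hV _).1 hd).2).elim)
  obtain ⟨c', h1, h2, h3⟩ := key
  refine ⟨c', h1, h2, fun y hy => ?_⟩
  obtain ⟨d, hd⟩ := h.surj ⟨y, hy⟩
  obtain ⟨U, hU, hm⟩ := h3 d ((hX _).2 (h.sub.mem d.1 d.2))
  rw [hd] at hm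
  exact ⟨U, hU, hm⟩

end Pool.Agent.Lib.MP_6b4821_lc
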