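import Pool.Agent.Lib.MP_6b4821_lc.ICC

/-!
# MP_6b4821_lc: closures of countable subsets
-/

set_option autoImplicit false
set_option synthInstance.maxSize 100000
set_option synthInstance.maxHeartbeats 400000

namespace Pool.Agent.Lib.MP_6b4821_lc

open Pool.Agent.MP_5db68c_lc Pool.Agent.StarRoth.BV
open Pool.Agent.Lib.MP_5ed4ef_gt (IsSubspace)

variable {M : Type} [Membership M M] [hM : IsZF M]

variable {κ R₀ R₁ : M} {D : TopGroupIn M}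

theorem IOmega_pairIn {f x y : M} : PairIn f x y ↔ (Coded.code (x, y) : M) ∈ f := by
  unfold PairIn
  simp only [isPair_iff]
  constructor
  · rintro ⟨p, hp, rfl⟩
    exact hp
  · intro h
    exact ⟨_, h, rfl⟩

theorem IOmega_agr_mono {x y F F' : M} (h : ∀ i : M, i ∈ F → i ∈ F') (ha : Agr x y F') :
    Agr x y F :=
  fun i hi => ha i (h i hi)

theorem IOmega_sing {i : M} (hi : i ∈ κ) : ∃ F : M, FinS κ F ∧ i ∈ F := by
  obtain ⟨F, hF⟩ := Pool.Agent.Lib.MP_5ed4ef_gt.exists_insert (N.zero : N M).1 i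
  exact ⟨F, FinS.insert (finS_empty N.not_mem_zero) hi hF, (hF i).2 (Or.inr rfl)⟩

theorem IOmega_diff (hD : Sub κ D) {x : M} (hx : ∀ i : M, i ∈ x → i ∈ κ) (hx' : x ∉ D.carrier)
    (d : El D.carrier) : ∃ i : M, i ∈ κ ∧ ¬ (i ∈ x ↔ i ∈ d.1) := by
  by_contra hcon
  push Not at hcon
  apply hx'
  have : x = d.1 := ext' fun i => by
    by_cases hi : i ∈ κ
    · exact hcon i hi
    · exact ⟨fun h => (hi (hx i h)).elim, fun h => (hi (hD.mem d.1 d.2 i h)).elim⟩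
  rw [this]
  exact d.2

theorem IOmega_step (hD : Sub κ D) {x : M} (hx : ∀ i : M, i ∈ x → i ∈ κ) (hx' : x ∉ D.carrier)
    (R : N M → El D.carrier → Prop) (hfun : ∀ n x y, R n x → R n y → x = y) (j : N M)
    {F : M} (hF : FinS κ F) :
    ∃ F' : M, FinS κ F' ∧ (∀ i : M, i ∈ F → i ∈ F') ∧ ∀ d, R j d → ¬ Agr x d.1 F' := by
  by_cases h : ∃ d, R j d
  · obtain ⟨d, hd⟩ := h
    obtain ⟨i, hi, hid⟩ := IOmega_diff hD hx hx' d
    obtain ⟨F', hF'⟩ := Pool.Agent.Lib.MP_5ed4ef_gt.exists_insert F i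
    refine ⟨F', FinS.insert hF hi hF', fun z hz => (hF' z).2 (Or.inl hz), ?_⟩
    intro d' hd' ha
    have : d' = d := hfun _ _ _ hd' hd
    subst this
    exact hid (ha i ((hF' i).2 (Or.inr rfl)))
  · exact ⟨F, hF, fun _ hz => hz, fun d hd => (h ⟨d, hd⟩).elim⟩

theorem IOmega_far (hD : Sub κ D) {x : M} (hx : ∀ i : M, i ∈ x → i ∈ κ) (hx' : x ∉ D.carrier)
    (R : N M → El D.carrier → Prop) (hR : DP M (fun p : N M × El D.carrier => R p.1 p.2))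
    (hfun : ∀ n x y, R n x → R n y → x = y) {F : M} (hF : FinS κ F) (m : N M) :
    ∃ F' : M, FinS κ F' ∧ (∀ i : M, i ∈ F → i ∈ F') ∧
      ∀ j : N M, (j.1 ∈ m.1 ∨ j.1 = m.1) → ∀ d, R j d → ¬ Agr x d.1 F' := by
  have hR' := @DP.lift₂ _ _ _ _ _ _ _ R hR
  revert m
  refine N.induction (M := M) _ inferInstance ?_ ?_
  · obtain ⟨F', h1, h2, h3⟩ := IOmega_step hD hx hx' R hfun N.zero hF
    refine ⟨F', h1, h2, fun j hj d hd => ?_⟩
    rcases hj with hj | hj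
    · exact (N.not_mem_zero _ hj).elim
    · have : j = N.zero := Subtype.ext hj
      subst this
      exact h3 d hd
  · rintro m ⟨F', h1, h2, h3⟩
    obtain ⟨F'', h4, h5, h6⟩ := IOmega_step hD hx hx' R hfun (N.succ m) h1
    refine ⟨F'', h4, fun i hi => h5 i (h2 i hi), fun j hj d hd ha => ?_⟩
    rcases hj with hj | hj
    · exact h3 j ((N.mem_succ m j.1).1 hj) d hd (IOmega_agr_mono h5 ha)
    · have : j = N.succ m := Subtype.ext hj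
      subst this
      exact h6 d hd ha

theorem Sub.omega_closed (hg : Good (om M) κ R₀ R₁) (hD : Sub κ D) (R : N M → El D.carrier → Prop)
    (hR : DP M (fun p : N M × El D.carrier => R p.1 p.2)) (hfun : ∀ n x y, R n x → R n y → x = y)
    (x : M) (hx : ∀ i : M, i ∈ x → i ∈ κ)
    (hcl : ∀ F : M, FinS κ F → ∃ n d, R n d ∧ Agr x d.1 F) : x ∈ D.carrier := by
  by_contra hx'
  have hR' := @DP.lift₂ _ _ _ _ _ _ _ R hR
  obtain ⟨A, hA⟩ := exists_subset' (M := M) (Γ := El κ × N M)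
    (fun p => ∃ d, R p.2 d ∧ (p.1.1 ∈ x ↔ p.1.1 ∈ d.1)) inferInstance
  have hA' : ∀ (i : M) (n : N M), i ∈ κ →
      (PairIn A i n.1 ↔ ∃ d, R n d ∧ (i ∈ x ↔ i ∈ d.1)) := by
    intro i n hi
    rw [IOmega_pairIn]
    exact hA (⟨i, hi⟩, n)
  have claim : ∀ F m : M, KFin F κ → m ∈ om M →
      ∃ n : M, n ∈ om M ∧ m ∈ n ∧ ∀ i : M, i ∈ F → PairIn A i n := by
    intro F m hF hm
    have hF' : FinS κ F := kfin_iff.1 hF
    obtain ⟨F', h1, h2, h3⟩ := IOmega_far hD hx hx' R hR hfun hF' ⟨m, hm⟩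
    obtain ⟨n, d, hd, ha⟩ := hcl F' h1
    refine ⟨n.1, n.2, ?_, fun i hi => ?_⟩
    · rcases Ordl.tri ordl_om n ⟨m, hm⟩ with h | h | h
      · exact (h3 n (Or.inl h) d hd ha).elim
      · exact (h3 n (Or.inr (by rw [h])) d hd ha).elim
      · exact h
    · rw [hA' i n (hF'.1 i hi)]
      exact ⟨d, hd, ha i (h2 i hi)⟩
  obtain ⟨Z, hZ1, hZ2, hZ3⟩ := hg.pi A claim
  obtain ⟨m, hm⟩ := Sub.cc_incr hD (fun m d => ∃ i : M, i ∈ κ ∧ ¬ (i ∈ d.1 ↔ i ∈ x) ∧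
      ∀ n : M, n ∈ Z → m.1 ∈ n → (Coded.code (i, n) : M) ∈ A) inferInstance
    (by
      rintro n d ⟨i, hi, hid, h⟩
      obtain ⟨F, hF, hiF⟩ := IOmega_sing hi
      refine ⟨F, hF, fun y hy => ⟨i, hi, ?_, h⟩⟩
      rw [← hy i hiF]
      exact hid)
    (by
      rintro n d ⟨i, hi, hid, h⟩
      refine ⟨i, hi, hid, fun n' hn' hnn => h n' hn' ?_⟩
      exact ordl_om.trans' n' (N.succ n).1 n.1 (hZ1 n' hn') hnn ((N.mem_succ n n.1).2 (Or.inr rfl)))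
    (by
      intro d
      obtain ⟨i, hi, hid⟩ := IOmega_diff hD hx hx' d
      obtain ⟨m, hm, h⟩ := hZ3 i hi
      refine ⟨⟨m, hm⟩, i, hi, fun h' => hid h'.symm, fun n hn hmn => ?_⟩
      exact IOmega_pairIn.1 (h n hn hmn))
  obtain ⟨i₀, hi₀, _⟩ := Good.bound hg (finS_empty (κ := κ) (N.not_mem_zero (M := M)))
  obtain ⟨m₁, hm₁, h₁⟩ := hZ3 i₀ hi₀
  obtain ⟨n, hnZ, hmn, hm₁n⟩ : ∃ n : M, n ∈ Z ∧ m.1 ∈ n ∧ m₁ ∈ n := by
    rcases Ordl.tri ordl_om m ⟨m₁, hm₁⟩ with h | h | h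
    · obtain ⟨n, hn, hmn⟩ := hZ2 m₁ hm₁
      exact ⟨n, hn, ordl_om.trans' n m₁ m.1 (hZ1 n hn) hmn h, hmn⟩
    · obtain ⟨n, hn, hmn⟩ := hZ2 m₁ hm₁
      refine ⟨n, hn, ?_, hmn⟩
      rw [h]
      exact hmn
    · obtain ⟨n, hn, hmn⟩ := hZ2 m.1 m.2
      exact ⟨n, hn, hmn, ordl_om.trans' n m.1 m₁ (hZ1 n hn) hmn h⟩
  have hn : n ∈ om M := hZ1 n hnZ
  obtain ⟨d, hd, _⟩ := (hA' i₀ ⟨n, hn⟩ hi₀).1 (h₁ n hnZ hm₁n)
  obtain ⟨i, hi, hid, h⟩ := hm d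
  obtain ⟨d', hd', hd''⟩ := (hA' i ⟨n, hn⟩ hi).1 (IOmega_pairIn.2 (h n hnZ hmn))
  have : d' = d := hfun _ _ _ hd' hd
  subst this
  exact hid hd''.symm

end Pool.Agent.Lib.MP_6b4821_lc
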