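import Pool.Agent.Lib.MP_6b4821_lc.IIdeal
import Pool.Agent.Lib.MP_6b4821_lc.IOmega
import Pool.Agent.Lib.MP_6b4821_lc.ISit
import Pool.Agent.Lib.MP_6b4821_lc.IChoice

/-!
# MP_6b4821_lc: the second case: a compact set of uncountable weight
-/

set_option autoImplicit false
set_option synthInstance.maxSize 100000
set_option synthInstance.maxHeartbeats 400000

namespace Pool.Agent.Lib.MP_6b4821_lc

open Pool.Agent.MP_5db68c_lc Pool.Agent.StarRoth.BV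
open Pool.Agent.Lib.MP_5ed4ef_gt (IsSubspace)

variable {M : Type} [Membership M M] [hM : IsZFC M]

variable {κ R₀ R₁ : M} {D H : TopGroupIn M} {φ : El D.carrier →* El H.carrier}

/-- the finite subset `{i}` -/
theorem caseB_exists_sing {i : M} (hi : i ∈ κ) : ∃ F : M, FinS κ F ∧ ∀ z : M, z ∈ F ↔ z = i := by
  obtain ⟨s, hs⟩ := exists_sing i
  exact ⟨s, ⟨fun z hz => by rw [(hs z).1 hz]; exact hi,
    Pool.Agent.Lib.MP_5ed4ef_gt.finite_sing hs⟩, hs⟩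

/-- The closure `K` of the set of the `d α` is contained in `D`. -/
theorem caseB_closure (hg : Good (om M) κ R₀ R₁) (h : Sub κ D) (d : El κ → El D.carrier)
    (hd : DF M d) (h1 : ∀ (α : El κ) (i : M), i ∈ α.1 → i ∉ (d α).1) (x : M)
    (hx : ∀ i : M, i ∈ x → i ∈ κ)
    (hcl : ∀ F : M, FinS κ F → ∃ α : El κ, Agr x (d α).1 F) : x ∈ D.carrier := by
  have hκ : Ordl κ := hg.ordl
  by_cases hne : ∃ i : M, i ∈ x
  · obtain ⟨i, hi⟩ := hne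
    have hiκ : i ∈ κ := hx i hi
    obtain ⟨F0, hF0, hF0'⟩ := caseB_exists_sing hiκ
    obtain ⟨j, hj, hij⟩ := hg.bound hF0
    have hij : i ∈ j := hij i ((hF0' i).2 rfl)
    obtain ⟨R, hR, hfun, hsurj⟩ := hg.enu hj
    have hR' := @DP.lift₂ _ _ _ _ _ _ _ R hR
    have hd' := @hd.lift₁
    refine h.omega_closed hg (fun n y => ∃ a : El j, R n a ∧ ∃ b : El κ, b.1 = a.1 ∧ y = d b)
      inferInstance ?_ x hx ?_
    · rintro n y z ⟨a, ha, b, hb, rfl⟩ ⟨a', ha', b', hb', rfl⟩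
      have haa : a = a' := hfun _ _ _ ha ha'
      subst haa
      have hbb : b = b' := Subtype.ext (hb.trans hb'.symm)
      rw [hbb]
    · intro F hF
      obtain ⟨F', hF'⟩ := Pool.Agent.Lib.MP_5ed4ef_gt.exists_insert F i
      obtain ⟨α, hα⟩ := hcl F' (hF.insert hiκ hF')
      have hiα : i ∉ α.1 := by
        intro hc
        exact h1 α i hc ((hα i ((hF' i).2 (Or.inr rfl))).1 hi)
      have hαj : α.1 ∈ j := by
        rcases hκ.tri α ⟨i, hiκ⟩ with hc | hc | hc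
        · exact hκ.trans' j i α.1 hj hij hc
        · rw [hc]; exact hij
        · exact (hiα hc).elim
      obtain ⟨n, hn⟩ := hsurj ⟨α.1, hαj⟩
      refine ⟨n, d α, ⟨_, hn, α, rfl, rfl⟩, fun k hk => hα k ((hF' k).2 (Or.inl hk))⟩
  · have : x = (1 : El D.carrier).1 := by
      refine ext' fun z => ⟨fun hz => (hne ⟨z, hz⟩).elim, fun hz => (h.not_mem_one z hz).elim⟩
    rw [this]
    exact (1 : El D.carrier).2

/-- The image of the closure `K` is compact. -/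
theorem caseB_compact (hg : Good (om M) κ R₀ R₁) (h : Sit κ D H φ) (d : El κ → El D.carrier)
    {X K C s : M} (hX : ∀ x : M, x ∈ X ↔ ∀ i : M, i ∈ x → i ∈ κ)
    (hK : ∀ x : M, x ∈ K ↔ x ∈ X ∧ ∀ F : M, FinS κ F → ∃ α : El κ, Agr x (d α).1 F)
    (hKD : ∀ x : M, x ∈ K → x ∈ D.carrier)
    (hC : ∀ y : El H.carrier, y.1 ∈ C ↔ ∃ x : El D.carrier, x.1 ∈ K ∧ φ x = y)
    (hCH : ∀ y : M, y ∈ C → y ∈ H.carrier)
    (hs : IsSubspace H.carrier H.top C s) : IsCompactIn C s := by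
  intro c hc hcov
  have hφ0 : DF M (fun x : El D.carrier => φ x) := h.df
  have hφ := @DF.lift₁ _ _ _ _ _ _ _ hφ0
  have main := pow_ideal hg hX (fun V : M => ∃ c' : M, (∀ U : M, U ∈ c' → U ∈ c) ∧ FiniteIn c' ∧
    ∀ x : El D.carrier, x.1 ∈ V → x.1 ∈ K → ∃ U : M, U ∈ c' ∧ (φ x).1 ∈ U) inferInstance ?_ ?_ ?_
  · obtain ⟨c', h1, h2, h3⟩ := main
    refine ⟨c', h1, h2, fun y hy => ?_⟩
    obtain ⟨x, hxK, hxy⟩ := (hC ⟨y, hCH y hy⟩).1 hy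
    obtain ⟨U, hU, hxU⟩ := h3 x ((hK x.1).1 hxK).1 hxK
    refine ⟨U, hU, ?_⟩
    rw [hxy] at hxU
    exact hxU
  · intro e he
    exact ⟨e, fun U hU => (he U hU).elim, Pool.Agent.Lib.MP_5ed4ef_gt.finite_empty he,
      fun x hx _ => (he _ hx).elim⟩
  · rintro V V' V'' ⟨c₁, h1, h2, h3⟩ ⟨c₂, h1', h2', h3'⟩ hV
    obtain ⟨c₃, hc₃⟩ := Pool.Agent.Lib.MP_5ed4ef_gt.exists_union₂ c₁ c₂
    refine ⟨c₃, fun U hU => ((hc₃ U).1 hU).elim (h1 U) (h1' U),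
      Pool.Agent.Lib.MP_5ed4ef_gt.finite_union h2 h2' hc₃, fun x hx hxK => ?_⟩
    rcases hV x.1 hx with hx' | hx'
    · obtain ⟨U, hU, hxU⟩ := h3 x hx' hxK
      exact ⟨U, (hc₃ U).2 (Or.inl hU), hxU⟩
    · obtain ⟨U, hU, hxU⟩ := h3' x hx' hxK
      exact ⟨U, (hc₃ U).2 (Or.inr hU), hxU⟩
  · intro x hx
    by_cases hxK : x ∈ K
    · have hxC : (φ ⟨x, hKD x hxK⟩).1 ∈ C := (hC _).2 ⟨⟨x, hKD x hxK⟩, hxK, rfl⟩
      obtain ⟨U, hU, hxU⟩ := hcov _ hxC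
      obtain ⟨U', hU', hUU'⟩ := (hs.topology U).1 (hc U hU)
      obtain ⟨F, hF, hcont⟩ := h.cont ⟨x, hKD x hxK⟩ U' hU' ((hUU' _).1 hxU).1
      obtain ⟨V, hV⟩ := exists_el_subset (a := X) (fun y : El X => Agr x y.1 F) inferInstance
      obtain ⟨c', hc'⟩ := exists_sing U
      refine ⟨F, V, hF, fun y => ?_, c', fun W hW => ?_,
        Pool.Agent.Lib.MP_5ed4ef_gt.finite_sing hc', fun y hy hyK => ?_⟩
      · rw [hV]
        exact ⟨fun ⟨h1, h2⟩ => ⟨h1, h2⟩, fun ⟨h1, h2⟩ => ⟨h1, h2⟩⟩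
      · rw [(hc' W).1 hW]; exact hU
      · obtain ⟨_, hag⟩ := (hV y.1).1 hy
        exact ⟨U, (hc' U).2 rfl, (hUU' _).2 ⟨hcont y hag, (hC _).2 ⟨y, hyK, rfl⟩⟩⟩
    · have hex : ∃ F : M, FinS κ F ∧ ¬ ∃ α : El κ, Agr x (d α).1 F := by
        by_contra hcon
        push Not at hcon
        refine hxK ((hK x).2 ⟨hx, fun F hF => ?_⟩)
        obtain ⟨α, hα⟩ := hcon F hF
        exact ⟨α, hα⟩
      obtain ⟨F, hF, hno⟩ := hex
      obtain ⟨V, hV⟩ := exists_el_subset (a := X) (fun y : El X => Agr x y.1 F) inferInstance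
      obtain ⟨e, he⟩ := exists_el_subset (a := X) (fun _ => False) inferInstance
      have he' : ∀ y : M, y ∉ e := fun y hy => by obtain ⟨_, h⟩ := (he y).1 hy; exact h
      refine ⟨F, V, hF, fun y => ?_, e, fun W hW => (he' W hW).elim,
        Pool.Agent.Lib.MP_5ed4ef_gt.finite_empty he', fun y hy hyK => ?_⟩
      · rw [hV]
        exact ⟨fun ⟨h1, h2⟩ => ⟨h1, h2⟩, fun ⟨h1, h2⟩ => ⟨h1, h2⟩⟩
      · obtain ⟨_, hag⟩ := (hV y.1).1 hy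
        obtain ⟨α, hα⟩ := ((hK y.1).1 hyK).2 F hF
        exact (hno ⟨α, fun i hi => (hag i hi).trans (hα i hi)⟩).elim

theorem Sit.caseB (hg : Good (om M) κ R₀ R₁) (h : Sit κ D H φ)
    (hB : ∀ α : M, α ∈ κ → ∃ d : El D.carrier, (∀ i : M, i ∈ α → i ∉ d.1) ∧ φ d ≠ 1) :
    ∃ C s : M, IsSubspace H.carrier H.top C s ∧ IsCompactIn C s ∧
      ∀ b : M, IsBaseIn s b → ¬ Enu b := by
  have hκ : Ordl κ := hg.ordl
  have hφ0 : DF M (fun x : El D.carrier => φ x) := h.df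
  have hφ := @DF.lift₁ _ _ _ _ _ _ _ hφ0
  obtain ⟨d, hd, hdd⟩ := exists_choice (M := M) (Γ := El κ) (Δ := El D.carrier)
    (fun α d => (∀ i : M, i ∈ α.1 → i ∉ d.1) ∧ φ d ≠ 1) inferInstance
    (fun α => hB α.1 α.2)
  have hd' := @hd.lift₁
  obtain ⟨X, hX⟩ := hM.zfc.toModelZF.powerset κ
  obtain ⟨K, hK0⟩ := exists_el_subset (a := X)
    (fun x : El X => ∀ F : M, FinS κ F → ∃ α : El κ, Agr x.1 (d α).1 F) inferInstance
  have hK : ∀ x : M, x ∈ K ↔ x ∈ X ∧ ∀ F : M, FinS κ F → ∃ α : El κ, Agr x (d α).1 F := by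
    intro x
    rw [hK0]
    exact ⟨fun ⟨h1, h2⟩ => ⟨h1, h2⟩, fun ⟨h1, h2⟩ => ⟨h1, h2⟩⟩
  have hKD : ∀ x : M, x ∈ K → x ∈ D.carrier := fun x hx =>
    caseB_closure hg h.sub d hd (fun α => (hdd α).1) x ((hX x).1 ((hK x).1 hx).1) ((hK x).1 hx).2
  obtain ⟨C, hC0⟩ := exists_el_subset (a := H.carrier)
    (fun y : El H.carrier => ∃ x : El D.carrier, x.1 ∈ K ∧ φ x = y) inferInstance
  have hCH : ∀ y : M, y ∈ C → y ∈ H.carrier := fun y hy => ((hC0 y).1 hy).1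
  have hC : ∀ y : El H.carrier, y.1 ∈ C ↔ ∃ x : El D.carrier, x.1 ∈ K ∧ φ x = y := by
    intro y
    rw [hC0]
    exact ⟨fun ⟨_, h2⟩ => h2, fun h2 => ⟨y.2, h2⟩⟩
  obtain ⟨s, hs⟩ := Pool.Agent.Lib.MP_5ed4ef_gt.exists_subspace (t := H.top) hCH
  have hcomp := caseB_compact hg h d hX hK hKD hC hCH hs
  refine ⟨C, s, hs, hcomp, fun b hb hen => ?_⟩
  -- members of the sequence are in `K`
  have hdK : ∀ α : El κ, (d α).1 ∈ K := fun α =>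
    (hK _).2 ⟨(hX _).2 (h.sub.mem _ (d α).2), fun F _ => ⟨α, fun i _ => Iff.rfl⟩⟩
  -- above a finite set the members of the sequence are like `1`
  have habove : ∀ F : M, FinS κ F → ∃ β : El κ, ∀ α : El κ, (α = β ∨ β.1 ∈ α.1) →
      Agr (1 : El D.carrier).1 (d α).1 F := by
    intro F hF
    obtain ⟨β, hβ, hFβ⟩ := hg.bound hF
    refine ⟨⟨β, hβ⟩, fun α hα i hi => ?_⟩
    have hiα : i ∈ α.1 := by
      rcases hα with rfl | hα
      · exact hFβ i hi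
      · exact hκ.trans' _ _ _ α.2 hα (hFβ i hi)
    exact ⟨fun hc => (h.sub.not_mem_one i hc).elim, fun hc => ((hdd α).1 i hiα hc).elim⟩
  have h1K : (1 : El D.carrier).1 ∈ K := by
    refine (hK _).2 ⟨(hX _).2 (h.sub.mem _ (1 : El D.carrier).2), fun F hF => ?_⟩
    obtain ⟨β, hβ⟩ := habove F hF
    exact ⟨β, hβ β (Or.inl rfl)⟩
  have h1C : (1 : El H.carrier).1 ∈ C := (hC _).2 ⟨1, h1K, map_one φ⟩
  -- the relation
  let G : El b → El κ → Prop := fun U β => ∀ α : El κ, (α = β ∨ β.1 ∈ α.1) → (φ (d α)).1 ∈ U.1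
  have hG : DP M (fun p : El b × El κ => G p.1 p.2) := by
    show DP M (fun p : El b × El κ => ∀ α : El κ, (α = p.2 ∨ p.2.1 ∈ α.1) → (φ (d α)).1 ∈ p.1.1)
    infer_instance
  have hG' := @DP.lift₂ _ _ _ _ _ _ _ G hG
  obtain ⟨j, hj⟩ := hg.bound_enu hen
    (fun U β => (1 : El H.carrier).1 ∈ U.1 ∧ G U β ∧ ∀ β' : El κ, G U β' → β = β' ∨ β.1 ∈ β'.1)
    inferInstance (by
      rintro U β β' ⟨_, h1, h2⟩ ⟨_, h3, h4⟩
      rcases h2 β' h3 with h5 | h5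
      · exact h5
      · rcases h4 β h1 with h6 | h6
        · exact h6.symm
        · exact (N.no_cycle _ _ h5 h6).elim)
  -- Hausdorff
  have hne : (1 : El H.carrier).1 ≠ (φ (d j)).1 := fun hc => (hdd j).2 (Subtype.ext hc).symm
  obtain ⟨U₁, V₁, hU₁, hV₁, h1U₁, hjV₁, hdis⟩ := H.hausdorff _ _ (1 : El H.carrier).2
    (φ (d j)).2 hne
  obtain ⟨V, hV⟩ := Pool.Agent.Lib.MP_5ed4ef_gt.exists_inter U₁ C
  have hVs : V ∈ s := (hs.topology V).2 ⟨U₁, hU₁, hV⟩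
  obtain ⟨U, hUb, h1U, hUV⟩ := hb.2 V _ hVs ((hV _).2 ⟨h1U₁, h1C⟩)
  obtain ⟨U', hU', hUU'⟩ := (hs.topology U).1 (hb.1 U hUb)
  have hexG : ∃ β : El κ, G ⟨U, hUb⟩ β := by
    obtain ⟨F, hF, hcont⟩ := h.cont 1 U' hU' (by rw [map_one]; exact ((hUU' _).1 h1U).1)
    obtain ⟨β, hβ⟩ := habove F hF
    exact ⟨β, fun α hα => (hUU' _).2 ⟨hcont (d α) (hβ α hα), (hC _).2 ⟨d α, hdK α, rfl⟩⟩⟩
  obtain ⟨β, hβ, hleast⟩ := hκ.exists_least (fun β : El κ => G ⟨U, hUb⟩ β) inferInstance hexG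
  have hβj : β.1 ∈ j.1 := hj ⟨U, hUb⟩ β ⟨h1U, hβ, hleast⟩
  have := hβ j (Or.inr hβj)
  exact hdis _ ⟨((hV _).1 (hUV _ this)).1, hjV₁⟩

end Pool.Agent.Lib.MP_6b4821_lc
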