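import Pool.Agent.Lib.MP_6b4821_lc.IFin
import Pool.Agent.Lib.MP_5db68c_lc.Reals

/-!
# MP_6b4821_lc: the power set is not metrizable
-/

set_option autoImplicit false
set_option synthInstance.maxSize 100000
set_option synthInstance.maxHeartbeats 400000

namespace Pool.Agent.Lib.MP_6b4821_lc

open Pool.Agent.MP_5db68c_lc Pool.Agent.StarRoth.BV
open Pool.Agent.Lib.MP_5ed4ef_gt (IsSubspace)

variable {M : Type} [Membership M M] [hM : IsZF M]

variable {κ R₀ R₁ : M} {G : TopGroupIn M}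

/-- A sequence of `M` of positive reals converging to `0`. -/
theorem exists_null_seq (K : RealsIn M) :
    ∃ s : N M → El K.carrier, DF M s ∧ (∀ n, 0 < s n) ∧ ∀ ε : El K.carrier, 0 < ε → ∃ n, s n < ε := by
  obtain ⟨s, hs, h0, h1⟩ := exists_rec (M := M) (Γ := El K.carrier) 1 (fun x => x / 2)
    inferInstance
  have hs' := @hs.lift₁
  have hpos : ∀ n, 0 < s n := by
    refine N.induction (M := M) _ inferInstance ?_ ?_
    · rw [h0]; exact one_pos
    · intro n hn; rw [h1]; exact half_pos hn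
  refine ⟨s, hs, hpos, ?_⟩
  obtain ⟨b, hb⟩ := exists_glb (M := M) (K := K) (fun x => ∃ n : N M, s n = x) inferInstance
    ⟨_, N.zero, rfl⟩ ⟨0, by rintro x ⟨n, rfl⟩; exact (hpos n).le⟩
  have key : ∀ c : El K.carrier, b < c → ∃ n, s n < c := by
    intro c hc
    by_contra hcon
    push Not at hcon
    have : c ≤ b := hb.2 (by rintro x ⟨n, rfl⟩; exact hcon n)
    exact absurd hc (not_lt.2 this)
  have hb0 : b ≤ 0 := by
    by_contra hb0
    push Not at hb0
    obtain ⟨n, hn⟩ := key (b + b) (by simpa using hb0)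
    have h2 : b ≤ s (N.succ n) := hb.1 ⟨N.succ n, rfl⟩
    rw [h1] at h2
    have h3 : s n / 2 < b := by
      rw [div_lt_iff₀ (by norm_num : (0 : El K.carrier) < 2)]
      linarith
    exact absurd h3 (not_lt.2 h2)
  exact fun ε hε => key ε (lt_of_le_of_lt hb0 hε)

theorem IsPow.not_metrizable (hg : Good (om M) κ R₀ R₁) (hG : IsPow κ G) :
    ¬ Metrizable G.carrier G.top := by
  rintro ⟨K, d, hd, hind⟩
  obtain ⟨s, hs, hpos, hnull⟩ := exists_null_seq K
  have hs' := @hs.lift₁
  have hd0 : DF M (fun p : El G.carrier × El G.carrier => d p.1 p.2) := FunIn₂.DF hd.mem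
  have hd' := @DF.lift₂ M _ hM _ _ _ _ _ _ d hd0
  have hκ := hg.ordl
  -- the empty set
  have ho : (N.zero : N M).1 ∈ G.carrier := by
    rw [hG.mem]
    intro i hi
    exact (N.not_mem_zero _ hi).elim
  let o : El G.carrier := ⟨_, ho⟩
  have hoe : ∀ z : M, z ∉ o.1 := N.not_mem_zero
  -- the balls
  have step : ∀ n : N M, ∃ j : El κ, ∀ (i : El κ) (x : El G.carrier), (i = j ∨ j.1 ∈ i.1) →
      (∀ z : M, z ∈ x.1 ↔ z = i.1) → d o x < s n := by
    intro n
    obtain ⟨V, hV⟩ := exists_el_subset (M := M) (a := G.carrier) (fun y => d o y < s n)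
      inferInstance
    have hVt : V ∈ G.top := by
      rw [hind]
      refine ⟨fun x hx => ((hV x).1 hx).1, ?_⟩
      intro x hx
      obtain ⟨_, hx'⟩ := (hV x.1).1 hx
      refine ⟨s n - d o x, sub_pos.2 hx', fun y hy => ?_⟩
      rw [hV]
      refine ⟨y.2, ?_⟩
      have h1 := hd.triangle o y x
      show d o y < s n
      linarith
    have hoV : o.1 ∈ V := by
      rw [hV]
      refine ⟨o.2, ?_⟩
      show d o o < s n
      rw [hd.self]
      exact hpos n
    obtain ⟨F, hF, hFV⟩ := ((hG.top V).1 hVt).2 o.1 hoV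
    obtain ⟨j, hj, hjF⟩ := hg.bound hF
    refine ⟨⟨j, hj⟩, ?_⟩
    intro i x hi hx
    have hxV : x.1 ∈ V := by
      apply hFV x.1 x.2
      intro z hz
      constructor
      · intro h; exact (hoe z h).elim
      · intro h
        rw [hx] at h
        subst h
        have h2 := hjF _ hz
        rcases hi with hi | hi
        · rw [hi] at h2
          exact (N.no_cycle _ _ h2 h2).elim
        · exact (N.no_cycle _ _ h2 hi).elim
    obtain ⟨_, h⟩ := (hV x.1).1 hxV
    exact h
  let Q : N M → El κ → Prop := fun n j => ∀ (i : El κ) (x : El G.carrier), (i = j ∨ j.1 ∈ i.1) →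
      (∀ z : M, z ∈ x.1 ↔ z = i.1) → d o x < s n
  have hQ : DP M (fun p : N M × El κ => Q p.1 p.2) := by
    show DP M (fun p : N M × El κ => ∀ (i : El κ) (x : El G.carrier), (i = p.2 ∨ p.2.1 ∈ i.1) →
      (∀ z : M, z ∈ x.1 ↔ z = i.1) → d o x < s p.1)
    infer_instance
  have hQ' := @DP.lift₂ M _ hM _ _ _ _ Q hQ
  have hleast : ∀ n : N M, ∃ j : El κ, Q n j ∧ ∀ k, Q n k → j = k ∨ j.1 ∈ k.1 := by
    intro n
    exact hκ.exists_least (Q n) inferInstance (step n)
  obtain ⟨j, hj⟩ := hg.bound_seq (fun n j => Q n j ∧ ∀ k, Q n k → j = k ∨ j.1 ∈ k.1)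
    inferInstance (by
      intro n x y hx hy
      rcases hx.2 y hy.1 with h | h
      · exact h
      rcases hy.2 x hx.1 with h' | h'
      · exact h'.symm
      exact (N.no_cycle _ _ h h').elim)
  -- the singleton
  obtain ⟨a, ha⟩ := exists_sing j.1
  have haG : a ∈ G.carrier := by
    rw [hG.mem]
    intro i hi
    rw [ha] at hi
    rw [hi]
    exact j.2
  have hlt : ∀ n, d o ⟨a, haG⟩ < s n := by
    intro n
    obtain ⟨k, hk, hk'⟩ := hleast n
    exact hk j ⟨a, haG⟩ (Or.inr (hj n k ⟨hk, hk'⟩)) ha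
  have hzero : d o ⟨a, haG⟩ = 0 := by
    by_contra hne
    have hp : 0 < d o ⟨a, haG⟩ := lt_of_le_of_ne (hd.nonneg _ _) (Ne.symm hne)
    obtain ⟨n, hn⟩ := hnull _ hp
    exact absurd (hlt n) (not_lt.2 hn.le)
  have heq := hd.eq_of_zero _ _ hzero
  apply hoe j.1
  rw [heq]
  exact (ha j.1).2 rfl

end Pool.Agent.Lib.MP_6b4821_lc
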