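import Pool.Agent.Lib.MP_6b4821_lc.ISetup

/-!
# MP_6b4821_lc: the group of all subsets of an ordinal
-/

set_option autoImplicit false
set_option synthInstance.maxSize 100000
set_option synthInstance.maxHeartbeats 400000

namespace Pool.Agent.Lib.MP_6b4821_lc

open Pool.Agent.MP_5db68c_lc Pool.Agent.StarRoth.BV
open Pool.Agent.Lib.MP_5ed4ef_gt (IsSubspace exists_union₂ finite_union finite_empty finite_sing)

variable {M : Type} [Membership M M] [hM : IsZF M]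

variable {κ R₀ R₁ : M} {G : TopGroupIn M}

theorem pow_agr_refl (x F : M) : Agr x x F := fun _ _ => Iff.rfl

theorem pow_finS_empty (κ : M) : ∃ F : M, FinS κ F := by
  obtain ⟨e, he⟩ := exists_el_subset (a := κ) (fun _ => False) inferInstance
  have he' : ∀ y : M, y ∉ e := fun y hy => by obtain ⟨_, h⟩ := (he y).1 hy; exact h
  exact ⟨e, fun i hi => (he' i hi).elim, finite_empty he'⟩

theorem pow_finS_union {κ F F' : M} (h : FinS κ F) (h' : FinS κ F') :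
    ∃ F'' : M, FinS κ F'' ∧ ∀ i : M, i ∈ F'' ↔ i ∈ F ∨ i ∈ F' := by
  obtain ⟨c, hc⟩ := exists_union₂ F F'
  exact ⟨c, ⟨fun i hi => ((hc i).1 hi).elim (h.1 i) (h'.1 i), finite_union h.2 h'.2 hc⟩, hc⟩

theorem pow_finS_sing {κ i : M} (h : i ∈ κ) : ∃ F : M, FinS κ F ∧ i ∈ F := by
  obtain ⟨s, hs⟩ := exists_sing i
  exact ⟨s, ⟨fun j hj => by rw [(hs j).1 hj]; exact h, finite_sing hs⟩, (hs i).2 rfl⟩

theorem exists_pow (κ : M) : ∃ G : TopGroupIn M, IsPow κ G := by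
  classical
  obtain ⟨X, hX⟩ := hM.zf.powerset κ
  obtain ⟨P, hP⟩ := hM.zf.powerset X
  obtain ⟨t, ht0⟩ := exists_el_subset (a := P) (fun U : El P => ∀ x : M, x ∈ U.1 →
    ∃ F : M, FinS κ F ∧ ∀ y : M, y ∈ X → Agr x y F → y ∈ U.1) inferInstance
  have ht : ∀ U : M, U ∈ t ↔ (∀ x : M, x ∈ U → x ∈ X) ∧
      ∀ x : M, x ∈ U → ∃ F : M, FinS κ F ∧ ∀ y : M, y ∈ X → Agr x y F → y ∈ U := by
    intro U
    rw [ht0]
    constructor
    · rintro ⟨h1, h2⟩
      exact ⟨(hP U).1 h1, h2⟩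
    · rintro ⟨h1, h2⟩
      exact ⟨(hP U).2 h1, h2⟩
  -- the multiplication
  have hf0 : ∀ x y : El X, ∃ z : El X, ∀ i : M, i ∈ z.1 ↔ ¬ (i ∈ x.1 ↔ i ∈ y.1) := by
    intro x y
    obtain ⟨z, hz⟩ := exists_el_subset (a := κ) (fun i : El κ => ¬ (i.1 ∈ x.1 ↔ i.1 ∈ y.1))
      inferInstance
    refine ⟨⟨z, (hX z).2 fun i hi => ((hz i).1 hi).1⟩, fun i => ?_⟩
    rw [hz]
    constructor
    · rintro ⟨_, h⟩; exact h
    · intro h
      have hi : i ∈ κ := by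
        by_cases hx : i ∈ x.1
        · exact (hX x.1).1 x.2 i hx
        · by_cases hy : i ∈ y.1
          · exact (hX y.1).1 y.2 i hy
          · exact (h ⟨fun h' => (hx h').elim, fun h' => (hy h').elim⟩).elim
      exact ⟨hi, h⟩
  choose f hf using hf0
  obtain ⟨e, he0⟩ := exists_el_subset (a := κ) (fun _ => False) inferInstance
  have he : ∀ y : M, y ∉ e := fun y hy => by obtain ⟨_, h⟩ := (he0 y).1 hy; exact h
  have heX : e ∈ X := (hX e).2 fun i hi => (he i hi).elim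
  let m : Mul (El X) := ⟨f⟩
  let v : Inv (El X) := ⟨fun x => x⟩
  let o : One (El X) := ⟨⟨e, heX⟩⟩
  have hext : ∀ x y : El X, (∀ i : M, i ∈ x.1 ↔ i ∈ y.1) → x = y :=
    fun x y h => Subtype.ext (ext' h)
  have hm : ∀ (x y : El X) (i : M), i ∈ (x * y).1 ↔ ¬ (i ∈ x.1 ↔ i ∈ y.1) := hf
  have ho : ∀ i : M, i ∉ (1 : El X).1 := he
  have hv : ∀ x : El X, x⁻¹ = x := fun _ => rfl
  have ha : ∀ a b c : El X, a * b * c = a * (b * c) := by
    intro a b c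
    apply hext
    intro i
    rw [hm, hm, hm, hm]
    tauto
  have h1 : ∀ a : El X, 1 * a = a := by
    intro a
    apply hext
    intro i
    rw [hm]
    have := ho i
    tauto
  have h2 : ∀ a : El X, a⁻¹ * a = 1 := by
    intro a
    apply hext
    intro i
    rw [hm, hv]
    have := ho i
    tauto
  let g : Group (El X) := Group.ofLeftAxioms ha h1 h2
  have hcont : ∀ (x y : El X) (W : M), W ∈ t → (x * y⁻¹).1 ∈ W →
      ∃ U V : M, U ∈ t ∧ V ∈ t ∧ x.1 ∈ U ∧ y.1 ∈ V ∧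
        ∀ a b : El X, a.1 ∈ U → b.1 ∈ V → (a * b⁻¹).1 ∈ W := by
    intro x y W hW hxy
    obtain ⟨F, hF, hFW⟩ := ((ht W).1 hW).2 _ hxy
    have hnb : ∀ x : El X, ∃ U : M, U ∈ t ∧ x.1 ∈ U ∧ ∀ a : M, a ∈ U → Agr x.1 a F := by
      intro x
      obtain ⟨U, hU⟩ := exists_el_subset (a := X) (fun a : El X => Agr x.1 a.1 F) inferInstance
      refine ⟨U, ?_, (hU _).2 ⟨x.2, pow_agr_refl _ _⟩, fun a ha => ((hU a).1 ha).2⟩
      rw [ht]
      refine ⟨fun a ha => ((hU a).1 ha).1, fun a ha => ⟨F, hF, fun b hb hab => ?_⟩⟩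
      obtain ⟨_, h⟩ := (hU a).1 ha
      exact (hU b).2 ⟨hb, fun i hi => (h i hi).trans (hab i hi)⟩
    obtain ⟨U, hU, hxU, hU'⟩ := hnb x
    obtain ⟨V, hV, hyV, hV'⟩ := hnb y
    refine ⟨U, V, hU, hV, hxU, hyV, fun a b ha hb => hFW _ (a * b⁻¹).2 ?_⟩
    intro i hi
    have e1 := hU' _ ha i hi
    have e2 := hV' _ hb i hi
    rw [hm, hm, hv, hv, e1, e2]
  refine ⟨⟨X, t, ?_, ?_, ?_, hcont⟩, ⟨hX, ht, hm⟩⟩
  · -- the multiplication is in `M`
    refine FunIn₂.of_DF (f := fun x y : El X => x * y) ?_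
    refine DF.of_rel (M := M) (R := fun (p : El X × El X) (z : El X) =>
      ∀ i : M, i ∈ z.1 ↔ ¬ (i ∈ p.1.1 ↔ i ∈ p.2.1)) inferInstance (fun p => hm p.1 p.2) ?_
    intro p z z' hz hz'
    exact hext z z' fun i => (hz i).trans (hz' i).symm
  · refine ⟨fun U hU => ((ht U).1 hU).1, ?_, ?_, ?_⟩
    · rw [ht]
      obtain ⟨F, hF⟩ := pow_finS_empty κ
      exact ⟨fun x hx => hx, fun x _ => ⟨F, hF, fun y hy _ => hy⟩⟩
    · intro U V W hU hV hW
      rw [ht] at hU hV ⊢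
      refine ⟨fun x hx => hU.1 x ((hW x).1 hx).1, fun x hx => ?_⟩
      obtain ⟨F, hF, h3⟩ := hU.2 x ((hW x).1 hx).1
      obtain ⟨F', hF', h4⟩ := hV.2 x ((hW x).1 hx).2
      obtain ⟨F'', hF'', h5⟩ := pow_finS_union hF hF'
      refine ⟨F'', hF'', fun y hy hxy => (hW y).2 ⟨h3 y hy fun i hi => ?_, h4 y hy fun i hi => ?_⟩⟩
      · exact hxy i ((h5 i).2 (Or.inl hi))
      · exact hxy i ((h5 i).2 (Or.inr hi))
    · intro s W hs hW
      rw [ht]
      refine ⟨fun x hx => ?_, fun x hx => ?_⟩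
      · obtain ⟨U, hU, hxU⟩ := (hW x).1 hx
        exact ((ht U).1 (hs U hU)).1 x hxU
      · obtain ⟨U, hU, hxU⟩ := (hW x).1 hx
        obtain ⟨F, hF, h3⟩ := ((ht U).1 (hs U hU)).2 x hxU
        exact ⟨F, hF, fun y hy hxy => (hW y).2 ⟨U, hU, h3 y hy hxy⟩⟩
  · -- Hausdorff
    intro x y hx hy hne
    have hi : ∃ i : M, ¬ (i ∈ x ↔ i ∈ y) := by
      by_contra hcon
      push Not at hcon
      exact hne (ext' hcon)
    obtain ⟨i, hi⟩ := hi
    have hik : i ∈ κ := by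
      by_cases hix : i ∈ x
      · exact (hX x).1 hx i hix
      · by_cases hiy : i ∈ y
        · exact (hX y).1 hy i hiy
        · exact (hi ⟨fun h' => (hix h').elim, fun h' => (hiy h').elim⟩).elim
    obtain ⟨F, hF, hiF⟩ := pow_finS_sing hik
    have hnb : ∀ x : M, x ∈ X → ∃ U : M, U ∈ t ∧ x ∈ U ∧ ∀ a : M, a ∈ U → (i ∈ x ↔ i ∈ a) := by
      intro x hx
      obtain ⟨U, hU⟩ := exists_el_subset (a := X) (fun a : El X => (i ∈ x ↔ i ∈ a.1))
        inferInstance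
      refine ⟨U, ?_, (hU _).2 ⟨hx, Iff.rfl⟩, fun a ha => ((hU a).1 ha).2⟩
      rw [ht]
      refine ⟨fun a ha => ((hU a).1 ha).1, fun a ha => ⟨F, hF, fun b hb hab => ?_⟩⟩
      obtain ⟨_, h⟩ := (hU a).1 ha
      exact (hU b).2 ⟨hb, Iff.trans h (hab i hiF)⟩
    obtain ⟨U, hU, hxU, hU'⟩ := hnb x hx
    obtain ⟨V, hV, hyV, hV'⟩ := hnb y hy
    refine ⟨U, V, hU, hV, hxU, hyV, fun z hz => hi ?_⟩
    exact (hU' z hz.1).trans (hV' z hz.2).symm

theorem IsPow.comm (hG : IsPow κ G) (x y : El G.carrier) : x * y = y * x := by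
  refine Subtype.ext (ext' fun i => ?_)
  rw [hG.mul, hG.mul]
  tauto

end Pool.Agent.Lib.MP_6b4821_lc
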