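import Pool.Agent.Lib.MP_6b4821_lc.IChoice

/-!
# MP_6b4821_lc: cardinalities and weights
-/

set_option autoImplicit false
set_option synthInstance.maxSize 100000
set_option synthInstance.maxHeartbeats 400000

namespace Pool.Agent.Lib.MP_6b4821_lc

open Pool.Agent.MP_5db68c_lc Pool.Agent.StarRoth.BV
open Pool.Agent.Lib.MP_5ed4ef_gt (IsSubspace)

variable {M : Type} [Membership M M] [hM : IsZFC M]

variable {a b c X t C s : M}

theorem CardLE.trans (h : CardLE a b) (h' : CardLE b c) : CardLE a c := by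
  obtain ⟨f, hf, hf'⟩ := h
  obtain ⟨g, hg, hg'⟩ := h'
  exact ⟨fun x => g (f x), FunIn.of_DF (DF.comp (FunIn.DF hg) (FunIn.DF hf)), hg'.comp hf'⟩

theorem CardLE.refl (a : M) : CardLE a a :=
  ⟨fun x => x, FunIn.of_DF inferInstance, Function.injective_id⟩

theorem WeightLE.refl (t : M) : WeightLE t t := fun b hb => ⟨b, hb, CardLE.refl b⟩

theorem CardLE.of_rel (R : El a → El b → Prop) (hR : DP M (fun p : El a × El b => R p.1 p.2))
    (h : ∀ x, ∃ y, R x y) (hinj : ∀ x x' y, R x y → R x' y → x = x') : CardLE a b := by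
  obtain ⟨f, hf, hf'⟩ := exists_choice R hR h
  refine ⟨f, FunIn.of_DF hf, fun x x' hx => hinj x x' (f x) (hf' x) ?_⟩
  rw [hx]
  exact hf' x'

theorem weightLE_of_subspace (h : IsSubspace X t C s) : WeightLE s t := by
  intro b hb
  obtain ⟨a, ha⟩ := exists_el_subset (M := M) (a := s)
    (fun V : El s => ∃ U : El b, ∀ x : M, x ∈ V.1 ↔ x ∈ U.1 ∧ x ∈ C) inferInstance
  refine ⟨a, ⟨fun U hU => ((ha U).1 hU).1, fun U x hU hx => ?_⟩, ?_⟩
  · obtain ⟨U', hU', h1⟩ := (h.topology U).1 hU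
    have hxU := (h1 x).1 hx
    obtain ⟨V, hV, hxV, hVU⟩ := hb.2 U' x hU' hxU.1
    obtain ⟨V', hV'⟩ := exists_el_subset (M := M) (a := V) (fun y : El V => y.1 ∈ C) inferInstance
    have hV'' : ∀ y : M, y ∈ V' ↔ y ∈ V ∧ y ∈ C := fun y => by
      rw [hV']
      exact ⟨fun ⟨h1, h2⟩ => ⟨h1, h2⟩, fun ⟨h1, h2⟩ => ⟨h1, h2⟩⟩
    have hs : V' ∈ s := (h.topology V').2 ⟨V, hb.1 V hV, hV''⟩
    refine ⟨V', (ha V').2 ⟨hs, ⟨V, hV⟩, hV''⟩, (hV'' x).2 ⟨hxV, hxU.2⟩, fun y hy => ?_⟩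
    have := (hV'' y).1 hy
    exact (h1 y).2 ⟨hVU y this.1, this.2⟩
  · refine CardLE.of_rel (fun (V : El a) (U : El b) => ∀ x : M, x ∈ V.1 ↔ x ∈ U.1 ∧ x ∈ C)
      inferInstance (fun V => ?_) (fun V V' U h1 h2 => ?_)
    · obtain ⟨_, U, hU⟩ := (ha V.1).1 V.2
      exact ⟨U, hU⟩
    · exact Subtype.ext (ext' fun x => by rw [h1, h2])

end Pool.Agent.Lib.MP_6b4821_lc
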