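import Pool.Agent.Lib.MP_6b4821_lc.IExt
import Pool.Agent.Lib.MP_6b4821_lc.ISit
import Pool.Agent.Lib.MP_6b4821_lc.IFin
import Pool.Agent.Lib.MP_6b4821_lc.ICard

/-!
# MP_6b4821_lc: the weight of the image
-/

set_option autoImplicit false
set_option synthInstance.maxSize 100000
set_option synthInstance.maxHeartbeats 400000

namespace Pool.Agent.Lib.MP_6b4821_lc

open Pool.Agent.MP_5db68c_lc Pool.Agent.StarRoth.BV
open Pool.Agent.Lib.MP_5ed4ef_gt (IsSubspace)

section

variable {M : Type} [Membership M M] [hM : IsZF M]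

variable {κ R₀ R₁ : M} {D H : TopGroupIn M} {φ : El D.carrier →* El H.carrier}

/-- `h` is in the closure of the image of the set of the `d` with a property. -/
def iwCl (φ : El D.carrier →* El H.carrier) (Q : El D.carrier → Prop) (h : El H.carrier) : Prop :=
  ∀ U : M, U ∈ H.top → h.1 ∈ U → ∃ d : El D.carrier, Q d ∧ (φ d).1 ∈ U

omit hM in
theorem iwCl_congr {Q Q' : El D.carrier → Prop} (h : ∀ d, Q d ↔ Q' d) (x : El H.carrier) :
    iwCl φ Q x ↔ iwCl φ Q' x := by
  have : Q = Q' := funext fun d => propext (h d)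
  rw [this]

theorem DP_iwCl_agr (hφ : DF M (fun x : El D.carrier => φ x)) :
    DP M (fun p : M × El H.carrier => iwCl φ (fun d => ∀ i : M, i ∈ p.1 → i ∉ d.1) p.2) := by
  have hφ' := @hφ.lift₁
  unfold iwCl
  infer_instance

/-- the set coded by `j` -/
def iwE (R₀ R₁ j : M) (d : El D.carrier) : Prop :=
  (∀ x : M, PairIn R₀ j x → x ∈ d.1) ∧ ∀ x : M, PairIn R₁ j x → x ∉ d.1

theorem DP_iwCl_code (hφ : DF M (fun x : El D.carrier => φ x)) :
    DP M (fun p : M × El H.carrier => iwCl φ (fun d => iwE R₀ R₁ p.1 d) p.2) := by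
  have hφ' := @hφ.lift₁
  unfold iwCl iwE PairIn IsPair
  infer_instance

theorem iwCl_iff (Q : El D.carrier → Prop) (h : El H.carrier) :
    iwCl φ Q h ↔ h ∈ @closure _ (extTop H.carrier H.top) (φ '' {d | Q d}) := by
  let : TopologicalSpace (El H.carrier) := extTop H.carrier H.top
  rw [mem_closure_iff]
  constructor
  · intro hh o ho hho
    obtain ⟨U, hU, hhU, hsub⟩ := (extTop_isOpen_iff H.topology o).1 ho h hho
    obtain ⟨d, hd, hdU⟩ := hh U hU hhU
    exact ⟨φ d, hsub _ hdU, d, hd, rfl⟩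
  · intro hh U hU hhU
    have ho : IsOpen {x : El H.carrier | x.1 ∈ U} :=
      TopologicalSpace.isOpen_generateFrom_of_mem ⟨U, hU, rfl⟩
    obtain ⟨y, hy, d, hd, rfl⟩ := hh _ ho hhU
    exact ⟨d, hd, hy⟩

/-- the subgroup of the elements which do not meet `F` -/
def iwN (hD : Sub κ D) (F : M) : Subgroup (El D.carrier) where
  carrier := {d | ∀ i : M, i ∈ F → i ∉ d.1}
  mul_mem' := by
    intro a b ha hb i hi hab
    rw [hD.mul] at hab
    exact hab ⟨fun h => (ha i hi h).elim, fun h => (hb i hi h).elim⟩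
  one_mem' := fun i _ => hD.not_mem_one i
  inv_mem' := by
    intro a ha
    have : a⁻¹ = a := inv_eq_of_mul_eq_one_left (hD.mul_self a)
    rw [this]
    exact ha

theorem mem_iwN (hD : Sub κ D) {F : M} {d : El D.carrier} :
    d ∈ iwN hD F ↔ ∀ i : M, i ∈ F → i ∉ d.1 := Iff.rfl

/-- The closure of the image of the subgroup given by a finite set is open. -/
theorem iwS_open (h : Sit κ D H φ) (F : M) (hF : FinS κ F) :
    @IsOpen _ (extTop H.carrier H.top)
      (@closure _ (extTop H.carrier H.top) (φ '' {d | ∀ i : M, i ∈ F → i ∉ d.1})) := by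
  let : TopologicalSpace (El H.carrier) := extTop H.carrier H.top
  have : IsTopologicalGroup (El H.carrier) := extTop_group H
  have hclN0 := DP_iwCl_agr (M := M) (D := D) (H := H) (φ := φ) h.df
  have hclN := @DP.lift₂ _ _ _ _ _ _ _
    (fun (F : M) (x : El H.carrier) => iwCl φ (fun d => ∀ i : M, i ∈ F → i ∉ d.1) x) hclN0
  have key : ∀ F : M, FinS κ F → ∀ x : El H.carrier,
      iwCl φ (fun d => ∀ i : M, i ∈ F → i ∉ d.1) x →
      ∃ U : M, U ∈ H.top ∧ x.1 ∈ U ∧ ∀ y : El H.carrier, y.1 ∈ U →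
        iwCl φ (fun d => ∀ i : M, i ∈ F → i ∉ d.1) y := by
    refine FinS.induction _ inferInstance ?_ ?_
    · intro e he x _
      refine ⟨H.carrier, H.topology.whole, x.2, fun y _ => ?_⟩
      intro U _ hyU
      obtain ⟨d, hd⟩ := h.surj y
      exact ⟨d, fun i hi => (he i hi).elim, by rw [hd]; exact hyU⟩
    · intro F i F' _ hP _ hF'
      set S : Subgroup (El H.carrier) := ((iwN h.sub F).map φ).topologicalClosure with hS
      set S' : Subgroup (El H.carrier) := ((iwN h.sub F').map φ).topologicalClosure with hS'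
      have hSmem : ∀ x, x ∈ S ↔ iwCl φ (fun d => ∀ i : M, i ∈ F → i ∉ d.1) x := fun x => by
        rw [iwCl_iff]; rfl
      have hSmem' : ∀ x, x ∈ S' ↔ iwCl φ (fun d => ∀ i : M, i ∈ F' → i ∉ d.1) x := fun x => by
        rw [iwCl_iff]; rfl
      have hSopen : IsOpen (S : Set (El H.carrier)) := by
        rw [extTop_isOpen_iff H.topology]
        intro x hx
        obtain ⟨U, hU, hxU, hsub⟩ := hP x ((hSmem x).1 hx)
        exact ⟨U, hU, hxU, fun y hy => (hSmem y).2 (hsub y hy)⟩
      have hS'closed : IsClosed (S' : Set (El H.carrier)) :=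
        Subgroup.isClosed_topologicalClosure _
      have hN'S' : ∀ d, d ∈ iwN h.sub F' → φ d ∈ S' := fun d hd =>
        Subgroup.le_topologicalClosure _ ⟨d, hd, rfl⟩
      have hS'open : IsOpen (S' : Set (El H.carrier)) := by
        have h1S : (1 : El H.carrier) ∈ (S : Set (El H.carrier)) := S.one_mem
        by_cases hd1 : ∃ d₁ : El D.carrier, d₁ ∈ iwN h.sub F ∧ i ∈ d₁.1
        · obtain ⟨d₁, hd₁, hid₁⟩ := hd1
          have hinv : d₁⁻¹ = d₁ := inv_eq_of_mul_eq_one_left (h.sub.mul_self d₁)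
          have hcov : (S : Set (El H.carrier)) ⊆
              (S' : Set (El H.carrier)) ∪ {x | φ d₁ * x ∈ S'} := by
            have hcl : IsClosed ((S' : Set (El H.carrier)) ∪ {x | φ d₁ * x ∈ S'}) :=
              hS'closed.union (hS'closed.preimage (continuous_const_mul (φ d₁)))
            refine closure_minimal ?_ hcl
            rintro _ ⟨d, hd, rfl⟩
            by_cases hid : i ∈ d.1
            · right
              change φ d₁ * φ d ∈ S'
              rw [← map_mul]
              apply hN'S'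
              intro k hk hkd
              rw [h.sub.mul] at hkd
              rcases (hF' k).1 hk with hk | rfl
              · exact hkd ⟨fun h' => (hd₁ k hk h').elim, fun h' => (hd k hk h').elim⟩
              · exact hkd ⟨fun _ => hid, fun _ => hid₁⟩
            · left
              apply hN'S'
              intro k hk
              rcases (hF' k).1 hk with hk | rfl
              · exact hd k hk
              · exact hid
          by_cases hφ : φ d₁ ∈ S'
          · apply Subgroup.isOpen_of_mem_nhds (g := 1)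
            refine Filter.mem_of_superset (hSopen.mem_nhds h1S) fun x hx => ?_
            rcases hcov hx with hx | hx
            · exact hx
            · have := S'.mul_mem (S'.inv_mem hφ) hx
              rwa [inv_mul_cancel_left] at this
          · apply Subgroup.isOpen_of_mem_nhds (g := 1)
            have hcl : IsClosed {x | φ d₁ * x ∈ S'} :=
              hS'closed.preimage (continuous_const_mul (φ d₁))
            have h1 : (1 : El H.carrier) ∉ {x | φ d₁ * x ∈ S'} := by
              intro h1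
              apply hφ
              have h2 : φ d₁ * 1 ∈ S' := h1
              rwa [mul_one] at h2
            refine Filter.mem_of_superset
              (Filter.inter_mem (hSopen.mem_nhds h1S) (hcl.isOpen_compl.mem_nhds h1)) ?_
            rintro x ⟨hx, hx'⟩
            exact (hcov hx).resolve_right hx'
        · have hSS' : (S : Set (El H.carrier)) ⊆ S' := by
            refine closure_minimal ?_ hS'closed
            rintro _ ⟨d, hd, rfl⟩
            apply hN'S'
            intro k hk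
            rcases (hF' k).1 hk with hk | rfl
            · exact hd k hk
            · exact fun h' => hd1 ⟨d, hd, h'⟩
          exact Subgroup.isOpen_of_mem_nhds (g := 1) _
            (Filter.mem_of_superset (hSopen.mem_nhds h1S) hSS')
      intro x hx
      obtain ⟨U, hU, hxU, hsub⟩ := (extTop_isOpen_iff H.topology _).1 hS'open x ((hSmem' x).2 hx)
      exact ⟨U, hU, hxU, fun y hy => (hSmem' y).1 (hsub y hy)⟩
  rw [extTop_isOpen_iff H.topology]
  intro x hx
  obtain ⟨U, hU, hxU, hsub⟩ := key F hF x ((iwCl_iff _ x).2 hx)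
  exact ⟨U, hU, hxU, fun y hy => (iwCl_iff _ y).1 (hsub y hy)⟩

/-- The closure of the image of a basic open set is open. -/
theorem iwT_open (h : Sit κ D H φ) (F : M) (hF : FinS κ F) (d₀ : El D.carrier) :
    @IsOpen _ (extTop H.carrier H.top)
      (@closure _ (extTop H.carrier H.top) (φ '' {d | Agr d₀.1 d.1 F})) := by
  let : TopologicalSpace (El H.carrier) := extTop H.carrier H.top
  have : IsTopologicalGroup (El H.carrier) := extTop_group H
  have h1 := iwS_open h F hF
  have hset : φ '' {d | Agr d₀.1 d.1 F} =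
      (Homeomorph.mulLeft (φ d₀)) '' (φ '' {d | ∀ i : M, i ∈ F → i ∉ d.1}) := by
    ext y
    constructor
    · rintro ⟨d, hd, rfl⟩
      refine ⟨φ (d₀ * d), ⟨d₀ * d, ?_, rfl⟩, ?_⟩
      · intro i hi hid
        rw [h.sub.mul] at hid
        exact hid (hd i hi)
      · change φ d₀ * φ (d₀ * d) = φ d
        rw [← map_mul, ← mul_assoc, h.sub.mul_self, one_mul]
    · rintro ⟨_, ⟨d, hd, rfl⟩, rfl⟩
      refine ⟨d₀ * d, ?_, map_mul φ d₀ d⟩
      intro i hi
      rw [h.sub.mul]
      have := hd i hi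
      tauto
  rw [hset, ← Homeomorph.image_closure]
  exact (Homeomorph.mulLeft (φ d₀)).isOpenMap _ h1

/-- Every pair of finite sets is coded. -/
theorem iw_exists_code (hg : Good (om M) κ R₀ R₁) (F : M) (hF : FinS κ F) (d : M) :
    ∃ j : M, j ∈ κ ∧ ∀ x : M, (PairIn R₀ j x ↔ x ∈ F ∧ x ∈ d) ∧
      (PairIn R₁ j x ↔ x ∈ F ∧ x ∉ d) := by
  refine FinS.induction (κ := κ) (fun F => ∃ j : M, j ∈ κ ∧ ∀ x : M,
    (PairIn R₀ j x ↔ x ∈ F ∧ x ∈ d) ∧ (PairIn R₁ j x ↔ x ∈ F ∧ x ∉ d)) ?_ ?_ ?_ F hF
  · unfold PairIn IsPair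
    infer_instance
  · intro e he
    obtain ⟨j, hj, hx⟩ := hg.code0
    exact ⟨j, hj, fun x => ⟨⟨fun h => ((hx x).1 h).elim, fun h => (he x h.1).elim⟩,
      ⟨fun h => ((hx x).2 h).elim, fun h => (he x h.1).elim⟩⟩⟩
  · rintro F i F' _ ⟨j, hj, hx⟩ hi hF'
    by_cases hid : i ∈ d
    · obtain ⟨k, hk, hx'⟩ := hg.code1 j i hj hi
      refine ⟨k, hk, fun x => ⟨?_, ?_⟩⟩
      · rw [(hx' x).1, (hx x).1, hF']
        constructor
        · rintro (h | rfl)
          · exact ⟨Or.inl h.1, h.2⟩
          · exact ⟨Or.inr rfl, hid⟩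
        · rintro ⟨h | rfl, h'⟩
          · exact Or.inl ⟨h, h'⟩
          · exact Or.inr rfl
      · rw [(hx' x).2, (hx x).2, hF']
        constructor
        · rintro h
          exact ⟨Or.inl h.1, h.2⟩
        · rintro ⟨h | rfl, h'⟩
          · exact ⟨h, h'⟩
          · exact (h' hid).elim
    · obtain ⟨k, hk, hx'⟩ := hg.code2 j i hj hi
      refine ⟨k, hk, fun x => ⟨?_, ?_⟩⟩
      · rw [(hx' x).1, (hx x).1, hF']
        constructor
        · rintro h
          exact ⟨Or.inl h.1, h.2⟩
        · rintro ⟨h | rfl, h'⟩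
          · exact ⟨h, h'⟩
          · exact (hid h').elim
      · rw [(hx' x).2, (hx x).2, hF']
        constructor
        · rintro (h | rfl)
          · exact ⟨Or.inl h.1, h.2⟩
          · exact ⟨Or.inr rfl, hid⟩
        · rintro ⟨h | rfl, h'⟩
          · exact Or.inl ⟨h, h'⟩
          · exact Or.inr rfl

end

variable {M : Type} [Membership M M] [hM : IsZFC M]

variable {κ R₀ R₁ : M} {D H : TopGroupIn M} {φ : El D.carrier →* El H.carrier}

theorem Sit.weight (hg : Good (om M) κ R₀ R₁) (h : Sit κ D H φ) :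
    ∃ b : M, IsBaseIn H.top b ∧ CardLE b κ := by
  have hcl0 := DP_iwCl_code (M := M) (R₀ := R₀) (R₁ := R₁) (D := D) (H := H) (φ := φ) h.df
  have hcl := @DP.lift₂ _ _ _ _ _ _ _
    (fun (j : M) (x : El H.carrier) => iwCl φ (fun d => iwE R₀ R₁ j d) x) hcl0
  obtain ⟨b, hb⟩ := exists_el_subset (a := H.top) (fun Z : El H.top => ∃ j : El κ,
    ∀ x : El H.carrier, x.1 ∈ Z.1 ↔ iwCl φ (fun d => iwE R₀ R₁ j.1 d) x) inferInstance
  refine ⟨b, ⟨fun U hU => ((hb U).1 hU).1, ?_⟩, ?_⟩
  · intro U x hU hx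
    have hxH : x ∈ H.carrier := H.topology.subset U hU x hx
    let : TopologicalSpace (El H.carrier) := extTop H.carrier H.top
    have : IsTopologicalGroup (El H.carrier) := extTop_group H
    have hUo : IsOpen {y : El H.carrier | y.1 ∈ U} :=
      TopologicalSpace.isOpen_generateFrom_of_mem ⟨U, hU, rfl⟩
    have hUn : {y : El H.carrier | y.1 ∈ U} ∈ nhds (⟨x, hxH⟩ : El H.carrier) :=
      hUo.mem_nhds hx
    obtain ⟨W, hW, hWcl, hWU⟩ := exists_mem_nhds_isClosed_subset hUn
    obtain ⟨V, hVW, hVo, hxV⟩ := mem_nhds_iff.1 hW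
    obtain ⟨V', hV', hxV', hsub⟩ := (extTop_isOpen_iff H.topology V).1 hVo _ hxV
    obtain ⟨d₀, hd₀⟩ := h.surj ⟨x, hxH⟩
    obtain ⟨F, hF, hFV⟩ := h.cont d₀ V' hV' (by rw [hd₀]; exact hxV')
    obtain ⟨j, hj, hjx⟩ := iw_exists_code hg F hF d₀.1
    have hE : ∀ d : El D.carrier, iwE R₀ R₁ j d ↔ Agr d₀.1 d.1 F := by
      intro d
      constructor
      · rintro ⟨h0, h1⟩ i hi
        constructor
        · intro hid
          exact h0 i ((hjx i).1.2 ⟨hi, hid⟩)
        · intro hid
          by_contra hn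
          exact h1 i ((hjx i).2.2 ⟨hi, hn⟩) hid
      · intro ha
        refine ⟨fun i hi => ?_, fun i hi => ?_⟩
        · have := (hjx i).1.1 hi
          exact (ha i this.1).1 this.2
        · have := (hjx i).2.1 hi
          exact fun h' => this.2 ((ha i this.1).2 h')
    have hT := iwT_open h F hF d₀
    obtain ⟨Z, hZ, hZx⟩ := exists_open_of_DP H.topology
      (fun y : El H.carrier => iwCl φ (fun d => iwE R₀ R₁ j d) y) inferInstance (by
        intro y hy
        rw [iwCl_congr hE, iwCl_iff] at hy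
        obtain ⟨U', hU', hyU', hsub'⟩ := (extTop_isOpen_iff H.topology _).1 hT y hy
        refine ⟨U', hU', hyU', fun z hz => ?_⟩
        rw [iwCl_congr hE, iwCl_iff]
        exact hsub' z hz)
    refine ⟨Z, (hb Z).2 ⟨hZ, ⟨j, hj⟩, hZx⟩, ?_, ?_⟩
    · refine (hZx ⟨x, hxH⟩).2 ?_
      rw [iwCl_congr hE, iwCl_iff]
      exact subset_closure ⟨d₀, fun i _ => Iff.rfl, hd₀⟩
    · intro y hy
      have hyH : y ∈ H.carrier := H.topology.subset Z hZ y hy
      have h1 := (hZx ⟨y, hyH⟩).1 hy
      rw [iwCl_congr hE, iwCl_iff] at h1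
      have h2 : closure (φ '' {d | Agr d₀.1 d.1 F}) ⊆ W := by
        refine closure_minimal ?_ hWcl
        rintro _ ⟨d, hd, rfl⟩
        exact hVW (hsub _ (hFV d hd))
      exact hWU (h2 h1)
  · refine CardLE.of_rel (fun (Z : El b) (j : El κ) => ∀ x : El H.carrier, x.1 ∈ Z.1 ↔
      iwCl φ (fun d => iwE R₀ R₁ j.1 d) x) inferInstance ?_ ?_
    · intro Z
      exact ((hb Z.1).1 Z.2).2
    · intro Z Z' j hZ hZ'
      refine Subtype.ext (ext' fun y => ?_)
      have hZt := ((hb Z.1).1 Z.2).1
      have hZt' := ((hb Z'.1).1 Z'.2).1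
      constructor
      · intro hy
        have hyH : y ∈ H.carrier := H.topology.subset _ hZt y hy
        exact (hZ' ⟨y, hyH⟩).2 ((hZ ⟨y, hyH⟩).1 hy)
      · intro hy
        have hyH : y ∈ H.carrier := H.topology.subset _ hZt' y hy
        exact (hZ ⟨y, hyH⟩).2 ((hZ' ⟨y, hyH⟩).1 hy)

end Pool.Agent.Lib.MP_6b4821_lc
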