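import Pool.Agent.Lib.MP_6b4821_lc.ICompact
import Pool.Agent.Lib.MP_6b4821_lc.INonMet
import Pool.Agent.Lib.MP_6b4821_lc.IPow
import Pool.Agent.Lib.MP_6b4821_lc.IAleph
import Pool.Agent.Lib.MP_6b4821_lc.IWeight
import Pool.Agent.Lib.MP_6b4821_lc.ICaseA
import Pool.Agent.Lib.MP_6b4821_lc.ICaseB
import Pool.Agent.Lib.MP_6b4821_lc.IBase

/-!
# MP_6b4821_lc: the theorem inside the model
-/

set_option autoImplicit false
set_option synthInstance.maxSize 100000
set_option synthInstance.maxHeartbeats 400000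

namespace Pool.Agent.Lib.MP_6b4821_lc

open Pool.Agent.MP_5db68c_lc Pool.Agent.StarRoth.BV
open Pool.Agent.Lib.MP_5ed4ef_gt (IsSubspace)

section ASM
variable {M : Type} [Membership M M] [hM : IsZFC M]
variable {κ R₀ R₁ : M} {D H : TopGroupIn M} {φ : El D.carrier →* El H.carrier}

theorem Sit.wcompact (hg : Good (om M) κ R₀ R₁) (h : Sit κ D H φ) :
    WCompactIn H.carrier H.top := by
  by_cases hA : ∃ α : M, α ∈ κ ∧ ∀ d : El D.carrier, (∀ i : M, i ∈ α → i ∉ d.1) → φ d = 1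
  · obtain ⟨α, hα, hker⟩ := hA
    refine ⟨H.carrier, H.top, ⟨fun x hx => hx, fun V => ⟨fun hV => ⟨V, hV, fun x => ?_⟩, ?_⟩⟩,
      h.caseA hg α hα hker, WeightLE.refl _, WeightLE.refl _⟩
    · exact ⟨fun hx => ⟨hx, H.topology.subset V hV x hx⟩, fun hx => hx.1⟩
    · rintro ⟨U, hU, h1⟩
      have : V = U := ext' fun x => by
        rw [h1]
        exact ⟨fun hx => hx.1, fun hx => ⟨hx, H.topology.subset U hU x hx⟩⟩
      rw [this]; exact hU
  · push Not at hA
    obtain ⟨C, s, hsub, hcomp, hunc⟩ := h.caseB hg hA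
    refine ⟨C, s, hsub, hcomp, weightLE_of_subspace hsub, fun b hb => ?_⟩
    obtain ⟨a, ha, hle⟩ := h.weight hg
    exact ⟨a, ha, hle.trans (aleph hg (hunc b hb))⟩

/-- The theorem inside the model. -/
theorem internal_main {w : M} (hg : Good w κ R₀ R₁) : ∃ G : TopGroupIn M,
    (∀ x y : El G.carrier, x * y = y * x) ∧ IsCompactIn G.carrier G.top ∧
    ¬ Metrizable G.carrier G.top ∧ (∀ b : M, IsBaseIn G.top b → ¬ CountableIn b) ∧
    ∀ D : TopGroupIn M, IsSubgroupIn G D → IsCtblyCompactIn D.carrier D.top →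
      ProjWCompactIn D := by
  have hw : w = om M := hg.omega.unique isOmega_om
  subst hw
  obtain ⟨G, hG⟩ := exists_pow κ
  refine ⟨G, hG.comm, hG.compact hg, hG.not_metrizable hg, hG.no_countable_base hg,
    fun D hD hcc H φ hφ => ?_⟩
  exact (Sit.of (Sub.of hG hD hcc) hφ).wcompact hg

end ASM


end Pool.Agent.Lib.MP_6b4821_lc
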