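import Pool.Agent.Lib.MP_6b4821_lc.ICtb
import Pool.Agent.Lib.MP_5db68c_lc.Topo

/-!
# MP_6b4821_lc: increasing countable open covers
-/

set_option autoImplicit false
set_option synthInstance.maxSize 100000
set_option synthInstance.maxHeartbeats 400000

namespace Pool.Agent.Lib.MP_6b4821_lc

open Pool.Agent.MP_5db68c_lc Pool.Agent.StarRoth.BV
open Pool.Agent.Lib.MP_5ed4ef_gt (IsSubspace)

variable {M : Type} [Membership M M] [hM : IsZF M]

variable {κ : M} {D : TopGroupIn M}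

theorem Sub.cc_incr (hD : Sub κ D) (W : N M → El D.carrier → Prop)
    (hW : DP M (fun p : N M × El D.carrier => W p.1 p.2))
    (hop : ∀ n x, W n x → ∃ F : M, FinS κ F ∧ ∀ y : El D.carrier, Agr x.1 y.1 F → W n y)
    (hinc : ∀ n x, W n x → W (N.succ n) x) (hcov : ∀ x, ∃ n, W n x) : ∃ n, ∀ x, W n x := by
  have hW' := @DP.lift₂ _ _ _ _ _ _ _ W hW
  have hset : ∀ n, ∃ V : M, V ∈ D.top ∧ ∀ x : El D.carrier, x.1 ∈ V ↔ W n x := by
    intro n
    obtain ⟨V, hV⟩ := exists_el_subset (a := D.carrier) (fun x => W n x) inferInstance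
    refine ⟨V, ?_, fun x => ?_⟩
    · rw [hD.top]
      refine ⟨fun x hx => ((hV x).1 hx).1, fun x hx => ?_⟩
      obtain ⟨hxD, hWx⟩ := (hV x).1 hx
      obtain ⟨F, hF, h⟩ := hop n ⟨x, hxD⟩ hWx
      exact ⟨F, hF, fun y hy ha => (hV y).2 ⟨hy, h ⟨y, hy⟩ ha⟩⟩
    · rw [hV]
      exact ⟨fun h => h.2, fun h => ⟨x.2, h⟩⟩
  obtain ⟨c, hc⟩ := exists_el_subset (a := D.top)
    (fun U : El D.top => ∃ n : N M, ∀ x : El D.carrier, x.1 ∈ U.1 ↔ W n x) inferInstance
  have hcmem : ∀ n, ∃ V : M, V ∈ c ∧ ∀ x : El D.carrier, x.1 ∈ V ↔ W n x := by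
    intro n
    obtain ⟨V, hV, hx⟩ := hset n
    exact ⟨V, (hc V).2 ⟨hV, n, hx⟩, hx⟩
  have hcsub : ∀ U : M, U ∈ c → ∀ x : M, x ∈ U → x ∈ D.carrier := by
    intro U hU
    exact ((hD.top U).1 ((hc U).1 hU).1).1
  have henu : Enu c := by
    refine ⟨fun n V => ∀ x : El D.carrier, x.1 ∈ V.1 ↔ W n x, inferInstance, ?_, ?_⟩
    · intro n U V hU hV
      refine Subtype.ext (ext' fun x => ?_)
      constructor
      · intro hx
        have hxD := hcsub U.1 U.2 x hx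
        exact (hV ⟨x, hxD⟩).2 ((hU ⟨x, hxD⟩).1 hx)
      · intro hx
        have hxD := hcsub V.1 V.2 x hx
        exact (hU ⟨x, hxD⟩).2 ((hV ⟨x, hxD⟩).1 hx)
    · intro V
      obtain ⟨_, n, hn⟩ := (hc V.1).1 V.2
      exact ⟨n, hn⟩
  have hcov0 : ∀ x : M, x ∈ D.carrier → ∃ U : M, U ∈ c ∧ x ∈ U := by
    intro x hx
    obtain ⟨n, hn⟩ := hcov ⟨x, hx⟩
    obtain ⟨V, hV, h⟩ := hcmem n
    exact ⟨V, hV, (h ⟨x, hx⟩).2 hn⟩
  obtain ⟨c', hsub, hfin, hcov'⟩ := hD.cc c (fun U hU => ((hc U).1 hU).1) henu.countable hcov0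
  have hmono : ∀ m n : N M, n.1 ∈ m.1 → ∀ x : El D.carrier, W n x → W m x := by
    refine N.induction (M := M)
      (fun m => ∀ n : N M, n.1 ∈ m.1 → ∀ x : El D.carrier, W n x → W m x) inferInstance ?_ ?_
    · intro n hn
      exact (N.not_mem_zero _ hn).elim
    · intro m ih n hn x hx
      rw [N.mem_succ] at hn
      rcases hn with hn | hn
      · exact hinc _ _ (ih n hn x hx)
      · have : n = m := Subtype.ext hn
        subst this
        exact hinc _ _ hx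
  obtain ⟨V, hV, hVc⟩ := finite_directed c c' hsub hfin
    (by obtain ⟨U, hU, _⟩ := hcmem N.zero; exact ⟨U, hU⟩) (by
      intro U V hU hV
      obtain ⟨hUt, n, hn⟩ := (hc U).1 hU
      obtain ⟨hVt, m, hm⟩ := (hc V).1 hV
      have key : ∀ (U V : M), U ∈ c → V ∈ c → ∀ (n m : N M),
          (∀ x : El D.carrier, x.1 ∈ U ↔ W n x) → (∀ x : El D.carrier, x.1 ∈ V ↔ W m x) →
          (n.1 ∈ m.1 ∨ n = m) → ∀ x : M, x ∈ U → x ∈ V := by
        intro U V hU hV n m hn hm h x hx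
        have hxD := hcsub U hU x hx
        have h1 := (hn ⟨x, hxD⟩).1 hx
        refine (hm ⟨x, hxD⟩).2 ?_
        rcases h with h | h
        · exact hmono m n h _ h1
        · rw [← h]
          exact h1
      rcases ordl_om.tri n m with h | h | h
      · exact ⟨V, hV, key U V hU hV n m hn hm (Or.inl h), fun x hx => hx⟩
      · exact ⟨V, hV, key U V hU hV n m hn hm (Or.inr h), fun x hx => hx⟩
      · exact ⟨U, hU, fun x hx => hx, key V U hV hU m n hm hn (Or.inl h)⟩)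
  obtain ⟨_, n, hn⟩ := (hc V).1 hV
  refine ⟨n, fun x => (hn x).1 ?_⟩
  obtain ⟨U, hU, hxU⟩ := hcov' x.1 x.2
  exact hVc U hU x.1 hxU

end Pool.Agent.Lib.MP_6b4821_lc
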