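import Pool.Agent.Lib.MP_6b4821_lc.IIdeal

/-!
# MP_6b4821_lc: compactness of the power set
-/

set_option autoImplicit false
set_option synthInstance.maxSize 100000
set_option synthInstance.maxHeartbeats 400000

namespace Pool.Agent.Lib.MP_6b4821_lc

open Pool.Agent.MP_5db68c_lc Pool.Agent.StarRoth.BV
open Pool.Agent.Lib.MP_5ed4ef_gt (IsSubspace finite_empty finite_union finite_sing exists_union₂)

variable {M : Type} [Membership M M] [hM : IsZF M]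

variable {κ R₀ R₁ : M} {G : TopGroupIn M}

theorem IsPow.compact (hg : Good (om M) κ R₀ R₁) (hG : IsPow κ G) :
    IsCompactIn G.carrier G.top := by
  intro c hc hcov
  have hJ : DP M (fun V : M => ∃ c' : M, (∀ U : M, U ∈ c' → U ∈ c) ∧ FiniteIn c' ∧
      ∀ z : M, z ∈ V → z ∈ G.carrier → ∃ U : M, U ∈ c' ∧ z ∈ U) := by
    infer_instance
  have key := pow_ideal hg hG.mem (fun V : M => ∃ c' : M, (∀ U : M, U ∈ c' → U ∈ c) ∧ FiniteIn c' ∧
      ∀ z : M, z ∈ V → z ∈ G.carrier → ∃ U : M, U ∈ c' ∧ z ∈ U) hJ ?_ ?_ ?_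
  · obtain ⟨c', h1, h2, h3⟩ := key
    exact ⟨c', h1, h2, fun x hx => h3 x hx hx⟩
  · intro e he
    exact ⟨e, fun U hU => (he U hU).elim, finite_empty he, fun z hz => (he z hz).elim⟩
  · rintro V V' V'' ⟨c₁, h1, h2, h3⟩ ⟨c₂, h4, h5, h6⟩ hV
    obtain ⟨c₃, h7⟩ := exists_union₂ c₁ c₂
    refine ⟨c₃, fun U hU => ?_, finite_union h2 h5 h7, fun z hz hzG => ?_⟩
    · rcases (h7 U).1 hU with h | h
      · exact h1 U h
      · exact h4 U h
    · rcases hV z hz with h | h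
      · obtain ⟨U, hU, hzU⟩ := h3 z h hzG
        exact ⟨U, (h7 U).2 (Or.inl hU), hzU⟩
      · obtain ⟨U, hU, hzU⟩ := h6 z h hzG
        exact ⟨U, (h7 U).2 (Or.inr hU), hzU⟩
  · intro x hx
    obtain ⟨U, hU, hxU⟩ := hcov x hx
    obtain ⟨F, hF, hFU⟩ := ((hG.top U).1 (hc U hU)).2 x hxU
    obtain ⟨V, hV⟩ := exists_el_subset (a := G.carrier) (fun y => Agr x y.1 F) inferInstance
    have hV' : ∀ y : M, y ∈ V ↔ y ∈ G.carrier ∧ Agr x y F := fun y => by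
      rw [hV]
      exact ⟨fun ⟨h, h'⟩ => ⟨h, h'⟩, fun h => ⟨h.1, h.2⟩⟩
    obtain ⟨s, hs⟩ := exists_sing U
    refine ⟨F, V, hF, hV', s, fun U' hU' => ?_, finite_sing hs, fun z hz hzG => ?_⟩
    · rw [(hs U').1 hU']
      exact hU
    · exact ⟨U, (hs U).2 rfl, hFU z hzG ((hV' z).1 hz).2⟩

end Pool.Agent.Lib.MP_6b4821_lc
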