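import Pool.Agent.Lib.MP_a1c723_lc.BV.Defs

/-!
# MP_6b4821_lc: internal notions in a model of ZFC

All notions are internal to a structure `(M, ∈)`; `El a` is the type of the members of `a`, `FunIn`,
`FunIn₂` say that a function (of two variables) belongs to `M`, `FiniteIn`, `CountableIn` are
finiteness and countability in `M` (`Pool.Agent.Lib.MP_5db68c_lc.Defs`).
-/

set_option autoImplicit false

namespace Pool.Agent.Lib.MP_6b4821_lc

open Pool.Agent.MP_5db68c_lc Pool.Agent.StarRoth.BV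

/-! ## What is needed of the complete Boolean algebra -/

/-- For every type `W` there is a nontrivial c.c.c. complete Boolean algebra `B` such that in `V^B`
every `W`-indexed family of subsets of `ℕ` whose finite intersections are infinite has an infinite
pseudo-intersection. -/
def PIAlg : Prop :=
  ∀ W : Type, ∃ (B : Type) (_ : CompleteBooleanAlgebra B), (⊥ : B) ≠ ⊤ ∧
    (∀ (ι : Type) (f : ι → B), (∀ i j, i ≠ j → f i ⊓ f j = ⊥) → {i | f i ≠ ⊥}.Countable) ∧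
    ∀ a : W → ℕ → B,
      (∀ (F : Finset W) (m : ℕ), ⨆ n : ℕ, ⨆ (_ : m < n), ⨅ i : W, ⨅ (_ : i ∈ F), a i n = ⊤) →
      ∃ x : ℕ → B, (∀ m : ℕ, ⨆ n : ℕ, ⨆ (_ : m < n), x n = ⊤) ∧
        ∀ i : W, ⨆ m : ℕ, ⨅ n : ℕ, ⨅ (_ : m < n), (x n ⇨ a i n) = ⊤

/-! ## What is needed of the model -/

section

variable {M : Type} [Membership M M]

/-- `(x, y) ∈ f`. -/
def PairIn (f x y : M) : Prop := ∃ p : M, p ∈ f ∧ IsPair p x y

/-- `f` is a functional relation. -/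
def Fnl (f : M) : Prop := ∀ x y y' : M, PairIn f x y → PairIn f x y' → y = y'

/-- `F` is in every set that has `∅` as a member and with `x` also `x ∪ {i}`, `i ∈ κ`. -/
def KFin (F κ : M) : Prop :=
  ∀ s : M, (∀ e : M, (∀ z : M, z ∉ e) → e ∈ s) →
    (∀ x i y : M, x ∈ s → i ∈ κ → (∀ z : M, z ∈ y ↔ z ∈ x ∨ z = i) → y ∈ s) → F ∈ s

/-- `κ` is the first uncountable ordinal of `M`, every `κ`-indexed family of subsets of `w = ω`
whose finite intersections are infinite has an infinite pseudo-intersection, and the pairs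
`({i : (j, i) ∈ R₀}, {i : (j, i) ∈ R₁})`, `j ∈ κ`, contain the pair `(∅, ∅)` and are closed under
adding an element to either component. -/
structure Good (w κ R₀ R₁ : M) : Prop where
  omega : IsOmega w
  trans : ∀ x y : M, x ∈ κ → y ∈ x → y ∈ κ
  trans' : ∀ x y z : M, x ∈ κ → y ∈ x → z ∈ y → z ∈ x
  enum : ∀ i : M, i ∈ κ → ∃ f : M, Fnl f ∧ ∀ j : M, j ∈ i → ∃ n : M, n ∈ w ∧ PairIn f n j
  bdd : ∀ f : M, Fnl f → ∃ j : M, j ∈ κ ∧ ∀ n i : M, n ∈ w → i ∈ κ → PairIn f n i → i ∈ j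
  pi : ∀ A : M,
    (∀ F m : M, KFin F κ → m ∈ w → ∃ n : M, n ∈ w ∧ m ∈ n ∧ ∀ i : M, i ∈ F → PairIn A i n) →
    ∃ X : M, (∀ n : M, n ∈ X → n ∈ w) ∧ (∀ m : M, m ∈ w → ∃ n : M, n ∈ X ∧ m ∈ n) ∧
      ∀ i : M, i ∈ κ → ∃ m : M, m ∈ w ∧ ∀ n : M, n ∈ X → m ∈ n → PairIn A i n
  code0 : ∃ j : M, j ∈ κ ∧ ∀ i : M, ¬ PairIn R₀ j i ∧ ¬ PairIn R₁ j i
  code1 : ∀ j i : M, j ∈ κ → i ∈ κ → ∃ k : M, k ∈ κ ∧
    ∀ x : M, (PairIn R₀ k x ↔ PairIn R₀ j x ∨ x = i) ∧ (PairIn R₁ k x ↔ PairIn R₁ j x)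
  code2 : ∀ j i : M, j ∈ κ → i ∈ κ → ∃ k : M, k ∈ κ ∧
    ∀ x : M, (PairIn R₀ k x ↔ PairIn R₀ j x) ∧ (PairIn R₁ k x ↔ PairIn R₁ j x ∨ x = i)

end

/-- The statement about the model: it exists if the algebra does. -/
def GoodStmt : Prop :=
  PIAlg → ∃ (M : Type) (_ : Membership M M), ModelZFC M ∧ ∃ w κ R₀ R₁ : M, Good w κ R₀ R₁

end Pool.Agent.Lib.MP_6b4821_lc
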