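import Pool.Agent.Lib.MP_6b4821_lc.ISetup

/-!
# MP_6b4821_lc: the external topology
-/

set_option autoImplicit false
set_option synthInstance.maxSize 100000
set_option synthInstance.maxHeartbeats 400000

namespace Pool.Agent.Lib.MP_6b4821_lc

open Pool.Agent.MP_5db68c_lc Pool.Agent.StarRoth.BV
open Pool.Agent.Lib.MP_5ed4ef_gt (IsSubspace)

variable {M : Type} [Membership M M] [hM : IsZF M]

variable {X t : M}

/-- The internal open sets form a base of the external topology. -/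
theorem extTop_isOpen_iff (ht : IsTopology X t) (s : Set (El X)) :
    @IsOpen (El X) (extTop X t) s ↔
    ∀ x ∈ s, ∃ U : M, U ∈ t ∧ x.1 ∈ U ∧ ∀ y : El X, y.1 ∈ U → y ∈ s := by
  let _ : TopologicalSpace (El X) := extTop X t
  constructor
  · intro h
    have h' : TopologicalSpace.GenerateOpen
        {s | ∃ U : M, U ∈ t ∧ s = {x : El X | x.1 ∈ U}} s := h
    induction h' with
    | basic s hs =>
      obtain ⟨U, hU, rfl⟩ := hs
      exact fun x hx => ⟨U, hU, hx, fun y hy => hy⟩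
    | univ =>
      exact fun x _ => ⟨X, ht.whole, x.2, fun y _ => Set.mem_univ _⟩
    | inter a b ha hb iha ihb =>
      rintro x ⟨hxa, hxb⟩
      obtain ⟨U, hU, hxU, hUa⟩ := iha ha x hxa
      obtain ⟨V, hV, hxV, hVb⟩ := ihb hb x hxb
      obtain ⟨W, hW⟩ := Pool.Agent.Lib.MP_5ed4ef_gt.exists_inter U V
      refine ⟨W, ht.inter U V W hU hV hW, (hW x.1).2 ⟨hxU, hxV⟩, fun y hy => ?_⟩
      exact ⟨hUa y ((hW y.1).1 hy).1, hVb y ((hW y.1).1 hy).2⟩
    | sUnion S hS ih =>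
      rintro x ⟨a, ha, hxa⟩
      obtain ⟨U, hU, hxU, hUa⟩ := ih a ha (hS a ha) x hxa
      exact ⟨U, hU, hxU, fun y hy => ⟨a, ha, hUa y hy⟩⟩
  · intro h
    rw [isOpen_iff_forall_mem_open]
    intro x hx
    obtain ⟨U, hU, hxU, hUs⟩ := h x hx
    exact ⟨{y : El X | y.1 ∈ U}, fun y hy => hUs y hy,
      TopologicalSpace.isOpen_generateFrom_of_mem ⟨U, hU, rfl⟩, hxU⟩

theorem exists_open_of_DP (ht : IsTopology X t) (P : El X → Prop) (hP : DP M P)
    (h : ∀ x, P x → ∃ U : M, U ∈ t ∧ x.1 ∈ U ∧ ∀ y : El X, y.1 ∈ U → P y) :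
    ∃ V : M, V ∈ t ∧ ∀ x : El X, x.1 ∈ V ↔ P x := by
  obtain ⟨V, hV⟩ := exists_el_subset (a := X) P hP
  obtain ⟨s, hs⟩ := exists_el_subset (a := t)
    (fun U : El t => ∀ y : M, y ∈ U.1 → y ∈ V) inferInstance
  refine ⟨V, ht.sUnion s V (fun U hU => ((hs U).1 hU).1) (fun x => ?_), fun x => ?_⟩
  · constructor
    · intro hx
      obtain ⟨hxX, hPx⟩ := (hV x).1 hx
      obtain ⟨U, hU, hxU, hUP⟩ := h ⟨x, hxX⟩ hPx
      refine ⟨U, (hs U).2 ⟨hU, fun y hy => ?_⟩, hxU⟩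
      exact (hV y).2 ⟨ht.subset U hU y hy, hUP ⟨y, ht.subset U hU y hy⟩ hy⟩
    · rintro ⟨U, hU, hxU⟩
      obtain ⟨_, h1⟩ := (hs U).1 hU
      exact h1 x hxU
  · rw [hV]
    exact ⟨fun h => h.2, fun h => ⟨x.2, h⟩⟩

/-- Neighbourhoods in the external topology. -/
theorem extTop_mem_nhds (ht : IsTopology X t) (x : El X) (s : Set (El X)) :
    s ∈ @nhds (El X) (extTop X t) x ↔
      ∃ U : M, U ∈ t ∧ x.1 ∈ U ∧ ∀ y : El X, y.1 ∈ U → y ∈ s := by
  let _ : TopologicalSpace (El X) := extTop X t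
  rw [mem_nhds_iff]
  constructor
  · rintro ⟨a, has, ha, hxa⟩
    obtain ⟨U, hU, hxU, hUa⟩ := (extTop_isOpen_iff ht a).1 ha x hxa
    exact ⟨U, hU, hxU, fun y hy => has (hUa y hy)⟩
  · rintro ⟨U, hU, hxU, hUs⟩
    exact ⟨{y : El X | y.1 ∈ U}, fun y hy => hUs y hy,
      TopologicalSpace.isOpen_generateFrom_of_mem ⟨U, hU, rfl⟩, hxU⟩

theorem extTop_group (H : TopGroupIn M) :
    @IsTopologicalGroup (El H.carrier) (extTop H.carrier H.top) _ := by
  let _ : TopologicalSpace (El H.carrier) := extTop H.carrier H.top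
  have hdiv : Continuous fun p : El H.carrier × El H.carrier => p.1 * p.2⁻¹ := by
    rw [continuous_iff_continuousAt]
    rintro ⟨x, y⟩
    intro s hs
    obtain ⟨W, hW, hxW, hWs⟩ := (extTop_mem_nhds H.topology _ s).1 hs
    obtain ⟨U, V, hU, hV, hxU, hyV, h⟩ := H.continuous x y W hW hxW
    have h1 : {a : El H.carrier | a.1 ∈ U} ∈ nhds x :=
      (extTop_mem_nhds H.topology _ _).2 ⟨U, hU, hxU, fun _ h => h⟩
    have h2 : {a : El H.carrier | a.1 ∈ V} ∈ nhds y :=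
      (extTop_mem_nhds H.topology _ _).2 ⟨V, hV, hyV, fun _ h => h⟩
    rw [Filter.mem_map]
    filter_upwards [prod_mem_nhds h1 h2] with p hp
    exact hWs _ (h p.1 p.2 hp.1 hp.2)
  have hinv : Continuous fun y : El H.carrier => y⁻¹ := by
    have h1 : Continuous fun y : El H.carrier => ((1 : El H.carrier), y) := by fun_prop
    have h2 := hdiv.comp h1
    refine h2.congr fun y => ?_
    simp
  have hmul : Continuous fun p : El H.carrier × El H.carrier => p.1 * p.2 := by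
    have h1 : Continuous fun p : El H.carrier × El H.carrier => (p.1, p.2⁻¹) :=
      continuous_fst.prodMk (hinv.comp continuous_snd)
    have h2 := hdiv.comp h1
    refine h2.congr fun p => ?_
    simp
  exact { continuous_mul := hmul, continuous_inv := hinv }

theorem extTop_t2 (H : TopGroupIn M) : @T2Space (El H.carrier) (extTop H.carrier H.top) := by
  let _ : TopologicalSpace (El H.carrier) := extTop H.carrier H.top
  refine ⟨fun x y hxy => ?_⟩
  obtain ⟨U, V, hU, hV, hxU, hyV, h⟩ := H.hausdorff x.1 y.1 x.2 y.2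
    (fun h => hxy (Subtype.ext h))
  refine ⟨{a | a.1 ∈ U}, {a | a.1 ∈ V}, TopologicalSpace.isOpen_generateFrom_of_mem ⟨U, hU, rfl⟩,
    TopologicalSpace.isOpen_generateFrom_of_mem ⟨V, hV, rfl⟩, hxU, hyV, ?_⟩
  rw [Set.disjoint_left]
  exact fun a ha hb => h a.1 ⟨ha, hb⟩

end Pool.Agent.Lib.MP_6b4821_lc
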