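import Pool.Agent.Lib.MP_6b4821_lc.ISetup

/-!
# MP_6b4821_lc: ordinals
-/

set_option autoImplicit false
set_option synthInstance.maxSize 100000
set_option synthInstance.maxHeartbeats 400000

namespace Pool.Agent.Lib.MP_6b4821_lc

open Pool.Agent.MP_5db68c_lc Pool.Agent.StarRoth.BV
open Pool.Agent.Lib.MP_5ed4ef_gt (IsSubspace)

variable {M : Type} [Membership M M] [hM : IsZF M]

variable {κ : M}

theorem Ordl.induction (hκ : Ordl κ) (P : El κ → Prop) (hP : DP M P)
    (h : ∀ i : El κ, (∀ j : El κ, j.1 ∈ i.1 → P j) → P i) : ∀ i, P i := by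
  by_contra hc
  push Not at hc
  obtain ⟨i, hi⟩ := hc
  have hP' := @hP.lift₁
  obtain ⟨b, hb⟩ := exists_el_subset (a := κ) (fun i => ¬ P i) inferInstance
  obtain ⟨x, hx, hmin⟩ := hM.zf.foundation b ⟨i.1, (hb _).2 ⟨i.2, hi⟩⟩
  obtain ⟨hxκ, hxP⟩ := (hb x).1 hx
  apply hxP
  apply h ⟨x, hxκ⟩
  intro j hj
  by_contra hjP
  exact hmin j.1 hj ((hb _).2 ⟨j.2, hjP⟩)

theorem Ordl.tri (hκ : Ordl κ) (i j : El κ) : i.1 ∈ j.1 ∨ i = j ∨ j.1 ∈ i.1 := by
  have key : ∀ i : El κ, ∀ j : El κ, i.1 ∈ j.1 ∨ i = j ∨ j.1 ∈ i.1 := by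
    refine hκ.induction _ inferInstance ?_
    intro i ihi
    refine hκ.induction _ inferInstance ?_
    intro j ihj
    by_cases h1 : ∃ j' : El κ, j'.1 ∈ j.1 ∧ (i = j' ∨ i.1 ∈ j'.1)
    · obtain ⟨j', hj', h | h⟩ := h1
      · left; rw [h]; exact hj'
      · left; exact hκ.trans' _ _ _ j.2 hj' h
    by_cases h2 : ∃ i' : El κ, i'.1 ∈ i.1 ∧ (i' = j ∨ j.1 ∈ i'.1)
    · obtain ⟨i', hi', h | h⟩ := h2
      · right; right; rw [← h]; exact hi'
      · right; right; exact hκ.trans' _ _ _ i.2 hi' h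
    right; left
    push Not at h1 h2
    apply Subtype.ext
    apply ext'
    intro x
    constructor
    · intro hx
      have hxκ := hκ.trans _ _ i.2 hx
      have h4 := ihi ⟨x, hxκ⟩ hx j
      have h3 := h2 ⟨x, hxκ⟩ hx
      rcases h4 with h4 | h4 | h4
      · exact h4
      · exact (h3.1 h4).elim
      · exact (h3.2 h4).elim
    · intro hx
      have hxκ := hκ.trans _ _ j.2 hx
      have h4 := ihj ⟨x, hxκ⟩ hx
      have h3 := h1 ⟨x, hxκ⟩ hx
      rcases h4 with h4 | h4 | h4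
      · exact (h3.2 h4).elim
      · exact (h3.1 h4).elim
      · exact h4
  exact key i j

theorem Ordl.exists_least (hκ : Ordl κ) (P : El κ → Prop) (hP : DP M P) (h : ∃ i, P i) :
    ∃ i, P i ∧ ∀ j, P j → i = j ∨ i.1 ∈ j.1 := by
  have hP' := @hP.lift₁
  by_contra hc
  push Not at hc
  obtain ⟨i, hi⟩ := h
  have key : ∀ i : El κ, ¬ P i := by
    refine hκ.induction _ inferInstance ?_
    intro i ih hPi
    obtain ⟨j, hj, h1, h2⟩ := hc i hPi
    rcases hκ.tri i j with h3 | h3 | h3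
    · exact h2 h3
    · exact h1 h3
    · exact ih j h3 hj
  exact key i hi

theorem ordl_om : Ordl (om M) := by
  refine ⟨?_, ?_⟩
  · have key : ∀ n : N M, ∀ y : M, y ∈ n.1 → y ∈ om M := by
      refine N.induction (M := M) _ inferInstance ?_ ?_
      · intro y hy; exact (N.not_mem_zero _ hy).elim
      · intro n ih y hy
        rcases (N.mem_succ n y).1 hy with h | h
        · exact ih y h
        · rw [h]; exact n.2
    intro x y hx hy
    exact key ⟨x, hx⟩ y hy
  · have key : ∀ n : N M, ∀ y z : M, y ∈ n.1 → z ∈ y → z ∈ n.1 := by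
      refine N.induction (M := M) _ inferInstance ?_ ?_
      · intro y z hy; exact (N.not_mem_zero _ hy).elim
      · intro n ih y z hy hz
        rw [N.mem_succ]
        rcases (N.mem_succ n y).1 hy with h | h
        · exact Or.inl (ih y z h hz)
        · rw [h] at hz; exact Or.inl hz
    intro x y z hx hy hz
    exact key ⟨x, hx⟩ y z hy hz

end Pool.Agent.Lib.MP_6b4821_lc
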