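import Pool.Agent.Lib.MP_6b4821_lc.IOrd

/-!
# MP_6b4821_lc: recursion for predicates
-/

set_option autoImplicit false
set_option synthInstance.maxSize 100000
set_option synthInstance.maxHeartbeats 400000

namespace Pool.Agent.Lib.MP_6b4821_lc

open Pool.Agent.MP_5db68c_lc Pool.Agent.StarRoth.BV
open Pool.Agent.Lib.MP_5ed4ef_gt (IsSubspace)

variable {M : Type} [Membership M M] [hM : IsZF M]

variable {κ : M}

section IRec

variable {Γ : Type} [Coded M Γ] [SetCoded M Γ]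

/-- `y` is the restriction of `z` to the elements of rank below `i`. -/
def IRecRes (rk : Γ → El κ) (z : M) (i : El κ) (y : M) : Prop :=
  ∀ w : M, w ∈ y ↔ w ∈ z ∧ ∃ s : Γ, (Coded.code s : M) = w ∧ (rk s).1 ∈ i.1

/-- `z` is an attempt below `i`. -/
def IRecAtt (rk : Γ → El κ) (Q : Γ → M → Prop) (i : El κ) (z : M) : Prop :=
  (∀ w : M, w ∈ z → ∃ s : Γ, (Coded.code s : M) = w ∧ (rk s).1 ∈ i.1) ∧
    ∀ s : Γ, (rk s).1 ∈ i.1 → ∀ y : M, IRecRes rk z (rk s) y → ((Coded.code s : M) ∈ z ↔ Q s y)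

theorem irec_res_dp {rk : Γ → El κ} (hrk : DF M rk) :
    DP M (fun p : (M × El κ) × M => IRecRes rk p.1.1 p.1.2 p.2) := by
  have hrk' := @hrk.lift₁
  unfold IRecRes
  infer_instance

theorem irec_att_dp {rk : Γ → El κ} (hrk : DF M rk) {Q : Γ → M → Prop}
    (hQ : DP M (fun p : Γ × M => Q p.1 p.2)) :
    DP M (fun p : El κ × M => IRecAtt rk Q p.1 p.2) := by
  have hrk' := @hrk.lift₁
  have hQ' := @DP.lift₂ _ _ _ _ _ _ _ Q hQ
  have hres' := @DP.lift₃ _ _ _ _ _ _ _ _ _ (fun (z : M) (i : El κ) (y : M) => IRecRes rk z i y)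
    (irec_res_dp hrk)
  unfold IRecAtt
  infer_instance

theorem irec_res_exists {rk : Γ → El κ} (hrk : DF M rk) (z : M) (i : El κ) :
    ∃ y : M, IRecRes rk z i y := by
  have hrk' := @hrk.lift₁
  obtain ⟨y, hy⟩ := exists_el_subset (M := M) (a := z)
    (fun w : El z => ∃ s : Γ, (Coded.code s : M) = w.1 ∧ (rk s).1 ∈ i.1) inferInstance
  refine ⟨y, fun w => ?_⟩
  rw [hy]
  constructor
  · rintro ⟨h1, h2⟩
    exact ⟨h1, h2⟩
  · rintro ⟨h1, h2⟩
    exact ⟨h1, h2⟩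

/-- Coherence of attempts. -/
theorem irec_coh (hκ : Ordl κ) {rk : Γ → El κ} (hrk : DF M rk) {Q : Γ → M → Prop}
    {i i' : El κ} {z z' : M} (h : IRecAtt rk Q i z) (h' : IRecAtt rk Q i' z') :
    ∀ s : Γ, (rk s).1 ∈ i.1 → (rk s).1 ∈ i'.1 →
      ((Coded.code s : M) ∈ z ↔ (Coded.code s : M) ∈ z') := by
  have hrk' := @hrk.lift₁
  have key : ∀ j : El κ, ∀ s : Γ, rk s = j → j.1 ∈ i.1 → j.1 ∈ i'.1 →
      ((Coded.code s : M) ∈ z ↔ (Coded.code s : M) ∈ z') := by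
    refine hκ.induction (fun j : El κ => ∀ s : Γ, rk s = j → j.1 ∈ i.1 → j.1 ∈ i'.1 →
      ((Coded.code s : M) ∈ z ↔ (Coded.code s : M) ∈ z')) inferInstance ?_
    intro j ih s hs hj hj'
    subst hs
    obtain ⟨y, hy⟩ := irec_res_exists hrk z (rk s)
    have hy' : IRecRes rk z' (rk s) y := by
      intro w
      rw [hy w]
      constructor
      · rintro ⟨h1, s', rfl, h2⟩
        exact ⟨(ih (rk s') h2 s' rfl (hκ.trans' _ _ _ i.2 hj h2)
          (hκ.trans' _ _ _ i'.2 hj' h2)).1 h1, s', rfl, h2⟩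
      · rintro ⟨h1, s', rfl, h2⟩
        exact ⟨(ih (rk s') h2 s' rfl (hκ.trans' _ _ _ i.2 hj h2)
          (hκ.trans' _ _ _ i'.2 hj' h2)).2 h1, s', rfl, h2⟩
    rw [h.2 s hj y hy, h'.2 s hj' y hy']
  intro s h1 h2
  exact key (rk s) s rfl h1 h2

theorem irec_uniq (hκ : Ordl κ) {rk : Γ → El κ} (hrk : DF M rk) {Q : Γ → M → Prop}
    {i : El κ} {z z' : M} (h : IRecAtt rk Q i z) (h' : IRecAtt rk Q i z') : z = z' := by
  apply ext'
  intro w
  constructor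
  · intro hw
    obtain ⟨s, rfl, hs⟩ := h.1 w hw
    exact (irec_coh hκ hrk h h' s hs hs).1 hw
  · intro hw
    obtain ⟨s, rfl, hs⟩ := h'.1 w hw
    exact (irec_coh hκ hrk h h' s hs hs).2 hw

/-- Restrictions of attempts are attempts. -/
theorem irec_restr (hκ : Ordl κ) {rk : Γ → El κ} {Q : Γ → M → Prop}
    {i j : El κ} {z y : M} (h : IRecAtt rk Q i z) (hj : j.1 ∈ i.1) (hy : IRecRes rk z j y) :
    IRecAtt rk Q j y := by
  refine ⟨fun w hw => ((hy w).1 hw).2, ?_⟩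
  intro s hs x hx
  have hx' : IRecRes rk z (rk s) x := by
    intro w
    rw [hx w]
    constructor
    · rintro ⟨h1, h2⟩
      exact ⟨((hy w).1 h1).1, h2⟩
    · rintro ⟨h1, s', rfl, h2⟩
      exact ⟨(hy _).2 ⟨h1, s', rfl, hκ.trans' _ _ _ j.2 hs h2⟩, s', rfl, h2⟩
  rw [← h.2 s (hκ.trans' _ _ _ i.2 hj hs) x hx']
  rw [hy]
  constructor
  · exact fun h1 => h1.1
  · exact fun h1 => ⟨h1, s, rfl, hs⟩

theorem irec_key (hκ : Ordl κ) {rk : Γ → El κ} (hrk : DF M rk) {Q : Γ → M → Prop}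
    {i : El κ} {z : M} (h : IRecAtt rk Q i z) (s : Γ) (hs : (rk s).1 ∈ i.1) :
    (Coded.code s : M) ∈ z ↔ ∃ y : M, IRecAtt rk Q (rk s) y ∧ Q s y := by
  obtain ⟨y, hy⟩ := irec_res_exists hrk z (rk s)
  have hy' := irec_restr hκ h hs hy
  rw [h.2 s hs y hy]
  constructor
  · exact fun h1 => ⟨y, hy', h1⟩
  · rintro ⟨y', h1, h2⟩
    rw [irec_uniq hκ hrk hy' h1]
    exact h2

/-- Comparison of a set defined by attempts with an attempt. -/
theorem irec_eq (hκ : Ordl κ) {rk : Γ → El κ} (hrk : DF M rk) {Q : Γ → M → Prop} {x : M}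
    (s : Γ)
    (hx : ∀ s' : Γ, (rk s').1 ∈ (rk s).1 →
      ((Coded.code s' : M) ∈ x ↔ ∃ y : M, IRecAtt rk Q (rk s') y ∧ Q s' y))
    {y ys : M} (hy : IRecRes rk x (rk s) y) (hys : IRecAtt rk Q (rk s) ys) : y = ys := by
  apply ext'
  intro w
  rw [hy w]
  constructor
  · rintro ⟨h1, s', rfl, h2⟩
    rw [irec_key hκ hrk hys s' h2, ← hx s' h2]
    exact h1
  · intro hw
    obtain ⟨s', rfl, h2⟩ := hys.1 w hw
    refine ⟨?_, s', rfl, h2⟩
    rw [hx s' h2, ← irec_key hκ hrk hys s' h2]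
    exact hw

theorem irec_exists (hκ : Ordl κ) {rk : Γ → El κ} (hrk : DF M rk) {Q : Γ → M → Prop}
    (hQ : DP M (fun p : Γ × M => Q p.1 p.2)) : ∀ i : El κ, ∃ z : M, IRecAtt rk Q i z := by
  have hrk' := @hrk.lift₁
  have hQ' := @DP.lift₂ _ _ _ _ _ _ _ Q hQ
  have hatt' := @DP.lift₂ _ _ _ _ _ _ _ (fun (i : El κ) (z : M) => IRecAtt rk Q i z)
    (irec_att_dp hrk hQ)
  refine hκ.induction (fun i : El κ => ∃ z : M, IRecAtt rk Q i z) inferInstance ?_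
  intro i ih
  obtain ⟨z, hz⟩ := exists_subset (M := M) (Γ := Γ)
    (fun s : Γ => (rk s).1 ∈ i.1 ∧ ∃ y : M, IRecAtt rk Q (rk s) y ∧ Q s y) inferInstance
  have hz' : ∀ s : Γ, (rk s).1 ∈ i.1 →
      ((Coded.code s : M) ∈ z ↔ ∃ y : M, IRecAtt rk Q (rk s) y ∧ Q s y) := by
    intro s hs
    rw [hz]
    constructor
    · rintro ⟨s', h1, h2, h3⟩
      have := Coded.inj h1
      subst this
      exact h3
    · exact fun h => ⟨s, rfl, hs, h⟩
  refine ⟨z, ?_, ?_⟩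
  · intro w hw
    obtain ⟨s, h1, h2, _⟩ := (hz w).1 hw
    exact ⟨s, h1, h2⟩
  · intro s hs y hy
    obtain ⟨ys, hys⟩ := ih (rk s) hs
    have hyy : y = ys := irec_eq hκ hrk s
      (fun s' h' => hz' s' (hκ.trans' _ _ _ i.2 hs h')) hy hys
    subst hyy
    rw [hz' s hs]
    constructor
    · rintro ⟨y', h1, h2⟩
      rw [irec_uniq hκ hrk hys h1]
      exact h2
    · exact fun h => ⟨y, hys, h⟩

end IRec

theorem exists_rec_pred (hκ : Ordl κ) {Γ : Type} [Coded M Γ] [SetCoded M Γ] (rk : Γ → El κ)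
    (hrk : DF M rk) (Q : Γ → M → Prop) (hQ : DP M (fun p : Γ × M => Q p.1 p.2)) :
    ∃ x : M, (∀ z : M, z ∈ x → ∃ s : Γ, (Coded.code s : M) = z) ∧ ∀ (s : Γ) (y : M),
      (∀ z : M, z ∈ y ↔ z ∈ x ∧ ∃ s' : Γ, (Coded.code s' : M) = z ∧ (rk s').1 ∈ (rk s).1) →
      ((Coded.code s : M) ∈ x ↔ Q s y) := by
  have hrk' := @hrk.lift₁
  have hQ' := @DP.lift₂ _ _ _ _ _ _ _ Q hQ
  have hatt' := @DP.lift₂ _ _ _ _ _ _ _ (fun (i : El κ) (z : M) => IRecAtt rk Q i z)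
    (irec_att_dp hrk hQ)
  obtain ⟨x, hx⟩ := exists_subset (M := M) (Γ := Γ)
    (fun s : Γ => ∃ y : M, IRecAtt rk Q (rk s) y ∧ Q s y) inferInstance
  have hx' : ∀ s : Γ,
      ((Coded.code s : M) ∈ x ↔ ∃ y : M, IRecAtt rk Q (rk s) y ∧ Q s y) := by
    intro s
    rw [hx]
    constructor
    · rintro ⟨s', h1, h3⟩
      have := Coded.inj h1
      subst this
      exact h3
    · exact fun h => ⟨s, rfl, h⟩
  refine ⟨x, ?_, ?_⟩
  · intro w hw
    obtain ⟨s, h1, _⟩ := (hx w).1 hw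
    exact ⟨s, h1⟩
  · intro s y hy
    obtain ⟨ys, hys⟩ := irec_exists hκ hrk hQ (rk s)
    have hyy : y = ys := irec_eq hκ hrk s (fun s' _ => hx' s') hy hys
    subst hyy
    rw [hx' s]
    constructor
    · rintro ⟨y', h1, h2⟩
      rw [irec_uniq hκ hrk hys h1]
      exact h2
    · exact fun h => ⟨y, hys, h⟩

end Pool.Agent.Lib.MP_6b4821_lc
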