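import Pool.Agent.Lib.MP_a1c723_lc.BV.Defs
import Pool.Agent.Lib.MP_5ed4ef_gt.Defs

/-!
# MP_6b4821_lc: topological groups inside a model of set theory

All notions are internal to a structure `(M, ∈)`: they quantify over the elements of `M`, and all
functions, relations and group operations are required to belong to `M` (`FunIn`, `FunIn₂`).
`El a` is the type of the members of `a`. The notions `ModelZF`, `FunIn`, `FiniteIn`, `CountableIn`,
`IsTopology`, `IsHausdorffIn`, `IsCompactIn`, `Metrizable` are those of
`Pool.Agent.Lib.MP_5db68c_lc.Defs`, `ModelZFC` is that of `Pool.Agent.Lib.MP_a1c723_lc.BV.Defs`, and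
`IsSubspace X t A s` (`s` is the subspace topology of the subset `A` of the space `(X, t)`) is that
of `Pool.Agent.Lib.MP_5ed4ef_gt.Defs`.
-/

set_option autoImplicit false

namespace Pool.Agent.Lib.MP_6b4821_lc

open Pool.Agent.MP_5db68c_lc
open Pool.Agent.Lib.MP_5ed4ef_gt (IsSubspace)

section

variable {M : Type} [Membership M M]

/-- The space `(X, t)` is countably compact (in `M`): every countable open cover has a finite
subcover. -/
def IsCtblyCompactIn (X t : M) : Prop :=
  ∀ c : M, (∀ U : M, U ∈ c → U ∈ t) → CountableIn c →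
    (∀ x : M, x ∈ X → ∃ U : M, U ∈ c ∧ x ∈ U) →
    ∃ c' : M, (∀ U : M, U ∈ c' → U ∈ c) ∧ FiniteIn c' ∧
      ∀ x : M, x ∈ X → ∃ U : M, U ∈ c' ∧ x ∈ U

/-- `b` is a base of the topology `t` (in `M`). -/
def IsBaseIn (t b : M) : Prop :=
  (∀ U : M, U ∈ b → U ∈ t) ∧
    ∀ U x : M, U ∈ t → x ∈ U → ∃ V : M, V ∈ b ∧ x ∈ V ∧ ∀ y : M, y ∈ V → y ∈ U

/-- The cardinality of `a` is at most that of `b` (in `M`): some injection belonging to `M` maps
`a` into `b`. -/
def CardLE (a b : M) : Prop :=
  ∃ f : El a → El b, FunIn (fun x => (f x).1) ∧ Function.Injective f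

/-- The weight of the topology `t` is at most the weight of the topology `r` (in `M`): for each
base of `r` there is a base of `t` of at most the same cardinality. -/
def WeightLE (t r : M) : Prop :=
  ∀ b : M, IsBaseIn r b → ∃ a : M, IsBaseIn t a ∧ CardLE a b

/-- The space `(X, t)` is `w`-compact (in `M`): some compact subset `C`, with its subspace
topology `s`, has the same weight as `(X, t)`. -/
def WCompactIn (X t : M) : Prop :=
  ∃ C s : M, IsSubspace X t C s ∧ IsCompactIn C s ∧ WeightLE s t ∧ WeightLE t s

end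

/-- A Hausdorff topological group of `M`: a Hausdorff space `(carrier, top)` of `M` with a group
structure whose multiplication belongs to `M` and such that `(x, y) ↦ x y⁻¹` is continuous. -/
structure TopGroupIn (M : Type) [Membership M M] where
  carrier : M
  top : M
  [group : Group (El carrier)]
  mul_in : FunIn₂ (fun x y : El carrier => (x * y).1)
  topology : IsTopology carrier top
  hausdorff : IsHausdorffIn carrier top
  continuous : ∀ (x y : El carrier) (W : M), W ∈ top → (x * y⁻¹).1 ∈ W →
    ∃ U V : M, U ∈ top ∧ V ∈ top ∧ x.1 ∈ U ∧ y.1 ∈ V ∧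
      ∀ a b : El carrier, a.1 ∈ U → b.1 ∈ V → (a * b⁻¹).1 ∈ W

attribute [instance] TopGroupIn.group

section

variable {M : Type} [Membership M M]

/-- `D` is a subgroup of `G`, with the subspace topology. -/
structure IsSubgroupIn (G D : TopGroupIn M) : Prop where
  subspace : IsSubspace G.carrier G.top D.carrier D.top
  mul : ∀ (x y : El D.carrier) (x' y' : El G.carrier), x.1 = x'.1 → y.1 = y'.1 →
    (x * y).1 = (x' * y').1

/-- `D` is dense in `G`. -/
def IsDenseIn (G D : TopGroupIn M) : Prop :=
  ∀ U : M, U ∈ G.top → (∃ x : M, x ∈ U) → ∃ x : M, x ∈ U ∧ x ∈ D.carrier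

/-- `φ` is a continuous surjective homomorphism belonging to `M`. -/
structure IsContSurjHomIn (D H : TopGroupIn M) (φ : El D.carrier → El H.carrier) : Prop where
  fun_in : FunIn (fun x => (φ x).1)
  map_mul : ∀ x y, φ (x * y) = φ x * φ y
  surjective : Function.Surjective φ
  continuous : ∀ (x : El D.carrier) (W : M), W ∈ H.top → (φ x).1 ∈ W →
    ∃ U : M, U ∈ D.top ∧ x.1 ∈ U ∧ ∀ y : El D.carrier, y.1 ∈ U → (φ y).1 ∈ W

/-- `D` is projectively `w`-compact (in `M`): each Hausdorff topological group that is the image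
of `D` under a continuous surjective homomorphism is `w`-compact. -/
def ProjWCompactIn (D : TopGroupIn M) : Prop :=
  ∀ (H : TopGroupIn M) (φ : El D.carrier → El H.carrier), IsContSurjHomIn D H φ →
    WCompactIn H.carrier H.top

end

end Pool.Agent.Lib.MP_6b4821_lc
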