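import Pool.Agent.Lib.MP_6b4821_lc.IDefs
import Pool.Agent.Lib.MP_6b4821_lc.IStmt
import Pool.Agent.Lib.MP_5ed4ef_gt.Pos

/-!
# MP_6b4821_lc: auxiliary notions for the proof inside a model of ZFC
-/

set_option autoImplicit false
set_option synthInstance.maxSize 100000
set_option synthInstance.maxHeartbeats 400000

namespace Pool.Agent.Lib.MP_6b4821_lc

open Pool.Agent.MP_5db68c_lc Pool.Agent.StarRoth.BV

/-- `M` is a model of ZFC, as a class. -/
class IsZFC (M : Type) [Membership M M] : Prop where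
  zfc : ModelZFC M

instance instIsZF (M : Type) [Membership M M] [h : IsZFC M] : IsZF M := ⟨h.zfc.toModelZF⟩

section

variable {M : Type} [Membership M M]

/-- `κ` is a transitive set of transitive sets (an ordinal of `M`). -/
structure Ordl (κ : M) : Prop where
  trans : ∀ x y : M, x ∈ κ → y ∈ x → y ∈ κ
  trans' : ∀ x y z : M, x ∈ κ → y ∈ x → z ∈ y → z ∈ x

/-- The sets `x` and `y` agree on `F`. -/
def Agr (x y F : M) : Prop := ∀ i : M, i ∈ F → (i ∈ x ↔ i ∈ y)

/-- `F` is a finite subset of `κ`. -/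
def FinS (κ F : M) : Prop := (∀ i : M, i ∈ F → i ∈ κ) ∧ FiniteIn F

/-- `G` is the group `P(κ)` of all subsets of `κ` with the symmetric difference and with the
product topology. -/
structure IsPow (κ : M) (G : TopGroupIn M) : Prop where
  mem : ∀ x : M, x ∈ G.carrier ↔ ∀ i : M, i ∈ x → i ∈ κ
  top : ∀ U : M, U ∈ G.top ↔ (∀ x : M, x ∈ U → x ∈ G.carrier) ∧
    ∀ x : M, x ∈ U → ∃ F : M, FinS κ F ∧ ∀ y : M, y ∈ G.carrier → Agr x y F → y ∈ U
  mul : ∀ (x y : El G.carrier) (i : M), i ∈ (x * y).1 ↔ ¬ (i ∈ x.1 ↔ i ∈ y.1)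

/-- The topology on the type of the members of `X` generated by the internal open sets. -/
@[reducible] def extTop (X t : M) : TopologicalSpace (El X) :=
  TopologicalSpace.generateFrom {s | ∃ U : M, U ∈ t ∧ s = {x : El X | x.1 ∈ U}}

/-- `D` is a countably compact subgroup of `P(κ)`, in the form used in the proof. -/
structure Sub (κ : M) (D : TopGroupIn M) : Prop where
  mem : ∀ x : M, x ∈ D.carrier → ∀ i : M, i ∈ x → i ∈ κ
  top : ∀ U : M, U ∈ D.top ↔ (∀ x : M, x ∈ U → x ∈ D.carrier) ∧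
    ∀ x : M, x ∈ U → ∃ F : M, FinS κ F ∧ ∀ y : M, y ∈ D.carrier → Agr x y F → y ∈ U
  mul : ∀ (x y : El D.carrier) (i : M), i ∈ (x * y).1 ↔ ¬ (i ∈ x.1 ↔ i ∈ y.1)
  cc : IsCtblyCompactIn D.carrier D.top

end

section

variable {M : Type} [Membership M M] [hM : IsZF M]

/-- `a` is the range of a function of `M` defined on a subset of `ω`. -/
def Enu (a : M) : Prop :=
  ∃ R : N M → El a → Prop, DP M (fun p : N M × El a => R p.1 p.2) ∧
    (∀ n x y, R n x → R n y → x = y) ∧ ∀ x, ∃ n, R n x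

/-- `φ` is a continuous homomorphism of the countably compact subgroup `D` of `P(κ)` onto `H`. -/
structure Sit (κ : M) (D H : TopGroupIn M) (φ : El D.carrier →* El H.carrier) : Prop where
  sub : Sub κ D
  df : DF M (fun x : El D.carrier => φ x)
  surj : Function.Surjective φ
  cont : ∀ (x : El D.carrier) (W : M), W ∈ H.top → (φ x).1 ∈ W →
    ∃ F : M, FinS κ F ∧ ∀ y : El D.carrier, Agr x.1 y.1 F → (φ y).1 ∈ W

/-- `fun x => c = x` is eta-reduced to `Eq c` by the elaborator. -/
instance DP.eq_const {Γ : Type} [Coded M Γ] (c : Γ) : DP M (Eq c) :=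
  DP.congr (P := fun x => x = c) inferInstance (fun _ => eq_comm)

/-- `fun x => x ∈ c` is eta-reduced to `Membership.mem c` by the elaborator. -/
instance DP.mem_const (c : M) : DP M (Membership.mem c : M → Prop) :=
  DP.congr (P := fun x : M => (fun y : M => y) x ∈ c) (DP.mem (M := M)) (fun _ => Iff.rfl)

theorem DP_agr : DP M (fun p : (M × M) × M => Agr p.1.1 p.1.2 p.2) := by
  unfold Agr
  infer_instance

instance DP.agr {Γ : Type} [Coded M Γ] {f g h : Γ → M} [hf : DF M f] [hg : DF M g] [hh : DF M h] :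
    DP M (fun γ => Agr (f γ) (g γ) (h γ)) :=
  DP.lift₃ DP_agr

instance DP.finIn {Γ : Type} [Coded M Γ] {f : Γ → M} [hf : DF M f] :
    DP M (fun γ => FiniteIn (f γ)) := Pool.Agent.Lib.MP_5ed4ef_gt.DP_finiteIn'

theorem DP_finS : DP M (fun p : M × M => FinS p.1 p.2) := by
  unfold FinS
  infer_instance

instance DP.finS {Γ : Type} [Coded M Γ] {f g : Γ → M} [hf : DF M f] [hg : DF M g] :
    DP M (fun γ => FinS (f γ) (g γ)) :=
  DP.lift₂ (R := fun a b : M => FinS a b) DP_finS

end

end Pool.Agent.Lib.MP_6b4821_lc
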