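import Pool.Agent.Lib.MP_6b4821_lc.Top

/-!
The main theorem for MP_6b4821_lc.
-/

open Set Filter Topology TopologicalSpace Cardinal Pointwise

namespace Pool.Agent.Lib.MP_6b4821_lc

/-- The well-ordered type of order type `ω₁`. -/
abbrev Om : Type := (Cardinal.aleph 1).ord.ToType

theorem mk_Om : #Om = Cardinal.aleph 1 := Cardinal.mk_ord_toType _

instance : Nonempty Om := by
  rw [← Cardinal.mk_ne_zero_iff, mk_Om]
  exact (Cardinal.aleph_pos 1).ne'

theorem countable_Iio (a : Om) : (Iio a).Countable := by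
  rw [← Cardinal.le_aleph0_iff_set_countable, ← Order.lt_succ_iff, Cardinal.succ_aleph0]
  have := Cardinal.mk_Iio_lt a (by simp)
  rwa [mk_Om] at this

theorem countable_Iic (a : Om) : (Iic a).Countable := by
  rw [← Iio_insert]
  exact (countable_Iio a).insert a

theorem bdd_of_countable {S : Set Om} (hS : S.Countable) : ∃ a, ∀ b ∈ S, b < a := by
  by_contra h
  push Not at h
  have h1 : (univ : Set Om) ⊆ ⋃ b ∈ S, Iic b := fun a _ => by
    obtain ⟨b, hb, hab⟩ := h a
    exact mem_iUnion₂.2 ⟨b, hb, hab⟩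
  have h2 : (univ : Set Om).Countable := (hS.biUnion fun b _ => countable_Iic b).mono h1
  rw [countable_univ_iff, ← Cardinal.mk_le_aleph0_iff, mk_Om] at h2
  exact absurd h2 (not_le.2 Cardinal.aleph0_lt_aleph_one)

/-- A precompact `ω`-bounded Hausdorff group with a base at the identity indexed by `ω₁` is
w-compact. -/
theorem wcompact_of_omegaBdd {H : Type} [Group H] [TopologicalSpace H] [IsTopologicalGroup H]
    [T2Space H] (hpre : Pre H) (hω : OmegaBdd H) (O : Om → Set H)
    (hO : ∀ i, O i ∈ 𝓝 (1 : H)) (hOb : ∀ U ∈ 𝓝 (1 : H), ∃ i, O i ⊆ U) : WCompact H := by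
  classical
  have hcc := hω.countablyCompact
  by_cases hw : weight H ≤ ℵ₀
  · haveI := secondCountable_of_weight_le hw
    refine ⟨Set.univ, ?_, weight_univ H⟩
    obtain ⟨S, hS, hd⟩ := TopologicalSpace.exists_countable_dense H
    have := hω S hS
    rwa [hd.closure_eq] at this
  -- points close to the identity
  have hx : ∀ α : Om, ∃ x : H, x ≠ 1 ∧ ∀ β ≤ α, x ∈ O β := by
    intro α
    by_contra hcon
    push Not at hcon
    apply hw
    have hg : ∀ β : Om, ∃ γ : Om, closure (O γ) ⊆ O β := by
      intro β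
      obtain ⟨V, hV, hVc, hVO⟩ := exists_mem_nhds_isClosed_subset (hO β)
      obtain ⟨γ, hγ⟩ := hOb V hV
      exact ⟨γ, (closure_minimal hγ hVc).trans hVO⟩
    choose g hg using hg
    have hctb : Countable (Iic α) := (countable_Iic α).to_subtype
    let 𝓕 : Filter H := ⨅ β : Iic α, 𝓟 (closure (O (g β)))
    have h𝓕c : 𝓕.IsCountablyGenerated := Filter.iInf.isCountablyGenerated _
    have hle : 𝓕 ≤ 𝓝 (1 : H) := by
      intro U hU
      by_contra hUF
      have hne : (𝓕 ⊓ 𝓟 Uᶜ).NeBot := by
        rw [inf_principal_neBot_iff]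
        intro T hT
        by_contra hemp
        rw [not_nonempty_iff_eq_empty] at hemp
        refine hUF (mem_of_superset hT fun y hy => ?_)
        by_contra hyU
        have : y ∈ T ∩ Uᶜ := ⟨hy, hyU⟩
        rw [hemp] at this
        exact this
      obtain ⟨a, -, ha⟩ := hcc (f := 𝓕 ⊓ 𝓟 Uᶜ) (by simp)
      have ha1 : a = 1 := by
        by_contra hane
        obtain ⟨β, hβ, haβ⟩ := hcon a hane
        apply haβ
        apply hg β
        have h1 : 𝓕 ⊓ 𝓟 Uᶜ ≤ 𝓟 (closure (O (g β))) :=
          inf_le_left.trans (iInf_le (fun β : Iic α => 𝓟 (closure (O (g β)))) ⟨β, hβ⟩)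
        have h2 := (ha.mono h1)
        rw [← mem_closure_iff_clusterPt] at h2
        rwa [closure_closure] at h2
      have h3 : ClusterPt a (𝓟 Uᶜ) := ha.mono inf_le_right
      rw [← mem_closure_iff_clusterPt, closure_compl, ha1] at h3
      exact h3 (mem_interior_iff_mem_nhds.2 hU)
    have heq : 𝓝 (1 : H) = 𝓕 := by
      refine le_antisymm ?_ hle
      refine le_iInf fun β => le_principal_iff.2 ?_
      exact mem_of_superset (hO _) subset_closure
    have hcg : (𝓝 (1 : H)).IsCountablyGenerated := heq ▸ h𝓕c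
    obtain ⟨b, hb⟩ := (𝓝 (1 : H)).exists_antitone_basis
    have := weight_le_of_basis hpre (ι := ℕ) b (fun i => hb.toHasBasis.mem_of_mem trivial)
      (fun U hU => by
        obtain ⟨i, -, hi⟩ := hb.toHasBasis.mem_iff.1 hU
        exact ⟨i, hi⟩)
    simpa using this
  choose x hx1 hx2 using hx
  -- the compact set
  let K : Om → Set H := fun β => closure (x '' Iic β)
  have hK : ∀ β, IsCompact (K β) := fun β => hω _ ((countable_Iic β).image x)
  let C : Set H := {1} ∪ ⋃ β, K β
  have h1C : (1 : H) ∈ C := Or.inl rfl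
  have hxC : ∀ α, x α ∈ C := fun α =>
    Or.inr (mem_iUnion.2 ⟨α, subset_closure ⟨α, mem_Iic.2 le_rfl, rfl⟩⟩)
  have hC : IsCompact C := by
    refine isCompact_of_finite_subcover fun {ι} U hUo hCU => ?_
    obtain ⟨i₀, hi₀⟩ := mem_iUnion.1 (hCU h1C)
    obtain ⟨V, hV, hVc, hVU⟩ := exists_mem_nhds_isClosed_subset ((hUo i₀).mem_nhds hi₀)
    obtain ⟨β, hβ⟩ := hOb V hV
    obtain ⟨t, ht⟩ := (hK β).elim_finite_subcover U hUo
      ((subset_iUnion K β).trans (subset_union_right.trans hCU))
    refine ⟨insert i₀ t, ?_⟩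
    have hcov : ∀ z, z ∈ U i₀ ∨ z ∈ K β → z ∈ ⋃ i ∈ insert i₀ t, U i := by
      rintro z (hz | hz)
      · exact mem_iUnion₂.2 ⟨i₀, Finset.mem_insert_self _ _, hz⟩
      · obtain ⟨i, hi, hzi⟩ := mem_iUnion₂.1 (ht hz)
        exact mem_iUnion₂.2 ⟨i, Finset.mem_insert_of_mem hi, hzi⟩
    rintro z (hz | hz)
    · exact hcov z (Or.inl ((mem_singleton_iff.1 hz) ▸ hi₀))
    · obtain ⟨γ, hγ⟩ := mem_iUnion.1 hz
      apply hcov
      have hsub : x '' Iic γ ⊆ V ∪ x '' Iic β := by
        rintro _ ⟨α, -, rfl⟩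
        rcases le_or_gt α β with h | h
        · exact Or.inr ⟨α, h, rfl⟩
        · exact Or.inl (hβ (hx2 α β h.le))
      have := closure_mono hsub hγ
      rw [closure_union, hVc.closure_eq] at this
      exact this.imp (fun h => hVU h) id
  refine ⟨C, hC, ?_⟩
  have hwH : weight H ≤ Cardinal.aleph 1 := by
    have := weight_le_of_basis hpre O hO hOb
    rwa [mk_Om, max_eq_left (Cardinal.aleph0_lt_aleph_one.le)] at this
  have hwC : ¬ weight C ≤ ℵ₀ := by
    intro hwC
    have := secondCountable_of_weight_le hwC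
    obtain ⟨b, hb⟩ := (𝓝 (⟨1, h1C⟩ : C)).exists_antitone_basis
    have hsel : ∀ n : ℕ, ∃ β : Om, ∀ y (hy : y ∈ C), y ∈ O β → (⟨y, hy⟩ : C) ∈ b n := by
      intro n
      have := hb.toHasBasis.mem_of_mem (i := n) trivial
      obtain ⟨V, hV, hVb⟩ := (mem_nhds_subtype _ _ _).1 this
      obtain ⟨β, hβ⟩ := hOb V hV
      exact ⟨β, fun y hy hyO => hVb (hβ hyO)⟩
    choose β hβ using hsel
    obtain ⟨α, hα⟩ := bdd_of_countable (countable_range β)
    have hne : (⟨1, h1C⟩ : C) ≠ ⟨x α, hxC α⟩ := fun h => hx1 α (congrArg Subtype.val h).symm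
    have hmem : ({⟨x α, hxC α⟩}ᶜ : Set C) ∈ 𝓝 (⟨1, h1C⟩ : C) :=
      isOpen_compl_singleton.mem_nhds hne
    obtain ⟨n, -, hn⟩ := hb.toHasBasis.mem_iff.1 hmem
    have := hn (hβ n (x α) (hxC α) (hx2 α (β n) (hα _ ⟨n, rfl⟩).le))
    exact this rfl
  have h1 : Cardinal.aleph 1 ≤ weight C := by
    rw [not_le] at hwC
    rw [← Cardinal.succ_aleph0]
    exact Order.succ_le_of_lt hwC
  exact le_antisymm (weight_subtype_le C) (hwH.trans h1)

/-- Every countably compact subgroup of a compact group of weight at most `ω₁` is projectively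
w-compact if `ω₁`-families have pseudo-intersections. -/
theorem projWCompact_of_pi (hpi : ∀ ι : Type, #ι ≤ Cardinal.aleph 1 → PI ι)
    {G : Type} [Group G] [TopologicalSpace G] [IsTopologicalGroup G] [CompactSpace G] [T2Space G]
    (hG : weight G ≤ Cardinal.aleph 1) (D : Subgroup G) (hD : IsCountablyCompact (D : Set G)) :
    ProjWCompact D := by
  classical
  intro H _ _ _ _ φ hφ hs
  obtain ⟨B, hB, hBc⟩ := weight_spec G
  have hDω : OmegaBdd D := omegaBdd_of_countablyCompact hB (hpi B (hBc.le.trans hG)) hD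
  have hpre : Pre D := pre_subgroup D
  -- a base at the identity of D indexed by Om
  have hBne : B.Nonempty := by
    obtain ⟨b, hb, -⟩ := hB.mem_nhds_iff.1 (univ_mem (f := 𝓝 (1 : G)))
    exact ⟨b, hb⟩
  have hsurj : ∃ f : Om → B, Function.Surjective f := by
    have : Nonempty B := hBne.to_subtype
    have hle : #B ≤ #Om := by rw [mk_Om]; exact hBc.le.trans hG
    obtain ⟨e⟩ := hle
    exact ⟨Function.invFun e, Function.invFun_surjective e.injective⟩
  obtain ⟨f, hf⟩ := hsurj
  let U : Om → Set D := fun i =>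
    if (1 : G) ∈ (f i : Set G) then Subtype.val ⁻¹' (f i : Set G) else Set.univ
  obtain ⟨O, hO, hOb⟩ := image_basis hpre φ hφ hs U (by
    intro i
    simp only [U]
    split_ifs with h
    · exact continuous_subtype_val.continuousAt.preimage_mem_nhds (hB.mem_nhds (f i).2 h)
    · exact univ_mem) (by
    intro V hV
    obtain ⟨W, hW, hWV⟩ := (mem_nhds_subtype _ _ _).1 hV
    obtain ⟨b, hb, hxb, hbV⟩ := hB.mem_nhds_iff.1 hW
    obtain ⟨i, hi⟩ := hf ⟨b, hb⟩
    refine ⟨i, ?_⟩
    have h1 : (1 : G) ∈ b := hxb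
    simp only [U, hi, if_pos h1]
    exact (preimage_mono hbV).trans hWV)
  exact wcompact_of_omegaBdd (hpre.image φ hφ hs) (hDω.image hφ hs) O hO hOb

/-! ### uncountable compact subsets -/

theorem countable_subgroupClosure {G : Type} [Group G] (S : Set G) (hS : S.Countable) :
    ((Subgroup.closure S : Subgroup G) : Set G).Countable := by
  have : Countable S := hS.to_subtype
  have h1 : (Subgroup.closure S : Subgroup G) = (FreeGroup.lift (Subtype.val : S → G)).range := by
    rw [FreeGroup.range_lift_eq_closure, Subtype.range_coe]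
  rw [h1]
  have : Countable (FreeGroup S) := by
    unfold FreeGroup
    exact Quot.mk_surjective.countable
  exact countable_range _

theorem uncountable_of_compact_infinite (K : Type) [Group K] [TopologicalSpace K]
    [IsTopologicalGroup K] [CompactSpace K] [T2Space K] [Infinite K] :
    Uncountable K := by
  by_contra hc
  rw [not_uncountable_iff] at hc
  obtain ⟨x, hx⟩ := nonempty_interior_of_iUnion_of_closed (f := fun x : K => ({x} : Set K))
    (fun x => isClosed_singleton) (eq_univ_of_forall fun x => mem_iUnion.2 ⟨x, rfl⟩)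
  have hopen : IsOpen ({x} : Set K) := by
    have : interior {x} = ({x} : Set K) := by
      apply Subset.antisymm interior_subset
      rintro _ rfl
      obtain ⟨y, hy⟩ := hx
      have := interior_subset hy
      rw [mem_singleton_iff] at this
      rwa [this] at hy
    rw [← this]
    exact isOpen_interior
  have h1 : IsOpen ({1} : Set K) := by
    have := hopen.preimage (continuous_const_mul x)
    have h2 : (fun b => x * b) ⁻¹' {x} = ({1} : Set K) := by
      ext b; simp
    rwa [h2] at this
  have := discreteTopology_of_isOpen_singleton_one h1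
  have hfin : Finite K := finite_of_compact_of_discrete
  exact _root_.not_finite K

theorem exists_uncountable_compact (hpi : ∀ ι : Type, #ι ≤ Cardinal.aleph 1 → PI ι)
    {G : Type} [Group G] [TopologicalSpace G] [IsTopologicalGroup G] [CompactSpace G] [T2Space G]
    (hG : weight G ≤ Cardinal.aleph 1) (D : Subgroup G) (hD : IsCountablyCompact (D : Set G))
    (hinf : (D : Set G).Infinite) :
    ∃ C : Set G, C ⊆ D ∧ IsCompact C ∧ ¬ C.Countable := by
  classical
  obtain ⟨B, hB, hBc⟩ := weight_spec G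
  have hDω : OmegaBdd D := omegaBdd_of_countablyCompact hB (hpi B (hBc.le.trans hG)) hD
  have : Infinite D := hinf.to_subtype
  obtain ⟨S, -, hSc, hSinf⟩ := (Set.infinite_univ (α := D)).exists_subset_countable_infinite
  let T : Subgroup D := Subgroup.closure S
  have hTc : ((T : Subgroup D) : Set D).Countable := countable_subgroupClosure S hSc
  let K : Subgroup D := T.topologicalClosure
  have hK : IsCompact (K : Set D) := hDω _ hTc
  have : CompactSpace K := isCompact_iff_compactSpace.1 hK
  have hKinf : Infinite K := by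
    have : (K : Set D).Infinite := hSinf.mono fun x hx =>
      Subgroup.le_topologicalClosure T (Subgroup.subset_closure hx)
    exact this.to_subtype
  have hunc := uncountable_of_compact_infinite K
  refine ⟨Subtype.val '' (K : Set D), ?_, hK.image continuous_subtype_val, ?_⟩
  · rintro _ ⟨x, -, rfl⟩
    exact x.2
  · intro h
    have h2 : (K : Set D).Countable :=
      countable_of_injective_of_countable_image Subtype.val_injective.injOn h
    have h3 : Countable K := h2.to_subtype
    exact (not_countable (α := K)) h3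

/-! ### the example -/

/-- The compact group `Z(2)^ω₁`. -/
abbrev Cantor : Type := Om → Multiplicative (ZMod 2)

/-- Basic neighbourhoods of the identity in `Z(2)^ω₁`. -/
def cyl (F : Finset Om) : Set Cantor := {x | ∀ i ∈ F, x i = 1}

theorem isOpen_cyl (F : Finset Om) : IsOpen (cyl F) := by
  have : cyl F = ⋂ i ∈ F, (fun x : Cantor => x i) ⁻¹' {1} := by
    ext x; simp [cyl]
  rw [this]
  exact isOpen_biInter_finset fun i _ => (isOpen_discrete _).preimage (continuous_apply i)

theorem one_mem_cyl (F : Finset Om) : (1 : Cantor) ∈ cyl F := fun _ _ => rfl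

theorem cyl_basis {U : Set Cantor} (hU : U ∈ 𝓝 (1 : Cantor)) : ∃ F, cyl F ⊆ U := by
  rw [nhds_pi, Filter.mem_pi] at hU
  obtain ⟨I, hI, t, ht, htU⟩ := hU
  refine ⟨hI.toFinset, fun x hx => htU fun i hi => ?_⟩
  rw [hx i (hI.mem_toFinset.2 hi)]
  exact mem_of_mem_nhds (ht i)

theorem pre_of_compact (G : Type) [Group G] [TopologicalSpace G] [IsTopologicalGroup G]
    [CompactSpace G] : Pre G :=
  (pre_subgroup (⊤ : Subgroup G)).image (Subgroup.subtype ⊤) continuous_subtype_val
    (fun g => ⟨⟨g, trivial⟩, rfl⟩)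

theorem weight_cantor : weight Cantor ≤ Cardinal.aleph 1 := by
  have := weight_le_of_basis (pre_of_compact Cantor) cyl
    (fun F => (isOpen_cyl F).mem_nhds (one_mem_cyl F)) (fun U hU => cyl_basis hU)
  have h2 : #(Finset Om) = Cardinal.aleph 1 := by
    have : Infinite Om := by
      rw [Cardinal.infinite_iff, mk_Om]
      exact Cardinal.aleph0_le_aleph 1
    rw [Cardinal.mk_finset_of_infinite, mk_Om]
  rwa [h2, max_eq_left (Cardinal.aleph0_lt_aleph_one.le)] at this

theorem not_metrizable_cantor : ¬ MetrizableSpace Cantor := by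
  classical
  intro h
  obtain ⟨b, hb⟩ := (𝓝 (1 : Cantor)).exists_antitone_basis
  choose F hF using fun n : ℕ => cyl_basis (hb.toHasBasis.mem_of_mem (i := n) trivial)
  obtain ⟨α, hα⟩ := bdd_of_countable (S := ⋃ n, (F n : Set Om))
    (countable_iUnion fun n => (F n).countable_toSet)
  let x : Cantor := Pi.mulSingle α (Multiplicative.ofAdd 1)
  have hx : x ≠ 1 := by
    intro h
    have := congrFun h α
    simp [x] at this
  obtain ⟨n, -, hn⟩ := hb.toHasBasis.mem_iff.1 (isOpen_compl_singleton.mem_nhds hx.symm)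
  refine hn (hF n ?_) rfl
  intro i hi
  have : i ≠ α := (hα i (mem_iUnion.2 ⟨n, hi⟩)).ne
  simp [x, this]

/-- The continuum hypothesis. -/
def CH : Prop := (𝔠 : Cardinal.{0}) = Cardinal.aleph 1

/-- The statement of Q1. -/
def Q1Statement : Prop :=
  ∀ (G : Type) [CommGroup G] [TopologicalSpace G] [IsTopologicalGroup G] [CompactSpace G]
    [T2Space G],
    (∀ D : Subgroup G, Dense (D : Set G) → IsCountablyCompact (D : Set G) → ProjWCompact D) →
      MetrizableSpace G

theorem pi_of_ma (ma : MartinsAxiom) (nch : ¬ CH) (ι : Type) (hι : #ι ≤ Cardinal.aleph 1) :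
    PI ι := by
  refine ma.pi ι (hι.trans_lt (lt_of_le_of_ne ?_ fun h => nch h.symm))
  rw [← Cardinal.succ_aleph0]
  exact Order.succ_le_of_lt Cardinal.aleph0_lt_continuum

theorem main (ma : MartinsAxiom) (nch : ¬ CH) :
    (∀ (G : Type) [Group G] [TopologicalSpace G] [IsTopologicalGroup G] [CompactSpace G]
      [T2Space G], weight G ≤ Cardinal.aleph 1 → ∀ D : Subgroup G,
        IsCountablyCompact (D : Set G) → ProjWCompact D ∧
          ((D : Set G).Infinite → ∃ C : Set G, C ⊆ D ∧ IsCompact C ∧ ¬ C.Countable)) ∧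
    ¬ Q1Statement := by
  refine ⟨fun G _ _ _ _ _ hG D hD => ⟨projWCompact_of_pi (pi_of_ma ma nch) hG D hD,
    exists_uncountable_compact (pi_of_ma ma nch) hG D hD⟩, fun hQ => ?_⟩
  refine not_metrizable_cantor (hQ Cantor fun D _ hD => ?_)
  exact projWCompact_of_pi (pi_of_ma ma nch) weight_cantor D hD

end Pool.Agent.Lib.MP_6b4821_lc
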