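import Pool.Agent.Lib.SymModel.RO
import Pool.Agent.Lib.MP_6b4821_lc.IDefs

/-!
# A one-step c.c.c. poset forcing pseudo-intersections for all families indexed by `W`

An index names a `W`-indexed family of subsets of `ℕ` in the extension, by means of conditions on
indices of lower rank. A condition assigns to finitely many indices a Mathias-Prikry condition.
-/

set_option autoImplicit false

namespace Pool.Agent.Lib.MP_6b4821_lc

open Pool.Agent.Lib.SymModel

/-- Indices: names of `W`-indexed families of subsets of `ℕ`. -/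
inductive Ix (W : Type) : Type
  | base : Ix W
  | mk (len : W → ℕ → ℕ → ℕ) (dat : W → ℕ → ℕ → ℕ → Finset ℕ × Finset W)
      (ch : W → ℕ → ℕ → ℕ → Ix W) : Ix W

variable {W : Type}

/-- Conditions. -/
structure Cd (W : Type) where
  s : Ix W → Finset ℕ
  F : Ix W → Finset W
  fin : {i | s i ≠ ∅ ∨ F i ≠ ∅}.Finite

namespace PF

open Classical in
/-- The condition coded by a finite list of indices with data. -/
noncomputable def cdOf (l : ℕ) (d : ℕ → Finset ℕ × Finset W) (c : ℕ → Ix W) : Cd W where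
  s x := ((Finset.range l).filter fun j => c j = x).biUnion fun j => (d j).1
  F x := ((Finset.range l).filter fun j => c j = x).biUnion fun j => (d j).2
  fin := by
    refine ((Finset.range l).image c).finite_toSet.subset ?_
    intro x hx
    rw [Finset.mem_coe, Finset.mem_image]
    by_contra hcon
    push Not at hcon
    have h1 : ((Finset.range l).filter fun j => c j = x) = ∅ := by
      rw [Finset.filter_eq_empty_iff]
      exact fun j hj h => hcon j hj h
    rcases hx with hx | hx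
    · exact hx (by rw [h1]; rfl)
    · exact hx (by rw [h1]; rfl)

/-- `k` is a valid entry. -/
def Valid : Ix W → W → ℕ → ℕ → Prop
  | .base, _, _, _ => False
  | .mk len _ _, ξ, n, k => 0 < len ξ n k

/-- The `k`-th condition of the name of the statement `n ∈ A_ξ`. -/
noncomputable def nc : Ix W → W → ℕ → ℕ → Cd W
  | .base, _, _, _ => cdOf 0 (fun _ => (∅, ∅)) (fun _ => .base)
  | .mk len dat ch, ξ, n, k => cdOf (len ξ n k) (dat ξ n k) (ch ξ n k)

/-- `j` is used in `i`. -/
def Child : Ix W → Ix W → Prop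
  | _, .base => False
  | j, .mk _ _ ch => ∃ ξ n k m, j = ch ξ n k m

theorem wf_child : WellFounded (Child : Ix W → Ix W → Prop) := by
  refine ⟨fun i => ?_⟩
  induction i with
  | base => exact ⟨_, fun j h => h.elim⟩
  | mk len dat ch ih =>
    refine ⟨_, fun j h => ?_⟩
    obtain ⟨ξ, n, k, m, rfl⟩ := h
    exact ih ξ n k m

/-- `j` is of lower rank than `i`. -/
def Low (j i : Ix W) : Prop := Relation.TransGen Child j i

theorem wf_low : WellFounded (Low : Ix W → Ix W → Prop) := wf_child.transGen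

theorem Low.trans {i j k : Ix W} (h : Low i j) (h' : Low j k) : Low i k :=
  Relation.TransGen.trans h h'

theorem not_low_self (i : Ix W) : ¬ Low i i := wf_low.irrefl.irrefl i

theorem nc_support {i j : Ix W} {ξ : W} {n k : ℕ} (h : ¬ Low j i) :
    (nc i ξ n k).s j = ∅ ∧ (nc i ξ n k).F j = ∅ := by
  classical
  cases i with
  | base => exact ⟨rfl, rfl⟩
  | mk len dat ch =>
    have h1 : ((Finset.range (len ξ n k)).filter fun m => ch ξ n k m = j) = ∅ := by
      rw [Finset.filter_eq_empty_iff]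
      intro m _ hm
      exact h (Relation.TransGen.single ⟨ξ, n, k, m, hm.symm⟩)
    constructor
    · show ((Finset.range (len ξ n k)).filter fun m => ch ξ n k m = j).biUnion _ = ∅
      rw [h1]; rfl
    · show ((Finset.range (len ξ n k)).filter fun m => ch ξ n k m = j).biUnion _ = ∅
      rw [h1]; rfl

/-- The clause at the index `j` of the order. -/
def Cl (R : ℕ → W → Prop) (q p : Cd W) (j : Ix W) : Prop :=
  p.s j ⊆ q.s j ∧ p.F j ⊆ q.F j ∧ ∀ n ∈ q.s j, n ∉ p.s j → ∀ ξ ∈ p.F j, R n ξ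

/-- `q` forces `n ∈ A_ξ`, where `A` is the family named by `i`. -/
noncomputable def Ok : Ix W → Cd W → ℕ → W → Prop :=
  wf_low.fix fun i rec q n ξ =>
    ∀ r : Cd W, (∀ (j : Ix W) (h : Low j i), Cl (rec j h r) r q j) →
      ∃ k, Valid i ξ n k ∧ ∃ r' : Cd W, (∀ (j : Ix W) (h : Low j i), Cl (rec j h r') r' r j) ∧
        ∀ (j : Ix W) (h : Low j i), Cl (rec j h r') r' (nc i ξ n k) j

/-- The order on the indices in `S`. -/
def LeOn (S : Ix W → Prop) (q p : Cd W) : Prop := ∀ j, S j → Cl (Ok j q) q p j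

theorem ok_iff {i : Ix W} {q : Cd W} {n : ℕ} {ξ : W} :
    Ok i q n ξ ↔ ∀ r, LeOn (Low · i) r q →
      ∃ k, Valid i ξ n k ∧ ∃ r', LeOn (Low · i) r' r ∧ LeOn (Low · i) r' (nc i ξ n k) := by
  unfold Ok
  rw [wf_low.fix_eq]
  rfl

/-- Monotonicity at `i`. -/
def Mono (i : Ix W) : Prop :=
  ∀ (q r : Cd W) (n : ℕ) (ξ : W), Ok i q n ξ → LeOn (Low · i) r q → Ok i r n ξ

theorem trans_of {S : Ix W → Prop} (hS : ∀ i j, S i → Low j i → S j) (hm : ∀ j, S j → Mono j)
    {t r q : Cd W} (h1 : LeOn S t r) (h2 : LeOn S r q) : LeOn S t q := by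
  intro j hj
  refine ⟨(h2 j hj).1.trans (h1 j hj).1, (h2 j hj).2.1.trans (h1 j hj).2.1, ?_⟩
  intro n hn hnq ξ hξ
  by_cases hnr : n ∈ r.s j
  · exact hm j hj r t n ξ ((h2 j hj).2.2 n hnr hnq ξ hξ) fun k hk => h1 k (hS j k hj hk)
  · exact (h1 j hj).2.2 n hn hnr ξ ((h2 j hj).2.1 hξ)

theorem mono (i : Ix W) : Mono i := by
  induction i using wf_low.induction with
  | _ i ih =>
    intro q r n ξ h hr
    rw [ok_iff] at h ⊢
    intro t ht
    exact h t (trans_of (fun a b ha hb => hb.trans ha) (fun j hj => ih j hj) ht hr)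

theorem leOn_refl (S : Ix W → Prop) (p : Cd W) : LeOn S p p :=
  fun _ _ => ⟨Finset.Subset.refl _, Finset.Subset.refl _, fun _ h h' => absurd h h'⟩

theorem leOn_of_eq {S : Ix W → Prop} {p q : Cd W} (h : ∀ j, S j → q.s j = p.s j ∧ q.F j = p.F j) :
    LeOn S q p := by
  intro j hj
  obtain ⟨h1, h2⟩ := h j hj
  exact ⟨h1 ▸ Finset.Subset.refl _, h2 ▸ Finset.Subset.refl _, fun n hn hn' => absurd (h1 ▸ hn) hn'⟩

instance : Preorder (Cd W) where
  le q p := LeOn (fun _ => True) q p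
  le_refl p := leOn_refl _ p
  le_trans _ _ _ h1 h2 := trans_of (fun _ _ _ _ => trivial) (fun j _ => mono j) h1 h2

theorem le_iff {q p : Cd W} : q ≤ p ↔ ∀ j, Cl (Ok j q) q p j :=
  ⟨fun h j => h j trivial, fun h j _ => h j⟩

theorem le_leOn {q p : Cd W} (h : q ≤ p) (S : Ix W → Prop) : LeOn S q p := fun j _ => h j trivial

theorem ok_congr {i : Ix W} {p q : Cd W} (h : ∀ j, Low j i → q.s j = p.s j ∧ q.F j = p.F j)
    {n : ℕ} {ξ : W} : Ok i q n ξ ↔ Ok i p n ξ :=
  ⟨fun h' => mono i q p n ξ h' (leOn_of_eq fun j hj => ⟨(h j hj).1.symm, (h j hj).2.symm⟩),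
    fun h' => mono i p q n ξ h' (leOn_of_eq h)⟩

open Classical in
/-- `r` on the indices of lower rank than `i`, `q` elsewhere. -/
noncomputable def graft (i : Ix W) (r q : Cd W) : Cd W where
  s j := if Low j i then r.s j else q.s j
  F j := if Low j i then r.F j else q.F j
  fin := by
    refine (r.fin.union q.fin).subset ?_
    intro j hj
    by_cases h : Low j i
    · simp only [Set.mem_ofPred_eq, if_pos h] at hj
      exact Or.inl hj
    · simp only [Set.mem_ofPred_eq, if_neg h] at hj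
      exact Or.inr hj

theorem graft_low {i : Ix W} {r q : Cd W} {j : Ix W} (h : Low j i) :
    (graft i r q).s j = r.s j ∧ (graft i r q).F j = r.F j := by
  simp [graft, h]

theorem graft_not {i : Ix W} {r q : Cd W} {j : Ix W} (h : ¬ Low j i) :
    (graft i r q).s j = q.s j ∧ (graft i r q).F j = q.F j := by
  simp [graft, h]

theorem cl_congr {R R' : ℕ → W → Prop} {q q' p p' : Cd W} {j : Ix W} (h : Cl R q p j)
    (hq : q'.s j = q.s j ∧ q'.F j = q.F j) (hp : p'.s j = p.s j ∧ p'.F j = p.F j)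
    (hR : ∀ n ξ, R n ξ → R' n ξ) : Cl R' q' p' j := by
  obtain ⟨h1, h2, h3⟩ := h
  refine ⟨?_, ?_, ?_⟩
  · rw [hp.1, hq.1]; exact h1
  · rw [hp.2, hq.2]; exact h2
  · rw [hp.1, hq.1, hp.2]
    exact fun n hn hn' ξ hξ => hR _ _ (h3 n hn hn' ξ hξ)

theorem graft_le {i : Ix W} {r q : Cd W} (h : LeOn (Low · i) r q) : graft i r q ≤ q := by
  rw [le_iff]
  intro j
  by_cases hj : Low j i
  · exact cl_congr (h j hj) (graft_low hj) ⟨rfl, rfl⟩ fun n ξ h' =>
      (ok_congr fun k hk => graft_low (hk.trans hj)).2 h'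
  · obtain ⟨h1, h2⟩ := graft_not (r := r) (q := q) hj
    exact ⟨h1 ▸ Finset.Subset.refl _, h2 ▸ Finset.Subset.refl _,
      fun n hn hn' => absurd (h1 ▸ hn) hn'⟩

theorem ok_iff' {i : Ix W} {q : Cd W} {n : ℕ} {ξ : W} :
    Ok i q n ξ ↔ ∀ r ≤ q, ∃ k, Valid i ξ n k ∧ ∃ r' ≤ r, r' ≤ nc i ξ n k := by
  rw [ok_iff]
  constructor
  · intro h r hr
    obtain ⟨k, hk, r1, h1, h2⟩ := h r (le_leOn hr _)
    refine ⟨k, hk, graft i r1 r, graft_le h1, ?_⟩
    rw [le_iff]
    intro j
    by_cases hj : Low j i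
    · exact cl_congr (h2 j hj) (graft_low hj) ⟨rfl, rfl⟩ fun n ξ h' =>
        (ok_congr fun k hk => graft_low (hk.trans hj)).2 h'
    · obtain ⟨h3, h4⟩ := nc_support (ξ := ξ) (n := n) (k := k) hj
      exact ⟨h3 ▸ Finset.empty_subset _, h4 ▸ Finset.empty_subset _,
        fun m _ _ ξ' hξ' => absurd (h4 ▸ hξ') (Finset.notMem_empty _)⟩
  · intro h r hr
    obtain ⟨k, hk, r', h1, h2⟩ := h (graft i r q) (graft_le hr)
    refine ⟨k, hk, r', ?_, le_leOn h2 _⟩
    intro j hj
    exact cl_congr (le_leOn h1 (Low · i) j hj) ⟨rfl, rfl⟩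
      ⟨(graft_low hj).1.symm, (graft_low hj).2.symm⟩ fun _ _ h => h

end PF

end Pool.Agent.Lib.MP_6b4821_lc
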