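import Pool.Agent.Lib.MP_6b4821_lc.Defs

/-!
Topology for MP_6b4821_lc: countably compact subgroups of compact groups of weight below the
pseudo-intersection number are omega-bounded; omega-bounded precompact groups of character at most
omega_1 are w-compact.
-/

open Set Filter Topology TopologicalSpace Cardinal Pointwise

namespace Pool.Agent.Lib.MP_6b4821_lc

universe u

/-! ### weight -/

theorem weight_spec (X : Type u) [TopologicalSpace X] :
    ∃ B : Set (Set X), IsTopologicalBasis B ∧ #B = weight X :=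
  csInf_mem (s := {c | ∃ B : Set (Set X), IsTopologicalBasis B ∧ #B = c})
    ⟨_, {U | IsOpen U}, isTopologicalBasis_opens, rfl⟩

theorem weight_le {X : Type u} [TopologicalSpace X] {B : Set (Set X)}
    (hB : IsTopologicalBasis B) : weight X ≤ #B :=
  csInf_le' ⟨B, hB, rfl⟩

theorem weight_le_of_isInducing {X Y : Type u} [TopologicalSpace X] [TopologicalSpace Y]
    {f : X → Y} (hf : IsInducing f) : weight X ≤ weight Y := by
  obtain ⟨B, hB, hc⟩ := weight_spec Y
  exact (weight_le (hB.isInducing hf)).trans (mk_image_le.trans hc.le)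

theorem weight_subtype_le {X : Type u} [TopologicalSpace X] (C : Set X) : weight C ≤ weight X :=
  weight_le_of_isInducing IsInducing.subtypeVal

theorem weight_univ (X : Type u) [TopologicalSpace X] : weight (univ : Set X) = weight X := by
  refine le_antisymm (weight_subtype_le _) ?_
  exact weight_le_of_isInducing (Homeomorph.Set.univ X).symm.isInducing

theorem secondCountable_of_weight_le {X : Type u} [TopologicalSpace X] (h : weight X ≤ ℵ₀) :
    SecondCountableTopology X := by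
  obtain ⟨B, hB, hc⟩ := weight_spec X
  exact hB.secondCountableTopology (Cardinal.le_aleph0_iff_set_countable.1 (hc.le.trans h))

/-! ### omega-bounded spaces -/

/-- Every countable subset has compact closure. -/
def OmegaBdd (X : Type u) [TopologicalSpace X] : Prop :=
  ∀ S : Set X, S.Countable → IsCompact (closure S)

theorem mem_of_mem_closure {ι : Type} (hpi : PI ι) {K : Type u} [TopologicalSpace K] [T2Space K]
    {D : Set K} (hD : IsCountablyCompact D) (x : K) (U : ι → Set K) (hU : ∀ i, U i ∈ 𝓝 x)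
    (hUb : ∀ V ∈ 𝓝 x, ∃ i, U i ⊆ V) (S : Set K) (hS : S.Countable) (hSD : S ⊆ D)
    (hx : x ∈ closure S) : x ∈ D := by
  by_cases hxS : x ∈ S
  · exact hSD hxS
  have hne : S.Nonempty := closure_nonempty_iff.1 ⟨x, hx⟩
  obtain ⟨s, rfl⟩ := hS.exists_eq_range hne
  have hA : ∀ F : Finset ι, {n | ∀ i ∈ F, n ∈ {n | s n ∈ U i}}.Infinite := by
    intro F hfin
    have h1 : (⋂ i ∈ F, U i) ∈ 𝓝 x := (biInter_finset_mem F).2 fun i _ => hU i
    have h2 : (s '' {n | ∀ i ∈ F, n ∈ {n | s n ∈ U i}})ᶜ ∈ 𝓝 x := by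
      refine (hfin.image s).isClosed.isOpen_compl.mem_nhds ?_
      rintro ⟨n, -, rfl⟩
      exact hxS ⟨n, rfl⟩
    obtain ⟨_, ⟨hy1, hy2⟩, n, rfl⟩ := mem_closure_iff_nhds.1 hx _ (inter_mem h1 h2)
    exact hy2 ⟨n, fun i hi => (mem_iInter₂.1 hy1 i hi), rfl⟩
  obtain ⟨X, hX, hXA⟩ := hpi (fun i => {n | s n ∈ U i}) hA
  have hne : (atTop ⊓ 𝓟 X : Filter ℕ).NeBot := by
    rw [inf_principal_neBot_iff]
    intro T hT
    obtain ⟨m, hm⟩ := mem_atTop_sets.1 hT
    obtain ⟨n, hn, hmn⟩ := hX.exists_gt m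
    exact ⟨n, hm n hmn.le, hn⟩
  have hle : map s (atTop ⊓ 𝓟 X) ≤ 𝓟 D :=
    le_principal_iff.2 (mem_map.2 (Filter.univ_mem' fun n => hSD ⟨n, rfl⟩))
  obtain ⟨a, ha, hcl⟩ := hD hle
  have hlim : map s (atTop ⊓ 𝓟 X) ≤ 𝓝 x := by
    intro V hV
    obtain ⟨i, hi⟩ := hUb V hV
    rw [mem_map, mem_inf_principal]
    obtain ⟨m, hm⟩ := (hXA i).bddAbove
    refine mem_atTop_sets.2 ⟨m + 1, fun n hn hnX => hi ?_⟩
    by_contra hnU
    have := hm ⟨hnX, hnU⟩
    omega
  have : (𝓝 a ⊓ 𝓝 x).NeBot := Filter.NeBot.mono hcl (inf_le_inf_left _ hlim)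
  exact (eq_of_nhds_neBot this) ▸ ha

theorem omegaBdd_of_countablyCompact {K : Type} [TopologicalSpace K] [T2Space K] [CompactSpace K]
    {B : Set (Set K)} (hB : IsTopologicalBasis B) (hpi : PI B) {D : Set K}
    (hD : IsCountablyCompact D) : OmegaBdd D := by
  classical
  intro S hS
  rw [Subtype.isCompact_iff]
  have hcl : closure (Subtype.val '' S) ⊆ D := by
    intro x hx
    refine mem_of_mem_closure hpi hD x (fun b => if x ∈ (b : Set K) then (b : Set K) else univ)
      ?_ ?_ (Subtype.val '' S) (hS.image _) ?_ hx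
    · intro b
      split_ifs with h
      · exact hB.mem_nhds b.2 h
      · exact univ_mem
    · intro V hV
      obtain ⟨b, hb, hxb, hbV⟩ := hB.mem_nhds_iff.1 hV
      exact ⟨⟨b, hb⟩, by simpa [hxb] using hbV⟩
    · rintro _ ⟨y, -, rfl⟩
      exact y.2
  have heq : Subtype.val '' closure S = closure (Subtype.val '' S) := by
    apply Subset.antisymm
    · rintro _ ⟨y, hy, rfl⟩
      exact closure_subtype.1 hy
    · intro x hx
      exact ⟨⟨x, hcl hx⟩, closure_subtype.2 hx, rfl⟩
  rw [heq]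
  exact isClosed_closure.isCompact

theorem OmegaBdd.image {D : Type} {H : Type} [TopologicalSpace D] [TopologicalSpace H] [T2Space H]
    (hD : OmegaBdd D) {φ : D → H} (hφ : Continuous φ) (hs : Function.Surjective φ) :
    OmegaBdd H := by
  intro S hS
  have h1 := (hD (Function.surjInv hs '' S) (hS.image _)).image hφ
  refine h1.of_isClosed_subset isClosed_closure (closure_minimal ?_ h1.isClosed)
  intro y hy
  exact ⟨Function.surjInv hs y, subset_closure ⟨y, hy, rfl⟩, Function.surjInv_eq hs y⟩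

theorem OmegaBdd.countablyCompact {H : Type u} [TopologicalSpace H] (h : OmegaBdd H) :
    IsCountablyCompact (univ : Set H) := by
  refine IsCountablyCompact.of_seq_clusterPt fun x _ => ?_
  obtain ⟨a, -, ha⟩ := (h (range x) (countable_range x)).exists_mapClusterPt
    (f := atTop) (u := x) (tendsto_principal.2 (Eventually.of_forall fun n => subset_closure ⟨n, rfl⟩))
  exact ⟨a, mem_univ _, ha⟩

/-! ### precompact groups -/

/-- Precompact (totally bounded) groups. -/
def Pre (G : Type u) [Group G] [TopologicalSpace G] : Prop :=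
  ∀ U ∈ 𝓝 (1 : G), ∃ F : Set G, F.Finite ∧ ∀ g, ∃ f ∈ F, f⁻¹ * g ∈ U

theorem exists_split (G : Type u) [Group G] [TopologicalSpace G] [IsTopologicalGroup G]
    {U : Set G} (hU : U ∈ 𝓝 (1 : G)) :
    ∃ V ∈ 𝓝 (1 : G), IsClosed V ∧ ∀ a ∈ V, ∀ b ∈ V, a⁻¹ * b ∈ U := by
  have hc : ContinuousAt (fun p : G × G => p.1⁻¹ * p.2) (1, 1) := by fun_prop
  have : (fun p : G × G => p.1⁻¹ * p.2) ⁻¹' U ∈ 𝓝 ((1 : G), (1 : G)) := by
    apply hc
    simpa using hU
  rw [nhds_prod_eq, mem_prod_self_iff] at this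
  obtain ⟨V, hV, hVU⟩ := this
  obtain ⟨W, hW, hWc, hWV⟩ := exists_mem_nhds_isClosed_subset hV
  exact ⟨W, hW, hWc, fun a ha b hb => hVU (mk_mem_prod (hWV ha) (hWV hb))⟩

theorem pre_subgroup {G : Type u} [Group G] [TopologicalSpace G] [IsTopologicalGroup G]
    [CompactSpace G] (D : Subgroup G) : Pre D := by
  classical
  intro U hU
  obtain ⟨V, hV, hVU⟩ := mem_nhds_subtype _ _ _ |>.1 hU
  obtain ⟨W, hW, -, hWV⟩ := exists_split G (U := V) (by simpa using hV)
  obtain ⟨t, ht⟩ := compact_covered_by_mul_left_translates (K := (univ : Set G)) isCompact_univ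
    (V := W) ⟨1, mem_interior_iff_mem_nhds.2 hW⟩
  let d : G → D := fun g => if h : ∃ d : D, g * d ∈ W then h.choose else 1
  refine ⟨d '' t, (t.finite_toSet).image d, fun g => ?_⟩
  obtain ⟨k, hk, hkg⟩ := mem_iUnion₂.1 (ht (mem_univ (g : G)))
  have hex : ∃ d : D, k * d ∈ W := ⟨g, hkg⟩
  refine ⟨d k, ⟨k, hk, rfl⟩, hVU ?_⟩
  have hd : k * (d k : G) ∈ W := by
    simp only [d, dif_pos hex]
    exact hex.choose_spec
  have := hWV _ hd _ hkg
  simpa [mul_assoc] using this

theorem Pre.image {D : Type u} {H : Type u} [Group D] [Group H] [TopologicalSpace D]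
    [TopologicalSpace H] (hD : Pre D) (φ : D →* H) (hφ : Continuous φ)
    (hs : Function.Surjective φ) : Pre H := by
  intro U hU
  obtain ⟨F, hF, hF2⟩ := hD (φ ⁻¹' U) (hφ.continuousAt.preimage_mem_nhds (by simpa using hU))
  refine ⟨φ '' F, hF.image _, fun h => ?_⟩
  obtain ⟨g, rfl⟩ := hs h
  obtain ⟨f, hf, hfg⟩ := hF2 g
  exact ⟨φ f, ⟨f, hf, rfl⟩, by simpa using hfg⟩

theorem weight_le_of_basis {H : Type} [Group H] [TopologicalSpace H] [IsTopologicalGroup H]
    (hpre : Pre H) {ι : Type} (O : ι → Set H) (hO : ∀ i, O i ∈ 𝓝 (1 : H))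
    (hOb : ∀ U ∈ 𝓝 (1 : H), ∃ i, O i ⊆ U) : weight H ≤ max #ι ℵ₀ := by
  have h1 : ∀ i, interior (O i) ∈ 𝓝 (1 : H) := fun i => interior_mem_nhds.2 (hO i)
  choose F hF hF2 using fun i => hpre _ (h1 i)
  have hbasis : IsTopologicalBasis (range fun p : Σ i, F i =>
      {h : H | (p.2 : H)⁻¹ * h ∈ interior (O p.1)}) := by
    refine isTopologicalBasis_of_isOpen_of_nhds ?_ ?_
    · rintro _ ⟨p, rfl⟩
      exact isOpen_interior.preimage (continuous_const_mul _)
    · intro h U hh hU
      have hU1 : (fun x => h * x) ⁻¹' U ∈ 𝓝 (1 : H) :=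
        (hU.preimage (continuous_const_mul h)).mem_nhds (by simpa using hh)
      obtain ⟨V, hV, -, hVU⟩ := exists_split H hU1
      obtain ⟨i, hi⟩ := hOb V hV
      obtain ⟨f, hf, hfh⟩ := hF2 i h
      refine ⟨_, ⟨⟨i, f, hf⟩, rfl⟩, hfh, ?_⟩
      intro y hy
      have := hVU _ (hi (interior_subset hfh)) _ (hi (interior_subset hy))
      simpa [mul_assoc] using this
  refine (weight_le hbasis).trans (mk_range_le.trans ?_)
  rw [mk_sigma]
  calc Cardinal.sum (fun i => #(F i)) ≤ Cardinal.sum (fun _ : ι => ℵ₀) := by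
        refine Cardinal.sum_le_sum _ _ fun i => ?_
        exact (hF i).countable.le_aleph0
    _ = #ι * ℵ₀ := by simp
    _ ≤ max #ι ℵ₀ := by
        refine (mul_le_max _ _).trans ?_
        simp

theorem image_basis {D H : Type} [Group D] [TopologicalSpace D] [Group H] [TopologicalSpace H]
    [IsTopologicalGroup H] (hpre : Pre D) (φ : D →* H) (hφ : Continuous φ)
    (hs : Function.Surjective φ) {ι : Type} (U : ι → Set D) (hU : ∀ i, U i ∈ 𝓝 (1 : D))
    (hUb : ∀ V ∈ 𝓝 (1 : D), ∃ i, U i ⊆ V) :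
    ∃ O : ι → Set H, (∀ i, O i ∈ 𝓝 (1 : H)) ∧ ∀ V ∈ 𝓝 (1 : H), ∃ i, O i ⊆ V := by
  refine ⟨fun i => {y | ∃ a ∈ closure (φ '' U i), ∃ b ∈ closure (φ '' U i), y = a⁻¹ * b}, ?_, ?_⟩
  · intro i
    obtain ⟨F, hF, hF2⟩ := hpre _ (hU i)
    have hne : (interior (closure (φ '' U i))).Nonempty := by
      by_contra hemp
      rw [not_nonempty_iff_eq_empty] at hemp
      have hall : ∀ f : H, interior ((fun y => f⁻¹ * y) ⁻¹' closure (φ '' U i)) = ∅ := by
        intro f
        have := (Homeomorph.mulLeft f⁻¹).preimage_interior (closure (φ '' U i))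
        rw [Homeomorph.coe_mulLeft] at this
        rw [← this, hemp, preimage_empty]
      have hcl : ∀ f : H, IsClosed ((fun y => f⁻¹ * y) ⁻¹' closure (φ '' U i)) := fun f =>
        isClosed_closure.preimage (continuous_const_mul _)
      have hfin : ∀ T : Set H, T.Finite →
          interior (⋃ f ∈ T, (fun y => f⁻¹ * y) ⁻¹' closure (φ '' U i)) = ∅ := by
        intro T hT
        refine Set.Finite.induction_on _ hT (by simp) ?_
        intro a s _ _ ih
        rw [biUnion_insert, interior_union_isClosed_of_interior_empty (hcl a) ih]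
        exact hall a
      have huniv : (⋃ f ∈ φ '' F, (fun y => f⁻¹ * y) ⁻¹' closure (φ '' U i)) = Set.univ := by
        refine eq_univ_of_forall fun y => ?_
        obtain ⟨g, rfl⟩ := hs y
        obtain ⟨f, hf, hfg⟩ := hF2 g
        refine mem_iUnion₂.2 ⟨φ f, ⟨f, hf, rfl⟩, subset_closure ⟨f⁻¹ * g, hfg, by simp⟩⟩
      have := hfin (φ '' F) (hF.image _)
      rw [huniv, interior_univ] at this
      exact (univ_nonempty (α := H)).ne_empty this
    obtain ⟨x, hx⟩ := hne
    have : (fun y => x * y) ⁻¹' interior (closure (φ '' U i)) ∈ 𝓝 (1 : H) :=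
      (isOpen_interior.preimage (continuous_const_mul x)).mem_nhds (by simpa using hx)
    refine mem_of_superset this ?_
    intro y hy
    exact ⟨x, interior_subset hx, x * y, interior_subset hy, by simp⟩
  · intro V hV
    obtain ⟨W, hW, hWc, hWV⟩ := exists_split H hV
    obtain ⟨i, hi⟩ := hUb (φ ⁻¹' W) (hφ.continuousAt.preimage_mem_nhds (by simpa using hW))
    refine ⟨i, ?_⟩
    have hsub : closure (φ '' U i) ⊆ W := closure_minimal (image_subset_iff.2 hi) hWc
    rintro _ ⟨a, ha, b, hb, rfl⟩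
    exact hWV a (hsub ha) b (hsub hb)

end Pool.Agent.Lib.MP_6b4821_lc
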